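import Pool.Agent.V11210.NF.Law

/-!
# Sums over primes of functions of the reduction with bounded second moments, for almost all vectors of numbers obtained by few
changes of digits
-/

set_option autoImplicit false

namespace Pool.Agent.V11210.NF

open Finset Filter
open Pool.Agent.Y57.FD (digit change)
open Pool.Agent.Y722.HS (EM)
open Pool.Agent.Y722.ST (avg avg_eq)

lemma sum_inv_le (k : ℕ) (hk : 2 ≤ k) (S : Finset ℕ) (hS : ∀ p ∈ S, 1 ≤ p ∧ p < k) : ∑ p ∈ S, (1 : ℝ) / p ≤ 1 + Real.log k := by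
  have h1 : S ⊆ Ico 1 k := fun p hp => by rw [mem_Ico]; exact hS p hp
  refine (sum_le_sum_of_subset_of_nonneg h1 (fun i _ _ => by positivity)).trans ?_
  rw [sum_Ico_eq_sum_range]
  have h2 := harmonic_le_one_add_log (k - 1)
  have h3 : ((harmonic (k - 1) : ℚ) : ℝ) = ∑ i ∈ range (k - 1), (1 : ℝ) / ((1 + i : ℕ) : ℝ) := by
    unfold harmonic
    push_cast
    refine sum_congr rfl fun i _ => ?_
    rw [one_div, add_comm]
  rw [← h3]
  refine h2.trans ?_
  have hk1 : (0 : ℝ) < ((k - 1 : ℕ) : ℝ) := by exact_mod_cast (by omega : 0 < k - 1)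
  have hk2 : ((k - 1 : ℕ) : ℝ) ≤ k := by exact_mod_cast (by omega : k - 1 ≤ k)
  have := Real.log_le_log hk1 hk2
  linarith

lemma EM_abs {ι : Type} [Fintype ι] [DecidableEq ι] (p : ℕ) [NeZero p] (g : (ι → ZMod p) → ℝ) (hg : ∀ c, |g c| ≤ 1) :
    |EM p g| ≤ 1 := by
  have hp0 : (0 : ℝ) < (p : ℝ) ^ Fintype.card ι := by
    have : (0 : ℝ) < p := by exact_mod_cast Nat.pos_of_ne_zero (NeZero.ne p)
    positivity
  unfold EM
  rw [abs_div, abs_of_pos hp0, div_le_one hp0]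
  refine (abs_sum_le_sum_abs _ _).trans ((sum_le_sum fun c _ => hg c).trans ?_)
  rw [sum_const, nsmul_eq_mul, mul_one, card_univ, Fintype.card_fun, ZMod.card]
  push_cast
  exact le_rfl

theorem core (ι : Type) [Fintype ι] [DecidableEq ι] [Nonempty ι] (b : ℕ) (hb : 2 ≤ b) (θ : ℝ) (hθ : 0 ≤ θ) (δ : ℝ) (hδ : 0 < δ)
    (A : ℕ) (M K Q : ℝ) (hM : 1 ≤ M) (hK : 0 ≤ K) (hQ : 0 ≤ Q) (p0 : ℕ) :
    ∃ c : ℝ, 0 < c ∧ ∃ y₀ : ℕ,
    ∀ (Ks r : ι → ℕ) (y : ℕ), (∀ l, 2 * r l ≤ Ks l) → y₀ ≤ y →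
    ∀ N : ι → ℕ, (∀ l, N l < b ^ Ks l) → ∀ f : ι → ℕ → ℕ, (∀ l j, f l j < b ∧ f l j ≠ digit b j (N l)) →
    ∀ W B : ∀ p : ℕ, (ι → ZMod p) → ℝ,
    (∀ p : ℕ, p.Prime → 3 ≤ p → ∀ c, |W p c| ≤ M * (p : ℝ) ^ θ) →
    (∀ (p : ℕ) [Fact p.Prime], p0 ≤ p → EM p (fun c => W p c ^ 2) ≤ K * (p : ℝ) ^ (2 * θ - 1)) →
    (∀ (p : ℕ) [Fact p.Prime], p0 ≤ p → |EM p (W p)| ≤ K * (p : ℝ) ^ (θ - 1)) →
    (∀ p c, B p c = 0 ∨ B p c = 1) →
    (∀ (p : ℕ) [Fact p.Prime], EM p (B p) ≤ Q / p) →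
    ∀ E : (ι → ℕ) → Prop, (∀ m : ι → ℕ, (∀ T : ℕ, 2 ≤ T → y ≤ T → (∀ l, (T : ℝ) ≤ Real.exp (c * r l)) → ∀ R : Set ℕ,
      (∀ p ∈ R, p.Prime → 3 ≤ p → B p (fun l => (m l : ZMod p)) = 1) → ∀ (_ : DecidablePred fun p => p.Prime ∧ 3 ≤ p ∧ p ∉ R),
      |∑ p ∈ (range T).filter (fun p => p.Prime ∧ 3 ≤ p ∧ p ∉ R), W p (fun l => (m l : ZMod p)) * Real.log p| ≤
        (T : ℝ) ^ (θ + δ)) → E m) →
    (exceptions b Ks r N f E : ℝ) ≤ 1 / (y : ℝ) ^ A * ∏ l, ((Ks l).choose (r l) : ℝ) := by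
  classical
  obtain ⟨c, hc, y₁, h⟩ := lawI ι b hb (δ / 2) (by positivity) A 1
  obtain ⟨C, hC⟩ : ∃ C : ℝ, C = K + p0 + Q + 1 := ⟨_, rfl⟩
  have hC1 : 1 ≤ C := by rw [hC]; have : (0 : ℝ) ≤ p0 := Nat.cast_nonneg _; linarith
  -- eventually `4 M C (1 + log k) ^ 2 ≤ k ^ (δ / 2)`
  have hev : ∀ᶠ k : ℕ in atTop, 4 * M * C * (1 + Real.log k) ^ 2 ≤ (k : ℝ) ^ (δ / 2) := by
    have h1 : (fun x : ℝ => 4 * M * C * (1 + Real.log x) ^ 2) =o[atTop] fun x : ℝ => x ^ (δ / 2) := by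
      apply Asymptotics.IsLittleO.const_mul_left
      have h2 : (fun x : ℝ => 1 + Real.log x) =o[atTop] fun x : ℝ => x ^ (δ / 4) := by
        apply Asymptotics.IsLittleO.add
        · have := (tendsto_rpow_atTop (y := δ / 4) (by positivity))
          exact Asymptotics.isLittleO_const_left.2 (Or.inr (tendsto_norm_atTop_atTop.comp this))
        · exact isLittleO_log_rpow_atTop (by positivity)
      have h3 := h2.pow (n := 2) (by norm_num)
      refine h3.congr' (EventuallyEq.refl _ _) ?_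
      filter_upwards [eventually_ge_atTop 0] with x hx
      rw [← Real.rpow_natCast (x ^ (δ / 4)) 2, ← Real.rpow_mul hx]
      congr 1
      push_cast
      ring
    have h2 := h1.bound (c := 1) one_pos
    have h3 := tendsto_natCast_atTop_atTop.eventually h2
    filter_upwards [h3] with k hk
    rw [one_mul, Real.norm_eq_abs, Real.norm_eq_abs, abs_of_nonneg (by positivity : (0 : ℝ) ≤ (k : ℝ) ^ (δ / 2))] at hk
    exact (le_abs_self _).trans hk
  obtain ⟨y₂, hy₂⟩ := eventually_atTop.1 hev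
  refine ⟨c, hc, y₁ + y₂ + 3, fun Ks r y hKs hy N hN f hf W B hW hW2 hW1 hB hBQ E hE => ?_⟩
  obtain ⟨Y, hY⟩ : ∃ Y : Bool × ℕ → ∀ p : ℕ, (ι → ZMod p) → ℝ, Y = fun k p c =>
    if k.1 then (if p.Prime ∧ 3 ≤ p ∧ p < k.2 then W p c * Real.log p / (M * (k.2 : ℝ) ^ θ * Real.log k.2) else 0) else B p c := ⟨_, rfl⟩
  have hden : ∀ k : ℕ, 3 ≤ k → 0 < M * (k : ℝ) ^ θ * Real.log k := by
    intro k hk
    have h1 : 0 < Real.log k := Real.log_pos (by exact_mod_cast (by omega : 1 < k))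
    have h2 : (0 : ℝ) < k := by exact_mod_cast (by omega : 0 < k)
    positivity
  have hrat : ∀ p k : ℕ, 3 ≤ p → p < k → 0 ≤ Real.log p ∧ Real.log p ≤ Real.log k ∧ (p : ℝ) ^ θ ≤ (k : ℝ) ^ θ := by
    intro p k hp hpk
    have hp0 : (0 : ℝ) < p := by exact_mod_cast (by omega : 0 < p)
    have hpk' : (p : ℝ) ≤ k := by exact_mod_cast hpk.le
    refine ⟨Real.log_nonneg (by exact_mod_cast (by omega : 1 ≤ p)), Real.log_le_log hp0 hpk', ?_⟩
    exact Real.rpow_le_rpow hp0.le hpk' hθ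
  have hY1 : ∀ k p c, |Y k p c| ≤ 1 := by
    intro k p c
    rw [hY]
    dsimp only
    split_ifs with h1 h2
    · obtain ⟨hp, hp3, hpk⟩ := h2
      have hd := hden k.2 (by omega)
      obtain ⟨l0, l1, l2⟩ := hrat p k.2 hp3 hpk
      rw [abs_div, abs_of_pos hd, div_le_one hd, abs_mul, abs_of_nonneg l0]
      have h3 := hW p hp hp3 c
      calc |W p c| * Real.log p ≤ (M * (p : ℝ) ^ θ) * Real.log p := mul_le_mul_of_nonneg_right h3 l0
        _ ≤ (M * (k.2 : ℝ) ^ θ) * Real.log k.2 := by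
            apply mul_le_mul _ l1 l0 (by positivity)
            exact mul_le_mul_of_nonneg_left l2 (by linarith)
    · simp
    · rcases hB p c with h2 | h2 <;> rw [h2] <;> simp
  refine h Ks r y hKs (by omega) N hN f hf (Bool × ℕ) (fun x => {(true, x), (false, x)}) ?_
    (fun x _ => (range x).filter (fun p => p.Prime ∧ 3 ≤ p)) ?_ Y hY1 E ?_
  · intro x hx
    rw [pow_one]
    exact (card_le_two).trans hx
  · intro x l p hp
    rw [mem_filter, mem_range] at hp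
    exact ⟨hp.2.1, hp.1.le⟩
  intro m hm
  refine hE m fun T hT2 hyT hTr R hR _ => ?_
  have hT3 : 3 ≤ T := by omega
  have hTp : (0 : ℝ) < T := by exact_mod_cast (by omega : 0 < T)
  have hlogT : 0 < Real.log T := Real.log_pos (by exact_mod_cast (by omega : 1 < T))
  obtain ⟨L, hL⟩ : ∃ L : ℝ, L = 1 + Real.log T := ⟨_, rfl⟩
  have hL1 : 1 ≤ L := by rw [hL]; linarith
  obtain ⟨S, hS⟩ : ∃ S, S = (range T).filter (fun p => p.Prime ∧ 3 ≤ p) := ⟨_, rfl⟩
  have hSm : ∀ p ∈ S, p.Prime ∧ 3 ≤ p ∧ p < T := by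
    intro p hp
    rw [hS, mem_filter, mem_range] at hp
    exact ⟨hp.2.1, hp.2.2, hp.1⟩
  have hinv : ∑ p ∈ S, (1 : ℝ) / p ≤ L := by
    rw [hL]
    exact sum_inv_le T hT2 S fun p hp => by have := hSm p hp; omega
  have ht := hm T hT2 hyT hTr (true, T) (by simp)
  have hf' := hm T hT2 hyT hTr (false, T) (by simp)
  rw [← hS] at ht hf'
  -- the local means
  have hA1 : ∀ p ∈ S, avg (fun p c => Y (true, T) p c ^ 2) p ≤ C * (1 / p) := by
    intro p hp
    obtain ⟨hpp, hp3, hpT⟩ := hSm p hp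
    haveI : Fact p.Prime := ⟨hpp⟩
    have hp0' : (0 : ℝ) < p := by exact_mod_cast hpp.pos
    rw [avg_eq]
    by_cases hlt : p < p0
    · have h1 := EM_abs p (fun c : ι → ZMod p => Y (true, T) p c ^ 2) (fun c => by
        rw [abs_of_nonneg (sq_nonneg _)]
        have := hY1 (true, T) p c
        rw [← sq_abs]
        have h0 := abs_nonneg (Y (true, T) p c)
        nlinarith)
      have h2 := (abs_le.1 h1).2
      refine h2.trans ?_
      rw [mul_one_div, le_div_iff₀ hp0', one_mul, hC]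
      have : (p : ℝ) ≤ p0 := by exact_mod_cast hlt.le
      linarith
    · have h1 := hW2 p (by omega)
      have hd := hden T hT3
      obtain ⟨l0, l1, l2⟩ := hrat p T hp3 hpT
      have h2 : (fun c : ι → ZMod p => Y (true, T) p c ^ 2) = fun c => (Real.log p / (M * (T : ℝ) ^ θ * Real.log T)) ^ 2 * W p c ^ 2 := by
        funext c
        rw [hY]
        dsimp only
        rw [if_pos rfl, if_pos ⟨hpp, hp3, hpT⟩]
        ring
      rw [h2, Pool.Agent.Y722.LS.EM_mul]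
      have h3 : (Real.log p / (M * (T : ℝ) ^ θ * Real.log T)) ^ 2 ≤ (1 / (p : ℝ) ^ θ) ^ 2 := by
        apply pow_le_pow_left₀ (by positivity)
        rw [div_le_div_iff₀ hd (by positivity)]
        have h4 : Real.log p * (p : ℝ) ^ θ ≤ Real.log T * (T : ℝ) ^ θ := mul_le_mul l1 l2 (by positivity) hlogT.le
        have h5 : Real.log T * (T : ℝ) ^ θ ≤ M * (Real.log T * (T : ℝ) ^ θ) := le_mul_of_one_le_left (by positivity) hM
        linarith
      have h6 : (1 / (p : ℝ) ^ θ) ^ 2 * (K * (p : ℝ) ^ (2 * θ - 1)) = K * (1 / p) := by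
        rw [Real.rpow_sub hp0', Real.rpow_one, mul_comm 2 θ, Real.rpow_mul hp0'.le]
        have : (p : ℝ) ^ θ ≠ 0 := by positivity
        norm_num
        field_simp
      calc (Real.log p / (M * (T : ℝ) ^ θ * Real.log T)) ^ 2 * EM p (fun c => W p c ^ 2)
          ≤ (1 / (p : ℝ) ^ θ) ^ 2 * (K * (p : ℝ) ^ (2 * θ - 1)) := by
            apply mul_le_mul h3 h1 _ (by positivity)
            exact Pool.Agent.Y722.LS.EM_nonneg p _ fun c => sq_nonneg _
        _ = K * (1 / p) := h6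
        _ ≤ C * (1 / p) := by
            apply mul_le_mul_of_nonneg_right _ (by positivity)
            rw [hC]
            have : (0 : ℝ) ≤ p0 := Nat.cast_nonneg _
            linarith
  have hA2 : ∀ p ∈ S, |avg (Y (true, T)) p| ≤ C * (1 / p) := by
    intro p hp
    obtain ⟨hpp, hp3, hpT⟩ := hSm p hp
    haveI : Fact p.Prime := ⟨hpp⟩
    have hp0' : (0 : ℝ) < p := by exact_mod_cast hpp.pos
    rw [avg_eq]
    by_cases hlt : p < p0
    · have h1 := EM_abs p (fun c : ι → ZMod p => Y (true, T) p c) (fun c => hY1 (true, T) p c)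
      refine h1.trans ?_
      rw [mul_one_div, le_div_iff₀ hp0', one_mul, hC]
      have : (p : ℝ) ≤ p0 := by exact_mod_cast hlt.le
      linarith
    · have h1 := hW1 p (by omega)
      have hd := hden T hT3
      obtain ⟨l0, l1, l2⟩ := hrat p T hp3 hpT
      have h2 : (fun c : ι → ZMod p => Y (true, T) p c) = fun c => (Real.log p / (M * (T : ℝ) ^ θ * Real.log T)) * W p c := by
        funext c
        rw [hY]
        dsimp only
        rw [if_pos rfl, if_pos ⟨hpp, hp3, hpT⟩]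
        ring
      rw [h2, Pool.Agent.Y722.LS.EM_mul, abs_mul, abs_of_nonneg (by positivity : 0 ≤ Real.log p / (M * (T : ℝ) ^ θ * Real.log T))]
      have h3 : Real.log p / (M * (T : ℝ) ^ θ * Real.log T) ≤ 1 / (p : ℝ) ^ θ := by
        rw [div_le_div_iff₀ hd (by positivity)]
        have h4 : Real.log p * (p : ℝ) ^ θ ≤ Real.log T * (T : ℝ) ^ θ := mul_le_mul l1 l2 (by positivity) hlogT.le
        have h5 : Real.log T * (T : ℝ) ^ θ ≤ M * (Real.log T * (T : ℝ) ^ θ) := le_mul_of_one_le_left (by positivity) hM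
        linarith
      have h6 : (1 / (p : ℝ) ^ θ) * (K * (p : ℝ) ^ (θ - 1)) = K * (1 / p) := by
        rw [Real.rpow_sub hp0', Real.rpow_one]
        have : (p : ℝ) ^ θ ≠ 0 := by positivity
        field_simp
      have h7 : EM p (fun c => W p c) = EM p (W p) := rfl
      rw [h7]
      calc (Real.log p / (M * (T : ℝ) ^ θ * Real.log T)) * |EM p (W p)|
          ≤ (1 / (p : ℝ) ^ θ) * (K * (p : ℝ) ^ (θ - 1)) := mul_le_mul h3 h1 (abs_nonneg _) (by positivity)
        _ = K * (1 / p) := h6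
        _ ≤ C * (1 / p) := by
            apply mul_le_mul_of_nonneg_right _ (by positivity)
            rw [hC]
            have : (0 : ℝ) ≤ p0 := Nat.cast_nonneg _
            linarith
  have hYB : ∀ p c, Y (false, T) p c = B p c := by
    intro p c
    rw [hY]
    simp
  have hA3 : ∀ p ∈ S, avg (Y (false, T)) p ≤ C * (1 / p) ∧ avg (fun p c => Y (false, T) p c ^ 2) p ≤ C * (1 / p) := by
    intro p hp
    obtain ⟨hpp, hp3, hpT⟩ := hSm p hp
    haveI : Fact p.Prime := ⟨hpp⟩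
    have hp0' : (0 : ℝ) < p := by exact_mod_cast hpp.pos
    have h1 : EM p (B p) ≤ C * (1 / p) := by
      refine (hBQ p).trans ?_
      rw [mul_one_div]
      apply div_le_div_of_nonneg_right _ hp0'.le
      rw [hC]
      have : (0 : ℝ) ≤ p0 := Nat.cast_nonneg _
      linarith
    rw [avg_eq, avg_eq]
    constructor
    · have : (fun c : ι → ZMod p => Y (false, T) p c) = B p := by
        funext c
        exact hYB p c
      rw [this]
      exact h1
    · have : (fun c : ι → ZMod p => Y (false, T) p c ^ 2) = B p := by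
        funext c
        rw [hYB]
        rcases hB p c with h2 | h2 <;> rw [h2] <;> norm_num
      rw [this]
      exact h1
  have hCL : 1 ≤ C * L := by nlinarith
  have hsum : ∀ g : ℕ → ℝ, (∀ p ∈ S, g p ≤ C * (1 / p)) → ∑ p ∈ S, g p ≤ C * L := by
    intro g hg
    refine (sum_le_sum hg).trans ?_
    rw [← mul_sum]
    exact mul_le_mul_of_nonneg_left hinv (by linarith)
  have hsq : ∀ V : ℝ, V ≤ C * L → Real.sqrt (max 1 V) ≤ C * L := by
    intro V hV
    rw [Real.sqrt_le_left (by linarith)]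
    have : max 1 V ≤ C * L := max_le hCL hV
    nlinarith
  have hTδ : 1 ≤ (T : ℝ) ^ (δ / 2) := Real.one_le_rpow (by exact_mod_cast (by omega : 1 ≤ T)) (by positivity)
  have hd := hden T hT3
  have h1 : |∑ p ∈ S, at_ (Y (true, T)) p m| ≤ 2 * (C * L * (T : ℝ) ^ (δ / 2)) := by
    have h2 := hsq _ (hsum _ hA1)
    have h3 : |∑ p ∈ S, avg (Y (true, T)) p| ≤ C * L := (abs_sum_le_sum_abs _ _).trans (hsum _ hA2)
    have h4 : C * L ≤ C * L * (T : ℝ) ^ (δ / 2) := le_mul_of_one_le_right (by linarith) hTδ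
    have h5 : |∑ p ∈ S, at_ (Y (true, T)) p m - ∑ p ∈ S, avg (Y (true, T)) p| ≤ C * L * (T : ℝ) ^ (δ / 2) :=
      ht.trans (mul_le_mul_of_nonneg_right h2 (by positivity))
    have h6 : |∑ p ∈ S, at_ (Y (true, T)) p m| ≤ |∑ p ∈ S, at_ (Y (true, T)) p m - ∑ p ∈ S, avg (Y (true, T)) p| +
        |∑ p ∈ S, avg (Y (true, T)) p| := by
      have := abs_add_le (∑ p ∈ S, at_ (Y (true, T)) p m - ∑ p ∈ S, avg (Y (true, T)) p) (∑ p ∈ S, avg (Y (true, T)) p)
      rwa [sub_add_cancel] at this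
    linarith
  have h2 : ∑ p ∈ S, at_ (Y (false, T)) p m ≤ 2 * (C * L * (T : ℝ) ^ (δ / 2)) := by
    have h2 := hsq _ (hsum _ fun p hp => (hA3 p hp).2)
    have h3 : ∑ p ∈ S, avg (Y (false, T)) p ≤ C * L := hsum _ fun p hp => (hA3 p hp).1
    have h4 : C * L ≤ C * L * (T : ℝ) ^ (δ / 2) := le_mul_of_one_le_right (by linarith) hTδ
    have h5 : |∑ p ∈ S, at_ (Y (false, T)) p m - ∑ p ∈ S, avg (Y (false, T)) p| ≤ C * L * (T : ℝ) ^ (δ / 2) :=
      hf'.trans (mul_le_mul_of_nonneg_right h2 (by positivity))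
    have h6 := (abs_le.1 h5).2
    linarith
  -- the two sums
  have h3 : ∑ p ∈ (range T).filter (fun p => p.Prime ∧ 3 ≤ p ∧ p ∉ R), W p (fun l => (m l : ZMod p)) * Real.log p =
      ∑ p ∈ S, W p (fun l => (m l : ZMod p)) * Real.log p - ∑ p ∈ S.filter (fun p => p ∈ R), W p (fun l => (m l : ZMod p)) * Real.log p := by
    rw [eq_sub_iff_add_eq, ← sum_filter_add_sum_filter_not S (fun p => p ∈ R), add_comm]
    congr 1
    apply sum_congr _ (fun _ _ => rfl)
    ext p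
    rw [hS]
    simp only [mem_filter, mem_range]
    tauto
  have h4 : ∑ p ∈ S, W p (fun l => (m l : ZMod p)) * Real.log p = (M * (T : ℝ) ^ θ * Real.log T) * ∑ p ∈ S, at_ (Y (true, T)) p m := by
    rw [mul_sum]
    refine sum_congr rfl fun p hp => ?_
    obtain ⟨hpp, hp3, hpT⟩ := hSm p hp
    unfold at_
    rw [hY]
    dsimp only
    rw [if_pos rfl, if_pos ⟨hpp, hp3, hpT⟩]
    field_simp
  have h5 : |∑ p ∈ S.filter (fun p => p ∈ R), W p (fun l => (m l : ZMod p)) * Real.log p| ≤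
      (M * (T : ℝ) ^ θ * Real.log T) * ∑ p ∈ S, at_ (Y (false, T)) p m := by
    refine (abs_sum_le_sum_abs _ _).trans ?_
    have h6 : ∀ p ∈ S.filter (fun p => p ∈ R), |W p (fun l => (m l : ZMod p)) * Real.log p| ≤
        (M * (T : ℝ) ^ θ * Real.log T) * at_ (Y (false, T)) p m := by
      intro p hp
      rw [mem_filter] at hp
      obtain ⟨hpp, hp3, hpT⟩ := hSm p hp.1
      obtain ⟨l0, l1, l2⟩ := hrat p T hp3 hpT
      have h7 : at_ (Y (false, T)) p m = 1 := by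
        unfold at_
        rw [hYB]
        exact hR p hp.2 hpp hp3
      rw [h7, mul_one, abs_mul, abs_of_nonneg l0]
      calc |W p (fun l => (m l : ZMod p))| * Real.log p ≤ (M * (p : ℝ) ^ θ) * Real.log p :=
            mul_le_mul_of_nonneg_right (hW p hpp hp3 _) l0
        _ ≤ (M * (T : ℝ) ^ θ) * Real.log T := by
            apply mul_le_mul _ l1 l0 (by positivity)
            exact mul_le_mul_of_nonneg_left l2 (by linarith)
    refine (sum_le_sum h6).trans ?_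
    rw [← mul_sum]
    apply mul_le_mul_of_nonneg_left _ hd.le
    apply sum_le_sum_of_subset_of_nonneg (filter_subset _ _)
    intro p _ _
    unfold at_
    rw [hYB]
    rcases hB p (fun l => (m l : ZMod p)) with h7 | h7 <;> rw [h7]
    norm_num
  have h6 : |∑ p ∈ (range T).filter (fun p => p.Prime ∧ 3 ≤ p ∧ p ∉ R), W p (fun l => (m l : ZMod p)) * Real.log p| ≤
      (M * (T : ℝ) ^ θ * Real.log T) * (4 * (C * L * (T : ℝ) ^ (δ / 2))) := by
    rw [h3]
    have h7 := abs_sub (∑ p ∈ S, W p (fun l => (m l : ZMod p)) * Real.log p) (∑ p ∈ S.filter (fun p => p ∈ R), W p (fun l => (m l : ZMod p)) * Real.log p)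
    have h8 : |∑ p ∈ S, W p (fun l => (m l : ZMod p)) * Real.log p| ≤ (M * (T : ℝ) ^ θ * Real.log T) * (2 * (C * L * (T : ℝ) ^ (δ / 2))) := by
      rw [h4, abs_mul, abs_of_pos hd]
      exact mul_le_mul_of_nonneg_left h1 hd.le
    have h9 := h5.trans (mul_le_mul_of_nonneg_left h2 hd.le)
    linarith
  refine h6.trans ?_
  have h7 := hy₂ T (by omega)
  rw [← hL] at h7
  have h8 : (M * (T : ℝ) ^ θ * Real.log T) * (4 * (C * L * (T : ℝ) ^ (δ / 2))) ≤ (4 * M * C * L ^ 2) * ((T : ℝ) ^ θ * (T : ℝ) ^ (δ / 2)) := by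
    have h9 : Real.log T ≤ L := by rw [hL]; linarith
    have h10 : (M * (T : ℝ) ^ θ * Real.log T) * (4 * (C * L * (T : ℝ) ^ (δ / 2))) =
        (4 * M * C * L * ((T : ℝ) ^ θ * (T : ℝ) ^ (δ / 2))) * Real.log T := by ring
    have h11 : (4 * M * C * L ^ 2) * ((T : ℝ) ^ θ * (T : ℝ) ^ (δ / 2)) = (4 * M * C * L * ((T : ℝ) ^ θ * (T : ℝ) ^ (δ / 2))) * L := by ring
    rw [h10, h11]
    exact mul_le_mul_of_nonneg_left h9 (by positivity)
  refine h8.trans ((mul_le_mul_of_nonneg_right h7 (by positivity)).trans (le_of_eq ?_))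
  rw [← Real.rpow_add hTp, ← Real.rpow_add hTp]
  congr 1
  ring

end Pool.Agent.V11210.NF
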