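import Mathlib

/-!
# Partial summation for Dirichlet series
-/

set_option autoImplicit false

namespace Pool.Agent.V11210.NF

open Finset Filter

lemma cpow_diff (n : ℕ) (hn : 1 ≤ n) (s : ℂ) (hs : -1 ≤ s.re) :
    ‖((n + 1 : ℕ) : ℂ) ^ (-s) - (n : ℂ) ^ (-s)‖ ≤ ‖s‖ * (n : ℝ) ^ (-s.re - 1) := by
  have hn0 : (0 : ℝ) < n := by exact_mod_cast hn
  have hder : ∀ x ∈ Set.Icc (n : ℝ) ((n + 1 : ℕ) : ℝ), HasDerivWithinAt (fun u : ℝ => (u : ℂ) ^ (-s)) (-s * (x : ℂ) ^ (-s - 1))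
      (Set.Icc (n : ℝ) ((n + 1 : ℕ) : ℝ)) x := by
    intro x hx
    have hx0 : 0 < x := lt_of_lt_of_le hn0 hx.1
    have h1 : HasDerivAt (fun z : ℂ => z ^ (-s)) (-s * (x : ℂ) ^ (-s - 1) * 1) (x : ℂ) :=
      (hasDerivAt_id (x : ℂ)).cpow_const (by
        rw [Complex.mem_slitPlane_iff]
        left
        simpa using hx0)
    rw [mul_one] at h1
    exact h1.comp_ofReal.hasDerivWithinAt
  have hbd : ∀ x ∈ Set.Icc (n : ℝ) ((n + 1 : ℕ) : ℝ), ‖-s * (x : ℂ) ^ (-s - 1)‖ ≤ ‖s‖ * (n : ℝ) ^ (-s.re - 1) := by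
    intro x hx
    have hx0 : 0 < x := lt_of_lt_of_le hn0 hx.1
    rw [norm_mul, norm_neg, Complex.norm_cpow_eq_rpow_re_of_pos hx0]
    apply mul_le_mul_of_nonneg_left _ (norm_nonneg _)
    have h1 : (-s - 1).re = -s.re - 1 := by simp
    rw [h1]
    exact Real.rpow_le_rpow_of_nonpos hn0 hx.1 (by linarith)
  have h := Convex.norm_image_sub_le_of_norm_hasDerivWithin_le hder hbd (convex_Icc _ _)
    (Set.left_mem_Icc.2 (by push_cast; linarith)) (Set.right_mem_Icc.2 (by push_cast; linarith))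
  have h2 : ‖((n + 1 : ℕ) : ℝ) - (n : ℝ)‖ = 1 := by
    push_cast
    rw [add_sub_cancel_left, norm_one]
  rw [h2, mul_one] at h
  have e1 : (((n + 1 : ℕ) : ℝ) : ℂ) = ((n + 1 : ℕ) : ℂ) := by push_cast; rfl
  have e2 : (((n : ℕ) : ℝ) : ℂ) = ((n : ℕ) : ℂ) := by push_cast; rfl
  rw [e1, e2] at h
  exact h

lemma tel (n : ℕ) (hn : 1 ≤ n) (δ : ℝ) (hδ : 0 < δ) : δ * ((n + 1 : ℕ) : ℝ) ^ (-δ - 1) ≤ (n : ℝ) ^ (-δ) - ((n + 1 : ℕ) : ℝ) ^ (-δ) := by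
  have hn0 : (0 : ℝ) < n := by exact_mod_cast hn
  have hn1 : (0 : ℝ) < ((n + 1 : ℕ) : ℝ) := by positivity
  have h1 : (n : ℝ) ^ (-δ) = ((n + 1 : ℕ) : ℝ) ^ (-δ) * Real.exp (-δ * Real.log (n / ((n + 1 : ℕ) : ℝ))) := by
    rw [Real.log_div hn0.ne' hn1.ne', Real.rpow_def_of_pos hn0, Real.rpow_def_of_pos hn1, ← Real.exp_add]
    congr 1
    ring
  have h2 : Real.log (n / ((n + 1 : ℕ) : ℝ)) ≤ -(1 / ((n + 1 : ℕ) : ℝ)) := by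
    have h3 := Real.log_le_sub_one_of_pos (show 0 < n / ((n + 1 : ℕ) : ℝ) by positivity)
    refine h3.trans (le_of_eq ?_)
    field_simp
    push_cast
    ring
  have h3 : 1 + δ * (1 / ((n + 1 : ℕ) : ℝ)) ≤ Real.exp (-δ * Real.log (n / ((n + 1 : ℕ) : ℝ))) := by
    have h4 := Real.add_one_le_exp (-δ * Real.log (n / ((n + 1 : ℕ) : ℝ)))
    nlinarith
  have h5 : ((n + 1 : ℕ) : ℝ) ^ (-δ - 1) = ((n + 1 : ℕ) : ℝ) ^ (-δ) * (1 / ((n + 1 : ℕ) : ℝ)) := by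
    rw [Real.rpow_sub hn1, Real.rpow_one]
    ring
  rw [h1, h5]
  have h6 : 0 < ((n + 1 : ℕ) : ℝ) ^ (-δ) := by positivity
  nlinarith

lemma tail_sum (T₁ T₂ : ℕ) (hT : 1 ≤ T₁) (h12 : T₁ ≤ T₂) (δ : ℝ) (hδ : 0 < δ) :
    ∑ n ∈ Ico T₁ T₂, (n : ℝ) ^ (-δ - 1) ≤ (1 + 1 / δ) * (T₁ : ℝ) ^ (-δ) := by
  have hT0 : (0 : ℝ) < T₁ := by exact_mod_cast hT
  have key : ∀ k : ℕ, ∑ n ∈ Ico (T₁ + 1) (T₁ + 1 + k), (n : ℝ) ^ (-δ - 1) ≤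
      (1 / δ) * ((T₁ : ℝ) ^ (-δ) - ((T₁ + k : ℕ) : ℝ) ^ (-δ)) := by
    intro k
    induction k with
    | zero => simp
    | succ k ih =>
      rw [← add_assoc, sum_Ico_succ_top (by omega)]
      have h1 := tel (T₁ + k) (by omega) δ hδ
      have h2 : (T₁ + 1 + k : ℕ) = (T₁ + k + 1 : ℕ) := by ring
      have h3 : (T₁ + (k + 1) : ℕ) = (T₁ + k + 1 : ℕ) := by ring
      rw [h2]
      rw [h2] at ih
      rw [h3]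
      have h4 : ((T₁ + k + 1 : ℕ) : ℝ) ^ (-δ - 1) ≤ (1 / δ) * (((T₁ + k : ℕ) : ℝ) ^ (-δ) - ((T₁ + k + 1 : ℕ) : ℝ) ^ (-δ)) := by
        rw [one_div, inv_mul_eq_div, le_div_iff₀ hδ, mul_comm]
        exact h1
      calc _ ≤ (1 / δ) * ((T₁ : ℝ) ^ (-δ) - ((T₁ + k : ℕ) : ℝ) ^ (-δ)) + (1 / δ) * (((T₁ + k : ℕ) : ℝ) ^ (-δ) - ((T₁ + k + 1 : ℕ) : ℝ) ^ (-δ)) :=
            add_le_add ih h4
        _ = _ := by ring
  rcases h12.eq_or_lt with h | h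
  · rw [h, Ico_self, sum_empty]
    have : 0 < 1 + 1 / δ := by positivity
    positivity
  · obtain ⟨k, hk⟩ : ∃ k, T₂ = T₁ + 1 + k := ⟨T₂ - (T₁ + 1), by omega⟩
    rw [hk, ← sum_Ico_consecutive _ (by omega : T₁ ≤ T₁ + 1) (by omega : T₁ + 1 ≤ T₁ + 1 + k), Nat.Ico_succ_singleton, sum_singleton]
    have h1 := key k
    have h2 : 0 ≤ (1 / δ) * ((T₁ + k : ℕ) : ℝ) ^ (-δ) := by positivity
    have h3 : (T₁ : ℝ) ^ (-δ - 1) ≤ (T₁ : ℝ) ^ (-δ) :=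
      Real.rpow_le_rpow_of_exponent_le (by exact_mod_cast hT) (by linarith)
    have h4 : (1 + 1 / δ) * (T₁ : ℝ) ^ (-δ) = (T₁ : ℝ) ^ (-δ) + (1 / δ) * (T₁ : ℝ) ^ (-δ) := by ring
    rw [h4]
    have h5 : (1 / δ) * ((T₁ : ℝ) ^ (-δ) - ((T₁ + k : ℕ) : ℝ) ^ (-δ)) = (1 / δ) * (T₁ : ℝ) ^ (-δ) - (1 / δ) * ((T₁ + k : ℕ) : ℝ) ^ (-δ) := by ring
    rw [h5] at h1
    linarith

lemma parts (a : ℕ → ℝ) (s : ℂ) (T₁ T₂ : ℕ) (h12 : T₁ ≤ T₂) :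
    ∑ n ∈ Ico T₁ T₂, (a n : ℂ) * (n : ℂ) ^ (-s) = ((∑ n ∈ range T₂, a n : ℝ) : ℂ) * (T₂ : ℂ) ^ (-s) -
      ((∑ n ∈ range T₁, a n : ℝ) : ℂ) * (T₁ : ℂ) ^ (-s) -
      ∑ n ∈ Ico T₁ T₂, ((∑ k ∈ range (n + 1), a k : ℝ) : ℂ) * (((n + 1 : ℕ) : ℂ) ^ (-s) - (n : ℂ) ^ (-s)) := by
  induction T₂, h12 using Nat.le_induction with
  | base => simp
  | succ T hT ih =>
    rw [sum_Ico_succ_top hT, sum_Ico_succ_top hT, ih, sum_range_succ a T]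
    push_cast
    ring

/-- **Partial summation.** -/
theorem dirichlet_bound (a : ℕ → ℝ) (α δ : ℝ) (hα : 0 ≤ α) (hα1 : α ≤ 1) (hδ : 0 < δ) (hδ1 : δ ≤ 1) (T₁ T₂ : ℕ) (hT : 1 ≤ T₁)
    (h12 : T₁ ≤ T₂) (h : ∀ T : ℕ, T₁ ≤ T → T ≤ T₂ → |∑ n ∈ range T, a n| ≤ (T : ℝ) ^ α) (s : ℂ) (hs : α + δ ≤ s.re) :
    ‖∑ n ∈ Ico T₁ T₂, (a n : ℂ) * (n : ℂ) ^ (-s)‖ ≤ (2 + 4 * ‖s‖ / δ) * (T₁ : ℝ) ^ (-δ) := by
  have hT0 : (0 : ℝ) < T₁ := by exact_mod_cast hT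
  have hend : ∀ T : ℕ, T₁ ≤ T → T ≤ T₂ → ‖((∑ n ∈ range T, a n : ℝ) : ℂ) * (T : ℂ) ^ (-s)‖ ≤ (T₁ : ℝ) ^ (-δ) := by
    intro T h1 h2
    have hTp : (0 : ℝ) < T := lt_of_lt_of_le hT0 (by exact_mod_cast h1)
    have hTp1 : (1 : ℝ) ≤ T := by exact_mod_cast (by omega : 1 ≤ T)
    rw [norm_mul, Complex.norm_real, Real.norm_eq_abs]
    have e : ‖(T : ℂ) ^ (-s)‖ = (T : ℝ) ^ (-s.re) := by
      have := Complex.norm_cpow_eq_rpow_re_of_pos hTp (-s)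
      rw [Complex.neg_re] at this
      exact_mod_cast this
    rw [e]
    calc |∑ n ∈ range T, a n| * (T : ℝ) ^ (-s.re) ≤ (T : ℝ) ^ α * (T : ℝ) ^ (-s.re) := mul_le_mul_of_nonneg_right (h T h1 h2) (by positivity)
      _ = (T : ℝ) ^ (α - s.re) := by rw [← Real.rpow_add hTp]; rfl
      _ ≤ (T : ℝ) ^ (-δ) := Real.rpow_le_rpow_of_exponent_le hTp1 (by linarith)
      _ ≤ (T₁ : ℝ) ^ (-δ) := Real.rpow_le_rpow_of_nonpos hT0 (by exact_mod_cast h1) (by linarith)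
  have hmid : ∀ n ∈ Ico T₁ T₂, ‖((∑ k ∈ range (n + 1), a k : ℝ) : ℂ) * (((n + 1 : ℕ) : ℂ) ^ (-s) - (n : ℂ) ^ (-s))‖ ≤
      2 * ‖s‖ * (n : ℝ) ^ (-δ - 1) := by
    intro n hn
    rw [mem_Ico] at hn
    have hn0 : (0 : ℝ) < n := by exact_mod_cast (by omega : 0 < n)
    have hn1 : (1 : ℝ) ≤ n := by exact_mod_cast (by omega : 1 ≤ n)
    rw [norm_mul, Complex.norm_real, Real.norm_eq_abs]
    have h1 := h (n + 1) (by omega) (by omega)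
    have h2 := cpow_diff n (by omega) s (by linarith)
    have h3 : ((n + 1 : ℕ) : ℝ) ^ α ≤ 2 * (n : ℝ) ^ α := by
      have h4 : ((n + 1 : ℕ) : ℝ) ≤ 2 * n := by push_cast; linarith
      calc ((n + 1 : ℕ) : ℝ) ^ α ≤ (2 * (n : ℝ)) ^ α := Real.rpow_le_rpow (by positivity) h4 hα
        _ = (2 : ℝ) ^ α * (n : ℝ) ^ α := Real.mul_rpow (by norm_num) hn0.le
        _ ≤ 2 * (n : ℝ) ^ α := by
            apply mul_le_mul_of_nonneg_right _ (by positivity)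
            calc (2 : ℝ) ^ α ≤ (2 : ℝ) ^ (1 : ℝ) := Real.rpow_le_rpow_of_exponent_le (by norm_num) hα1
              _ = 2 := Real.rpow_one 2
    have h5 : (n : ℝ) ^ (-s.re - 1) ≤ (n : ℝ) ^ (-(α + δ) - 1) := Real.rpow_le_rpow_of_exponent_le hn1 (by linarith)
    calc |∑ k ∈ range (n + 1), a k| * ‖((n + 1 : ℕ) : ℂ) ^ (-s) - (n : ℂ) ^ (-s)‖
        ≤ (2 * (n : ℝ) ^ α) * (‖s‖ * (n : ℝ) ^ (-(α + δ) - 1)) := by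
          apply mul_le_mul (h1.trans h3) (h2.trans (mul_le_mul_of_nonneg_left h5 (norm_nonneg _))) (norm_nonneg _) (by positivity)
      _ = 2 * ‖s‖ * ((n : ℝ) ^ α * (n : ℝ) ^ (-(α + δ) - 1)) := by ring
      _ = 2 * ‖s‖ * (n : ℝ) ^ (-δ - 1) := by
          rw [← Real.rpow_add hn0]
          congr 2
          ring
  rw [parts a s T₁ T₂ h12]
  refine (norm_sub_le _ _).trans ?_
  have h1 := (norm_sub_le (((∑ n ∈ range T₂, a n : ℝ) : ℂ) * (T₂ : ℂ) ^ (-s)) (((∑ n ∈ range T₁, a n : ℝ) : ℂ) * (T₁ : ℂ) ^ (-s))).trans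
    (add_le_add (hend T₂ h12 le_rfl) (hend T₁ le_rfl h12))
  have h2 := (norm_sum_le _ _).trans (sum_le_sum hmid)
  rw [← mul_sum] at h2
  have h3 := h2.trans (mul_le_mul_of_nonneg_left (tail_sum T₁ T₂ hT h12 δ hδ) (by positivity))
  have h4 : 2 * ‖s‖ * ((1 + 1 / δ) * (T₁ : ℝ) ^ (-δ)) ≤ (4 * ‖s‖ / δ) * (T₁ : ℝ) ^ (-δ) := by
    have h5 : 1 ≤ 1 / δ := by rw [le_div_iff₀ hδ]; linarith
    have h6 : 2 * ‖s‖ * ((1 + 1 / δ) * (T₁ : ℝ) ^ (-δ)) = (2 * ‖s‖ * (T₁ : ℝ) ^ (-δ)) * (1 + 1 / δ) := by ring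
    have h7 : (4 * ‖s‖ / δ) * (T₁ : ℝ) ^ (-δ) = (2 * ‖s‖ * (T₁ : ℝ) ^ (-δ)) * (1 / δ + 1 / δ) := by ring
    rw [h6, h7]
    exact mul_le_mul_of_nonneg_left (by linarith) (by positivity)
  rw [add_mul]
  linarith

end Pool.Agent.V11210.NF
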