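import Pool.Agent.V11210.NF.Fam

/-!
# Families of fibrations with prescribed sections
-/

set_option autoImplicit false

namespace Pool.Agent.V11210.NF

open Finset Filter MvPolynomial
open Pool.Agent.Y57.FD (digit change)
open Pool.Agent.Y722.HS (EM EM_mono EM_const)
open Pool.Agent.Y722.PC (BZ EM_BZ)
open Pool.Agent.Y722.ST

variable {m r D e : ℕ}

/-- The index set of the monomials `x^a t^α`, `a < D - r`, `α_j ≤ e`. -/
abbrev Mo (m r D e : ℕ) : Type := Fin (D - r) × (Fin (m + 1) → Fin (e + 1))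

/-- `(x - β_1(t)) ⋯ (x - β_r(t))`. -/
noncomputable def sect (β : Fin r → MvPolynomial (Fin (m + 1)) ℤ) : MvPolynomial (Fin (m + 1 + 1)) ℤ :=
  ∏ j, (X 0 - rename Fin.succ (β j))

/-- The monomial `x^a t^α`. -/
noncomputable def mono (i : Mo m r D e) : MvPolynomial (Fin (m + 1 + 1)) ℤ :=
  X 0 ^ (i.1 : ℕ) * ∏ j, X (Fin.succ j) ^ (i.2 j : ℕ)

noncomputable def base0 (D : ℕ) (β : Fin r → MvPolynomial (Fin (m + 1)) ℤ) (S : MvPolynomial (Fin (m + 1 + 1)) ℤ) :
    MvPolynomial (Fin (m + 1 + 1)) ℤ := sect β * X 0 ^ (D - r) + S ^ 2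

noncomputable def dir (D e : ℕ) (β : Fin r → MvPolynomial (Fin (m + 1)) ℤ) (i : Mo m r D e) : MvPolynomial (Fin (m + 1 + 1)) ℤ :=
  sect β * mono i

lemma fse_rename {n : ℕ} (φ : MvPolynomial (Fin n) ℤ) : finSuccEquiv ℤ n (rename Fin.succ φ) = Polynomial.C φ := by
  induction φ using MvPolynomial.induction_on with
  | C a =>
    rw [rename_C, finSuccEquiv_apply]
    simp
  | add p q hp hq => rw [map_add, map_add, hp, hq, map_add]
  | mul_X p i hp => rw [map_mul, map_mul, hp, rename_X, finSuccEquiv_X_succ, map_mul]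

lemma fse_sect (β : Fin r → MvPolynomial (Fin (m + 1)) ℤ) :
    finSuccEquiv ℤ (m + 1) (sect β) = ∏ j, (Polynomial.X - Polynomial.C (β j)) := by
  unfold sect
  rw [map_prod]
  refine prod_congr rfl fun j _ => ?_
  rw [map_sub, finSuccEquiv_X_zero, fse_rename]

lemma sect_monic (β : Fin r → MvPolynomial (Fin (m + 1)) ℤ) : (finSuccEquiv ℤ (m + 1) (sect β)).Monic := by
  rw [fse_sect]
  exact Polynomial.monic_prod_of_monic _ _ fun j _ => Polynomial.monic_X_sub_C _

lemma sect_natDegree (β : Fin r → MvPolynomial (Fin (m + 1)) ℤ) : (finSuccEquiv ℤ (m + 1) (sect β)).natDegree = r := by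
  rw [fse_sect, Polynomial.natDegree_prod_of_monic _ _ fun j _ => Polynomial.monic_X_sub_C _]
  simp

lemma monic_base0 (hrD : r ≤ D) (β : Fin r → MvPolynomial (Fin (m + 1)) ℤ) (S : MvPolynomial (Fin (m + 1 + 1)) ℤ)
    (hS : 2 * degreeOf 0 S < D) : MonicIn D (base0 D β S) := by
  have h1 : (finSuccEquiv ℤ (m + 1) (sect β * X 0 ^ (D - r))).Monic := by
    rw [map_mul, map_pow, finSuccEquiv_X_zero]
    exact (sect_monic β).mul (Polynomial.monic_X_pow _)
  have h2 : (finSuccEquiv ℤ (m + 1) (sect β * X 0 ^ (D - r))).natDegree = D := by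
    rw [map_mul, map_pow, finSuccEquiv_X_zero, (sect_monic β).natDegree_mul (Polynomial.monic_X_pow _), sect_natDegree,
      Polynomial.natDegree_X_pow]
    omega
  have h3 : (finSuccEquiv ℤ (m + 1) (S ^ 2)).degree < (finSuccEquiv ℤ (m + 1) (sect β * X 0 ^ (D - r))).degree := by
    rw [Polynomial.degree_eq_natDegree h1.ne_zero, h2]
    refine lt_of_le_of_lt Polynomial.degree_le_natDegree ?_
    rw [map_pow, Polynomial.natDegree_pow, natDegree_finSuccEquiv]
    exact_mod_cast hS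
  unfold base0
  constructor
  · rw [map_add]
    exact h1.add_of_left h3
  · rw [map_add, Polynomial.natDegree_add_eq_left_of_degree_lt h3, h2]

lemma low_dir (β : Fin r → MvPolynomial (Fin (m + 1)) ℤ) (i : Mo m r D e) : LowIn D (dir D e β i) := by
  unfold LowIn dir mono
  have h1 : finSuccEquiv ℤ (m + 1) (sect β * (X 0 ^ (i.1 : ℕ) * ∏ j, X (Fin.succ j) ^ (i.2 j : ℕ))) =
      finSuccEquiv ℤ (m + 1) (sect β) * (Polynomial.X ^ (i.1 : ℕ) * Polynomial.C (∏ j, X j ^ (i.2 j : ℕ))) := by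
    rw [map_mul, map_mul, map_pow, finSuccEquiv_X_zero, map_prod]
    congr 2
    rw [map_prod]
    refine prod_congr rfl fun j _ => ?_
    rw [map_pow, finSuccEquiv_X_succ, map_pow]
  rw [h1]
  refine lt_of_le_of_lt Polynomial.degree_le_natDegree ?_
  have h2 : (finSuccEquiv ℤ (m + 1) (sect β) * (Polynomial.X ^ (i.1 : ℕ) * Polynomial.C (∏ j, X j ^ (i.2 j : ℕ)))).natDegree ≤ r + (i.1 : ℕ) := by
    refine Polynomial.natDegree_mul_le.trans ?_
    rw [sect_natDegree]
    refine Nat.add_le_add_left (Polynomial.natDegree_mul_le.trans ?_) _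
    rw [Polynomial.natDegree_C, add_zero, Polynomial.natDegree_X_pow]
  have h3 : (i.1 : ℕ) < D - r := i.1.2
  exact_mod_cast (lt_of_le_of_lt h2 (by omega) : _ < D)

lemma aeval_sect {p : ℕ} (β : Fin r → MvPolynomial (Fin (m + 1)) ℤ) (x : ZMod p) (t : Fin (m + 1) → ZMod p) :
    aeval (Fin.cons x t : Fin (m + 1 + 1) → ZMod p) (sect β) = ∏ j, (x - aeval t (β j)) := by
  unfold sect
  rw [map_prod]
  refine prod_congr rfl fun j _ => ?_
  rw [map_sub, aeval_X, aeval_rename]
  congr 1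

lemma aeval_dir {p : ℕ} (β : Fin r → MvPolynomial (Fin (m + 1)) ℤ) (P : Fin (m + 1 + 1) → ZMod p) (i : Mo m r D e) :
    aeval P (dir D e β i) = aeval P (sect β) * (P 0 ^ (i.1 : ℕ) * ∏ j, P (Fin.succ j) ^ (i.2 j : ℕ)) := by
  simp [dir, mono, map_prod]

theorem sep_dir (hD : r + 2 ≤ D) (he : 1 ≤ e) (β : Fin r → MvPolynomial (Fin (m + 1)) ℤ) (p : ℕ) [Fact p.Prime] :
    Sep2 (dir D e β) p := by
  intro P Q hPQ ⟨i, hi⟩
  rw [aeval_dir] at hi
  have hw : MvPolynomial.aeval P (sect β) ≠ 0 := left_ne_zero_of_mul hi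
  obtain ⟨k, hk⟩ : ∃ k, P k ≠ Q k := Function.ne_iff.mp hPQ
  set i0 : Mo m r D e := (⟨0, by omega⟩, fun _ => 0) with hi0
  obtain ⟨ik, hik⟩ : ∃ ik : Mo m r D e, ∀ R : Fin (m + 1 + 1) → ZMod p,
      R 0 ^ (ik.1 : ℕ) * ∏ j, R (Fin.succ j) ^ (ik.2 j : ℕ) = R k := by
    rcases Fin.eq_zero_or_eq_succ k with rfl | ⟨j, rfl⟩
    · exact ⟨(⟨1, by omega⟩, fun _ => 0), fun R => by simp⟩
    · refine ⟨(⟨0, by omega⟩, Pi.single j ⟨1, by omega⟩), fun R => ?_⟩
      rw [Finset.prod_eq_single j]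
      · simp
      · intro l _ hl
        simp [Pi.single_eq_of_ne hl]
      · intro hl
        exact absurd (Finset.mem_univ j) hl
  have h0 : ∀ R : Fin (m + 1 + 1) → ZMod p,
      R 0 ^ (i0.1 : ℕ) * ∏ j, R (Fin.succ j) ^ (i0.2 j : ℕ) = 1 := by
    intro R
    simp [hi0]
  refine ⟨fun i => (Pi.single ik (1 : ZMod p) : Mo m r D e → ZMod p) i -
    Q k * (Pi.single i0 (1 : ZMod p) : Mo m r D e → ZMod p) i, ?_, ?_⟩
  all_goals simp only [sub_mul, Finset.sum_sub_distrib, mul_assoc, ← Finset.mul_sum]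
  · rw [Finset.sum_eq_single ik (fun b _ hb => by rw [Pi.single_eq_of_ne hb, zero_mul])
      (fun h => absurd (Finset.mem_univ _) h),
      Finset.sum_eq_single i0 (fun b _ hb => by rw [Pi.single_eq_of_ne hb, zero_mul])
      (fun h => absurd (Finset.mem_univ _) h), Pi.single_eq_same, Pi.single_eq_same, aeval_dir,
      aeval_dir, hik, h0]
    intro h1
    apply hk
    have h2 : MvPolynomial.aeval P (sect β) * (P k - Q k) = 0 := by linear_combination h1
    rcases mul_eq_zero.mp h2 with h3 | h3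
    · exact absurd h3 hw
    · exact sub_eq_zero.mp h3
  · rw [Finset.sum_eq_single ik (fun b _ hb => by rw [Pi.single_eq_of_ne hb, zero_mul])
      (fun h => absurd (Finset.mem_univ _) h),
      Finset.sum_eq_single i0 (fun b _ hb => by rw [Pi.single_eq_of_ne hb, zero_mul])
      (fun h => absurd (Finset.mem_univ _) h), Pi.single_eq_same, Pi.single_eq_same, aeval_dir,
      aeval_dir, hik, h0]
    ring

theorem mem_base_dir (hD : r + 1 ≤ D) (β : Fin r → MvPolynomial (Fin (m + 1)) ℤ) {p : ℕ} [Fact p.Prime]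
    (P : Fin (m + 1 + 1) → ZMod p) : P ∈ base (dir D e β) p ↔ MvPolynomial.aeval P (sect β) = 0 := by
  classical
  rw [base, Finset.mem_filter]
  constructor
  · rintro ⟨-, h⟩
    have := h (⟨0, by omega⟩, fun _ => 0)
    rw [aeval_dir] at this
    simpa using this
  · intro h
    refine ⟨Finset.mem_univ _, fun i => ?_⟩
    rw [aeval_dir, h, zero_mul]

/-- The value of `S` at the section number `j`. -/
noncomputable def restr (β : Fin r → MvPolynomial (Fin (m + 1)) ℤ) (S : MvPolynomial (Fin (m + 1 + 1)) ℤ) (j : Fin r) :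
    MvPolynomial (Fin (m + 1)) ℤ := aeval (Fin.cons (β j) X : Fin (m + 1 + 1) → MvPolynomial (Fin (m + 1)) ℤ) S

lemma aeval_restr {p : ℕ} (β : Fin r → MvPolynomial (Fin (m + 1)) ℤ) (S : MvPolynomial (Fin (m + 1 + 1)) ℤ) (j : Fin r)
    (t : Fin (m + 1) → ZMod p) : aeval t (restr β S j) = aeval (Fin.cons (aeval t (β j)) t : Fin (m + 1 + 1) → ZMod p) S := by
  unfold restr
  rw [comp_aeval_apply]
  congr 2
  funext i
  refine Fin.cases ?_ (fun k => ?_) i
  · simp
  · simp

/-- The product of the values and of the differences of the sections. -/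
noncomputable def disc (β : Fin r → MvPolynomial (Fin (m + 1)) ℤ) (S : MvPolynomial (Fin (m + 1 + 1)) ℤ) : MvPolynomial (Fin (m + 1)) ℤ :=
  (∏ i, ∏ j ∈ univ.filter (fun j => j ≠ i), (β i - β j)) * ∏ j, restr β S j

lemma disc_ne (β : Fin r → MvPolynomial (Fin (m + 1)) ℤ) (hβ : Function.Injective β) (S : MvPolynomial (Fin (m + 1 + 1)) ℤ)
    (hS : ∀ j, restr β S j ≠ 0) : disc β S ≠ 0 := by
  unfold disc
  refine mul_ne_zero (prod_ne_zero_iff.2 fun i _ => prod_ne_zero_iff.2 fun j hj => ?_) (prod_ne_zero_iff.2 fun j _ => hS j)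
  rw [mem_filter] at hj
  exact sub_ne_zero.2 fun h => hj.2 (hβ h).symm

theorem bsum_dir (hD : r + 1 ≤ D) (β : Fin r → MvPolynomial (Fin (m + 1)) ℤ) (hβ : Function.Injective β)
    (S : MvPolynomial (Fin (m + 1 + 1)) ℤ) (hS : ∀ j, restr β S j ≠ 0) : ∃ C : ℝ, ∀ p : ℕ, p.Prime → 0 ≤ p →
    |bsum (base0 D β S) (dir D e β) p - r * (p : ℝ) ^ (m + 1)| ≤ C * ((p : ℝ) ^ (m + 1) / Real.sqrt p) := by
  classical
  obtain ⟨c0, hc0⟩ : ∃ c0 : Fin (m + 1) → ℤ, MvPolynomial.eval c0 (disc β S) ≠ 0 := by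
    by_contra hcon
    push Not at hcon
    exact disc_ne β hβ S hS (MvPolynomial.funext fun c => by rw [hcon c, map_zero])
  obtain ⟨Q, hQ⟩ : ∃ Q : ℝ, Q = (disc β S).totalDegree + |(MvPolynomial.eval c0 (disc β S) : ℝ)| := ⟨_, rfl⟩
  have hQ0 : 0 ≤ Q := by rw [hQ]; positivity
  refine ⟨r * Q, fun p hp _ => ?_⟩
  haveI : Fact p.Prime := ⟨hp⟩
  have hp0 : (0 : ℝ) < p := by exact_mod_cast hp.pos
  have hp1 : (1 : ℝ) ≤ p := by exact_mod_cast hp.one_lt.le
  -- the count
  obtain ⟨G, hG⟩ : ∃ G : (Fin (m + 1) → ZMod p) → Finset (ZMod p), G = fun t => univ.filter (fun x =>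
    (∏ j, (x - aeval t (β j)) = 0) ∧ aeval (Fin.cons x t : Fin (m + 1 + 1) → ZMod p) S ≠ 0) := ⟨_, rfl⟩
  have h1 : bsum (base0 D β S) (dir D e β) p = ∑ t : Fin (m + 1) → ZMod p, ((G t).card : ℝ) := by
    rw [bsum_eq]
    have h2 : ∀ P ∈ base (dir D e β) p, qc p (MvPolynomial.aeval P (base0 D β S)) = if aeval P S = 0 then 0 else 1 := by
      intro P hP
      rw [mem_base_dir hD] at hP
      have h3 : MvPolynomial.aeval P (base0 D β S) = (aeval P S) ^ 2 := by
        unfold base0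
        rw [map_add, map_mul, hP, zero_mul, zero_add, map_pow]
      rw [h3]
      unfold qc
      split_ifs with h
      · simp [h]
      · rw [quadraticChar_sq_one' h]
        simp
    rw [sum_congr rfl h2]
    have h3 : ∑ P ∈ base (dir D e β) p, (if aeval P S = 0 then (0 : ℝ) else 1) =
        ∑ P : Fin (m + 1 + 1) → ZMod p, (if aeval P (sect β) = 0 ∧ aeval P S ≠ 0 then (1 : ℝ) else 0) := by
      rw [← sum_filter_add_sum_filter_not (univ : Finset (Fin (m + 1 + 1) → ZMod p)) (fun P => P ∈ base (dir D e β) p)]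
      rw [sum_eq_zero (s := univ.filter (fun P => ¬ P ∈ base (dir D e β) p)), add_zero]
      · have h4 : univ.filter (fun P => P ∈ base (dir D e β) p) = base (dir D e β) p := by
          ext P
          simp
        rw [h4]
        refine sum_congr rfl fun P hP => ?_
        rw [mem_base_dir hD] at hP
        by_cases h5 : aeval P S = 0
        · rw [if_pos h5, if_neg (by tauto)]
        · rw [if_neg h5, if_pos ⟨hP, h5⟩]
      · intro P hP
        rw [mem_filter, mem_base_dir hD] at hP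
        rw [if_neg (by tauto)]
    rw [h3]
    have h4 : ∑ P : Fin (m + 1 + 1) → ZMod p, (if aeval P (sect β) = 0 ∧ aeval P S ≠ 0 then (1 : ℝ) else 0) =
        ∑ t : Fin (m + 1) → ZMod p, ∑ x : ZMod p, (if aeval (Fin.cons x t : Fin (m + 1 + 1) → ZMod p) (sect β) = 0 ∧
          aeval (Fin.cons x t : Fin (m + 1 + 1) → ZMod p) S ≠ 0 then (1 : ℝ) else 0) := by
      rw [sum_comm, ← Fintype.sum_prod_type']
      exact (Fintype.sum_equiv (Fin.consEquiv (fun _ : Fin (m + 1 + 1) => ZMod p)) _ _ (fun _ => rfl)).symm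
    rw [h4]
    refine sum_congr rfl fun t _ => ?_
    rw [hG]
    simp only [aeval_sect]
    rw [← sum_filter, sum_const, nsmul_eq_mul, mul_one]
  have hsub : ∀ t, G t ⊆ univ.image (fun j => aeval t (β j)) := by
    intro t x hx
    rw [hG, mem_filter] at hx
    obtain ⟨j, _, hj⟩ := prod_eq_zero_iff.1 hx.2.1
    rw [mem_image]
    exact ⟨j, mem_univ _, (sub_eq_zero.1 hj).symm⟩
  have hle : ∀ t, (G t).card ≤ r := by
    intro t
    refine (card_le_card (hsub t)).trans (card_image_le.trans ?_)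
    rw [card_univ, Fintype.card_fin]
  have hgood : ∀ t, BZ (disc β S) p t = 0 → (G t).card = r := by
    intro t ht
    have h2 : aeval t (disc β S) ≠ 0 := by
      intro h3
      unfold BZ at ht
      have h4 : MvPolynomial.eval₂ (Int.castRingHom (ZMod p)) t (disc β S) = 0 := h3
      rw [if_pos h4] at ht
      norm_num at ht
    unfold disc at h2
    rw [map_mul, map_prod, map_prod] at h2
    have h3 := left_ne_zero_of_mul h2
    have h4 := right_ne_zero_of_mul h2
    have hinj : Function.Injective (fun j => aeval t (β j)) := by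
      intro i j hij
      by_contra hne
      have h5 := prod_ne_zero_iff.1 h3 i (mem_univ _)
      rw [map_prod] at h5
      have h6 := prod_ne_zero_iff.1 h5 j (by rw [mem_filter]; exact ⟨mem_univ _, fun h => hne h.symm⟩)
      rw [map_sub] at h6
      exact h6 (sub_eq_zero.2 hij)
    have h5 : G t = univ.image (fun j => aeval t (β j)) := by
      apply subset_antisymm (hsub t)
      intro x hx
      rw [mem_image] at hx
      obtain ⟨j, _, rfl⟩ := hx
      rw [hG, mem_filter]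
      refine ⟨mem_univ _, prod_eq_zero (mem_univ j) (sub_self _), ?_⟩
      have h6 := prod_ne_zero_iff.1 h4 j (mem_univ _)
      rw [aeval_restr] at h6
      exact h6
    rw [h5, card_image_of_injective _ hinj, card_univ, Fintype.card_fin]
  have hterm : ∀ t, |((G t).card : ℝ) - r| ≤ r * BZ (disc β S) p t := by
    intro t
    rcases BZ_cases (disc β S) p t with h2 | h2
    · rw [hgood t h2, sub_self, abs_zero, h2, mul_zero]
    · rw [h2, mul_one]
      have h3 : ((G t).card : ℝ) ≤ r := by exact_mod_cast hle t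
      have h4 : (0 : ℝ) ≤ (G t).card := Nat.cast_nonneg _
      rw [abs_le]
      constructor <;> linarith
  have h6 : r * (p : ℝ) ^ (m + 1) = ∑ _t : Fin (m + 1) → ZMod p, (r : ℝ) := by
    rw [sum_const, nsmul_eq_mul, card_univ, Fintype.card_fun, ZMod.card, Fintype.card_fin]
    push_cast
    ring
  rw [h1, h6, ← sum_sub_distrib]
  refine (abs_sum_le_sum_abs _ _).trans ((sum_le_sum fun t _ => hterm t).trans ?_)
  rw [← mul_sum]
  have h7 : ∑ t : Fin (m + 1) → ZMod p, BZ (disc β S) p t = (p : ℝ) ^ (m + 1) * EM p (fun t : Fin (m + 1) → ZMod p => BZ (disc β S) p t) := by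
    unfold EM
    rw [Fintype.card_fin]
    field_simp
  rw [h7]
  have h8 := EM_BZ (disc β S) c0 hc0 p
  rw [← hQ] at h8
  have h9 : Q / p ≤ Q / Real.sqrt p := by
    apply div_le_div_of_nonneg_left hQ0 (by positivity)
    rw [Real.sqrt_le_left hp0.le]
    nlinarith
  calc (r : ℝ) * ((p : ℝ) ^ (m + 1) * EM p (fun t : Fin (m + 1) → ZMod p => BZ (disc β S) p t)) ≤
        r * ((p : ℝ) ^ (m + 1) * (Q / Real.sqrt p)) := by
        apply mul_le_mul_of_nonneg_left _ (by positivity)
        apply mul_le_mul_of_nonneg_left (h8.trans h9) (by positivity)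
    _ = r * Q * ((p : ℝ) ^ (m + 1) / Real.sqrt p) := by ring

end Pool.Agent.V11210.NF
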