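import Pool.Agent.Y722.ST.Hyper
import Pool.Agent.H341R2.WeilSharp

/-!
# Weil's bound on the fibres and the number of points
-/

set_option autoImplicit false

namespace Pool.Agent.V11210.NF

open Finset
open Pool.Agent.Y722.ST

variable {m : ℕ} {ι : Type} [Fintype ι]

/-- The polynomial is monic of degree `D` in the variable `x = X 0`. -/
def MonicIn (D : ℕ) (F : MvPolynomial (Fin (m + 1)) ℤ) : Prop :=
  (MvPolynomial.finSuccEquiv ℤ m F).Monic ∧ (MvPolynomial.finSuccEquiv ℤ m F).natDegree = D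

/-- The polynomial is of degree less than `D` in the variable `x = X 0`. -/
def LowIn (D : ℕ) (F : MvPolynomial (Fin (m + 1)) ℤ) : Prop :=
  (MvPolynomial.finSuccEquiv ℤ m F).degree < D

/-- Evaluation of the coefficients at a point of the base. -/
noncomputable def ev (p : ℕ) (t : Fin m → ZMod p) : MvPolynomial (Fin m) ℤ →+* ZMod p :=
  MvPolynomial.eval₂Hom (Int.castRingHom (ZMod p)) t

lemma ev_fiber (p : ℕ) (t : Fin m → ZMod p) (x : ZMod p) (F : MvPolynomial (Fin (m + 1)) ℤ) :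
    ((MvPolynomial.finSuccEquiv ℤ m F).map (ev p t)).eval x = MvPolynomial.aeval (Fin.cons x t : Fin (m + 1) → ZMod p) F := by
  have h : (Polynomial.evalRingHom x).comp ((Polynomial.mapRingHom (ev p t)).comp
      ((MvPolynomial.finSuccEquiv ℤ m : MvPolynomial (Fin (m + 1)) ℤ ≃ₐ[ℤ] _) : MvPolynomial (Fin (m + 1)) ℤ →+* _)) =
      ((MvPolynomial.aeval (Fin.cons x t : Fin (m + 1) → ZMod p) : MvPolynomial (Fin (m + 1)) ℤ →ₐ[ℤ] ZMod p) :
        MvPolynomial (Fin (m + 1)) ℤ →+* ZMod p) := by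
    apply MvPolynomial.ringHom_ext
    · intro r
      simp
    · intro i
      refine Fin.cases ?_ ?_ i
      · simp [MvPolynomial.finSuccEquiv_X_zero]
      · intro j
        simp [MvPolynomial.finSuccEquiv_X_succ, ev]
  exact RingHom.congr_fun h F

section
variable {F₀ : MvPolynomial (Fin (m + 1)) ℤ} {h : ι → MvPolynomial (Fin (m + 1)) ℤ} {p : ℕ} [hp : Fact p.Prime]

/-- the fibre sum -/
lemma fiber_bound {D : ℕ} (hD : Odd D) (hF : MonicIn D F₀) (hh : ∀ i, LowIn D (h i)) (hp2 : p ≠ 2) (c : ι → ZMod p)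
    (t : Fin m → ZMod p) : |∑ x : ZMod p, qc p (vl F₀ h p c (Fin.cons x t))| ≤ (D - 1) * Real.sqrt p := by
  classical
  obtain ⟨g₀, hg₀⟩ : ∃ g₀, g₀ = (MvPolynomial.finSuccEquiv ℤ m F₀).map (ev p t) := ⟨_, rfl⟩
  obtain ⟨g₁, hg₁⟩ : ∃ g₁, g₁ = ∑ i, Polynomial.C (c i) * (MvPolynomial.finSuccEquiv ℤ m (h i)).map (ev p t) := ⟨_, rfl⟩
  have hm0 : g₀.Monic := by rw [hg₀]; exact hF.1.map _
  have hn0 : g₀.natDegree = D := by
    rw [hg₀, hF.1.natDegree_map, hF.2]
  have hd0 : g₀.degree = D := by rw [Polynomial.degree_eq_natDegree hm0.ne_zero, hn0]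
  have hd1 : g₁.degree < D := by
    rw [hg₁]
    refine lt_of_le_of_lt (Polynomial.degree_sum_le _ _) ?_
    rw [Finset.sup_lt_iff (by exact WithBot.bot_lt_coe D)]
    intro i _
    refine lt_of_le_of_lt (Polynomial.degree_mul_le _ _) ?_
    have h0 : (Polynomial.C (c i)).degree + ((MvPolynomial.finSuccEquiv ℤ m (h i)).map (ev p t)).degree ≤
        0 + ((MvPolynomial.finSuccEquiv ℤ m (h i)).map (ev p t)).degree := add_le_add Polynomial.degree_C_le le_rfl
    rw [zero_add] at h0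
    exact lt_of_le_of_lt h0 (lt_of_le_of_lt Polynomial.degree_map_le (hh i))
  have hm : (g₀ + g₁).Monic := hm0.add_of_left (by rw [hd0]; exact hd1)
  have hn : (g₀ + g₁).natDegree = D := by
    rw [Polynomial.natDegree_add_eq_left_of_degree_lt (by rw [hd0]; exact hd1), hn0]
  have h1 := Pool.Agent.H341R2.Sharp.weil_sharp_monic (F := ZMod p) (by rw [ZMod.ringChar_zmod_n]; exact hp2) hm (by
    rw [hn]
    exact hD.pos) (by
    intro a g hc
    have h3 : g₀ + g₁ ≠ 0 := hm.ne_zero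
    have ha0 : a ≠ 0 := by
      rintro rfl
      rw [Polynomial.C_0, zero_mul] at hc
      exact h3 hc
    rw [hc, Polynomial.natDegree_C_mul ha0, Polynomial.natDegree_pow] at hn
    rw [← hn] at hD
    exact (Nat.not_even_iff_odd.2 hD) ⟨_, two_mul _⟩)
  rw [hn, ZMod.card] at h1
  have h2 : ∀ x : ZMod p, (g₀ + g₁).eval x = vl F₀ h p c (Fin.cons x t) := by
    intro x
    rw [Polynomial.eval_add, hg₀, ev_fiber, hg₁, Polynomial.eval_finsetSum]
    unfold vl
    congr 1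
    refine sum_congr rfl fun i _ => ?_
    rw [Polynomial.eval_mul, Polynomial.eval_C, ev_fiber]
  simp only [h2] at h1
  exact h1

theorem fav_bound {D : ℕ} (hD : Odd D) (hF : MonicIn D F₀) (hh : ∀ i, LowIn D (h i)) (hp2 : p ≠ 2) (c : ι → ZMod p) :
    |fav F₀ h p c| ≤ (D - 1) * Real.sqrt p := by
  classical
  have hp0 : (0 : ℝ) < (p : ℝ) ^ m := by
    have : (0 : ℝ) < p := by exact_mod_cast hp.out.pos
    positivity
  rw [fav_eq, neg_div, abs_neg, abs_div, abs_of_pos hp0, div_le_iff₀ hp0]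
  have h1 : ∑ P : Fin (m + 1) → ZMod p, qc p (vl F₀ h p c P) = ∑ t : Fin m → ZMod p, ∑ x : ZMod p, qc p (vl F₀ h p c (Fin.cons x t)) := by
    rw [sum_comm, ← Fintype.sum_prod_type']
    exact (Fintype.sum_equiv (Fin.consEquiv (fun _ : Fin (m + 1) => ZMod p)) _ _ (fun _ => rfl)).symm
  rw [h1]
  refine (abs_sum_le_sum_abs _ _).trans ((sum_le_sum fun t _ => fiber_bound hD hF hh hp2 c t).trans ?_)
  rw [sum_const, nsmul_eq_mul, card_univ, Fintype.card_fun, ZMod.card, Fintype.card_fin]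
  push_cast
  exact le_of_eq (by ring)

end

/-- The number of the affine points of `y² = (F₀ + ∑ c i h i)(x, t)` modulo `p`. -/
noncomputable def points (F₀ : MvPolynomial (Fin (m + 1)) ℤ) (h : ι → MvPolynomial (Fin (m + 1)) ℤ) (c : ι → ℤ) (p : ℕ) : ℕ :=
  Nat.card {P : (Fin (m + 1) → ZMod p) × ZMod p // P.2 ^ 2 = MvPolynomial.aeval P.1 (F₀ + ∑ i, MvPolynomial.C (c i) * h i)}

/-- The average of the traces. -/
noncomputable def average (F₀ : MvPolynomial (Fin (m + 1)) ℤ) (h : ι → MvPolynomial (Fin (m + 1)) ℤ) (c : ι → ℤ) (p : ℕ) : ℝ :=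
  p - points F₀ h c p / (p : ℝ) ^ m

lemma aeval_vl {p : ℕ} (F₀ : MvPolynomial (Fin (m + 1)) ℤ) (h : ι → MvPolynomial (Fin (m + 1)) ℤ) (c : ι → ℤ)
    (P : Fin (m + 1) → ZMod p) : MvPolynomial.aeval P (F₀ + ∑ i, MvPolynomial.C (c i) * h i) = vl F₀ h p (fun i => (c i : ZMod p)) P := by
  unfold vl
  rw [map_add, map_sum]
  congr 1
  refine sum_congr rfl fun i _ => ?_
  rw [map_mul, MvPolynomial.algHom_C]
  simp

lemma card_sqrt {p : ℕ} [hp : Fact p.Prime] (hp2 : p ≠ 2) (v : ZMod p) :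
    (Nat.card {y : ZMod p // y ^ 2 = v} : ℝ) = qc p v + 1 := by
  classical
  have h1 := quadraticChar_card_sqrts (F := ZMod p) (by rw [ZMod.ringChar_zmod_n]; exact hp2) v
  have h2 : ((Nat.card {y : ZMod p // y ^ 2 = v} : ℕ) : ℤ) = quadraticChar (ZMod p) v + 1 := by
    rw [← h1]
    congr 1
    rw [Nat.card_eq_fintype_card, Fintype.card_subtype]
    congr 1
    ext y
    simp
  unfold qc
  exact_mod_cast h2

lemma average_eq {p : ℕ} [hp : Fact p.Prime] (hp2 : p ≠ 2) (F₀ : MvPolynomial (Fin (m + 1)) ℤ)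
    (h : ι → MvPolynomial (Fin (m + 1)) ℤ) (c : ι → ℤ) : average F₀ h c p = fav F₀ h p (fun i => (c i : ZMod p)) := by
  classical
  have hp0 : (0 : ℝ) < p := by exact_mod_cast hp.out.pos
  have h1 : points F₀ h c p = ∑ P : Fin (m + 1) → ZMod p, Nat.card {y : ZMod p // y ^ 2 = vl F₀ h p (fun i => (c i : ZMod p)) P} := by
    unfold points
    rw [← Nat.card_sigma]
    refine Nat.card_congr ⟨fun P => ⟨P.1.1, ⟨P.1.2, by rw [← aeval_vl]; exact P.2⟩⟩,
      fun P => ⟨(P.1, P.2.1), by rw [aeval_vl]; exact P.2.2⟩, fun _ => rfl, fun _ => rfl⟩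
  have h2 : (points F₀ h c p : ℝ) = (p : ℝ) ^ (m + 1) + ∑ P : Fin (m + 1) → ZMod p, qc p (vl F₀ h p (fun i => (c i : ZMod p)) P) := by
    rw [h1]
    push_cast
    rw [sum_congr rfl (fun P _ => card_sqrt hp2 _), sum_add_distrib, sum_const, nsmul_eq_mul, mul_one, card_univ, Fintype.card_fun,
      ZMod.card, Fintype.card_fin]
    push_cast
    ring
  unfold average
  rw [h2, fav_eq]
  field_simp
  ring

lemma average_two (F₀ : MvPolynomial (Fin (m + 1)) ℤ) (h : ι → MvPolynomial (Fin (m + 1)) ℤ) (c : ι → ℤ) :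
    |average F₀ h c 2| ≤ 2 := by
  classical
  have h1 : (points F₀ h c 2 : ℝ) ≤ (2 : ℝ) ^ m * 4 := by
    have : points F₀ h c 2 ≤ Nat.card ((Fin (m + 1) → ZMod 2) × ZMod 2) := Nat.card_le_card_of_injective _ Subtype.val_injective
    have h2 : Nat.card ((Fin (m + 1) → ZMod 2) × ZMod 2) = 2 ^ m * 4 := by
      rw [Nat.card_eq_fintype_card, Fintype.card_prod, Fintype.card_fun, ZMod.card, Fintype.card_fin]
      ring
    rw [h2] at this
    exact_mod_cast this
  unfold average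
  have h3 : (points F₀ h c 2 : ℝ) / ((2 : ℕ) : ℝ) ^ m ≤ 4 := by
    rw [div_le_iff₀ (by positivity)]
    push_cast
    linarith
  have h4 : 0 ≤ (points F₀ h c 2 : ℝ) / ((2 : ℕ) : ℝ) ^ m := by positivity
  rw [abs_le]
  push_cast at h3 h4 ⊢
  constructor <;> linarith

end Pool.Agent.V11210.NF
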