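import Pool.Agent.V11210.NF.Core
import Pool.Agent.V11210.NF.Weil

/-!
# Nagao's averages for almost all members of families of fibrations whose coefficients arise by few changes of digits
-/

set_option autoImplicit false

namespace Pool.Agent.V11210.NF

open Finset Filter
open Pool.Agent.Y57.FD (digit change)
open Pool.Agent.Y722.HS (EM EM_mono EM_const)
open Pool.Agent.Y722.LS (EM_add EM_mul)
open Pool.Agent.Y722.PC (BZ EM_BZ)
open Pool.Agent.Y722.ST

lemma EM_translate {ι : Type} [Fintype ι] [DecidableEq ι] (p : ℕ) [NeZero p] (s : ι → ZMod p) (g : (ι → ZMod p) → ℝ) :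
    EM p (fun c => g (fun i => s i + c i)) = EM p g := by
  unfold EM
  congr 1
  exact Fintype.sum_equiv (Equiv.addLeft s) _ _ fun c => rfl

lemma BZ_one_of_dvd {ι : Type} (P : MvPolynomial ι ℤ) (c : ι → ℤ) (p : ℕ) (h : (p : ℤ) ∣ MvPolynomial.eval c P) :
    BZ P p (fun i => (c i : ZMod p)) = 1 := by
  unfold BZ
  rw [if_pos]
  have e1 : (fun i => (c i : ZMod p)) = (Int.castRingHom (ZMod p)) ∘ c := rfl
  have h2 : MvPolynomial.eval₂ (Int.castRingHom (ZMod p)) (fun i => (c i : ZMod p)) P = ((MvPolynomial.eval c P : ℤ) : ZMod p) := by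
    rw [e1]
    exact (MvPolynomial.eval₂_comp (Int.castRingHom (ZMod p)) c P).symm
  rw [h2, (ZMod.intCast_zmod_eq_zero_iff_dvd _ _).mpr h]

theorem family {m : ℕ} (hm : 1 ≤ m) {ι : Type} [Fintype ι] [DecidableEq ι] [Nonempty ι] (F₀ : MvPolynomial (Fin (m + 1)) ℤ)
    (h : ι → MvPolynomial (Fin (m + 1)) ℤ) (D : ℕ) (hD : Odd D) (hF : MonicIn D F₀) (hh : ∀ i, LowIn D (h i)) (p₀ : ℕ) (ρ C₀ : ℝ)
    (hs : ∀ p : ℕ, p.Prime → p₀ ≤ p → Sep2 h p)
    (hbs : ∀ p : ℕ, p.Prime → p₀ ≤ p → |bsum F₀ h p - ρ * (p : ℝ) ^ m| ≤ C₀ * ((p : ℝ) ^ m / Real.sqrt p))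
    (P : MvPolynomial ι ℤ) (hP : P ≠ 0) (b : ℕ) (hb : 2 ≤ b) (δ : ℝ) (hδ : 0 < δ) (A : ℕ) :
    ∃ c : ℝ, 0 < c ∧ ∃ y₀ : ℕ,
    ∀ (K r : ι → ℕ) (y : ℕ), (∀ l, 2 * r l ≤ K l) → y₀ ≤ y →
    ∀ N : ι → ℕ, (∀ l, N l < b ^ K l) → ∀ f : ι → ℕ → ℕ, (∀ l j, f l j < b ∧ f l j ≠ digit b j (N l)) → ∀ s : ι → ℤ,
    ∀ E : (ι → ℕ) → Prop, (∀ n : ι → ℕ, (∀ T : ℕ, 2 ≤ T → y ≤ T → (∀ l, (T : ℝ) ≤ Real.exp (c * r l)) → ∀ R : Set ℕ,
      (∀ p ∈ R, (p : ℤ) ∣ MvPolynomial.eval (fun l => s l + n l) P) → ∀ (_ : DecidablePred fun p : ℕ => p.Prime ∧ p ∉ R),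
      |∑ p ∈ (range T).filter (fun p : ℕ => p.Prime ∧ p ∉ R), (average F₀ h (fun l => s l + n l) p + ρ) * Real.log p| ≤
        (T : ℝ) ^ (1 / 2 + δ)) → E n) →
    (exceptions b K r N f E : ℝ) ≤ 1 / (y : ℝ) ^ A * ∏ l, ((K l).choose (r l) : ℝ) := by
  classical
  obtain ⟨c0, hc0⟩ : ∃ c0 : ι → ℤ, MvPolynomial.eval c0 P ≠ 0 := by
    by_contra hcon
    push Not at hcon
    exact hP (MvPolynomial.funext fun c => by rw [hcon c, map_zero])
  have hdat := dat_fav (p0 := p₀) (r := ρ) hm (abs_nonneg C₀) hs fun p hp hge =>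
    (hbs p hp hge).trans (mul_le_mul_of_nonneg_right (le_abs_self _) (by positivity))
  obtain ⟨K₁, hK₁⟩ : ∃ K₁ : ℝ, K₁ = 2 + |C₀| + 2 * (ρ ^ 2 + |C₀| ^ 2) := ⟨_, rfl⟩
  rw [← hK₁] at hdat
  have hK1 := hdat.K0
  have hD1 : (1 : ℝ) ≤ D := by exact_mod_cast hD.pos
  obtain ⟨c, hc, y₁, hcore⟩ := core ι b hb (1 / 2) (by norm_num) (δ / 2) (by positivity) A (D + |ρ|) (2 * K₁ + 2 * ρ ^ 2)
    (P.totalDegree + |(MvPolynomial.eval c0 P : ℝ)|) (by have := abs_nonneg ρ; linarith) (by positivity) (by positivity) (p₀ + 3)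
  have hev : ∀ᶠ T : ℕ in atTop, 2 + (2 + |ρ|) ≤ (T : ℝ) ^ (δ / 2) := by
    have h1 := tendsto_rpow_atTop (y := δ / 2) (by positivity)
    exact (h1.comp tendsto_natCast_atTop_atTop).eventually (eventually_ge_atTop _)
  obtain ⟨y₂, hy₂⟩ := eventually_atTop.1 hev
  refine ⟨c, hc, y₁ + y₂ + 3, fun K r y hK hy N hN f hf s E hE => ?_⟩
  refine hcore K r y hK (by omega) N hN f hf (fun p c => fav F₀ h p (fun i => (s i : ZMod p) + c i) + ρ)
    (fun p c => BZ P p (fun i => (s i : ZMod p) + c i)) ?_ ?_ ?_ ?_ ?_ E ?_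
  · intro p hp hp3 c
    haveI : Fact p.Prime := ⟨hp⟩
    have h1 := fav_bound (p := p) hD hF hh (by omega) (fun i => (s i : ZMod p) + c i)
    have hsq : (1 : ℝ) ≤ Real.sqrt p := by
      rw [Real.one_le_sqrt]
      exact_mod_cast hp.one_lt.le
    rw [← Real.sqrt_eq_rpow]
    refine (abs_add_le _ _).trans ?_
    have h2 : |ρ| ≤ |ρ| * Real.sqrt p := le_mul_of_one_le_right (abs_nonneg _) hsq
    have h3 : ((D : ℝ) - 1) * Real.sqrt p ≤ D * Real.sqrt p := mul_le_mul_of_nonneg_right (by linarith) (by positivity)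
    rw [add_mul]
    linarith
  · intro p hpF hge
    rw [show (2 : ℝ) * (1 / 2) - 1 = 0 by norm_num, Real.rpow_zero, mul_one]
    have h1 := hdat.sq p hge
    have h2 : EM p (fun c : ι → ZMod p => (fav F₀ h p (fun i => (s i : ZMod p) + c i) + ρ) ^ 2) =
        EM p (fun c : ι → ZMod p => (fav F₀ h p c + ρ) ^ 2) :=
      EM_translate p (fun i => (s i : ZMod p)) (fun c => (fav F₀ h p c + ρ) ^ 2)
    rw [h2]
    have h3 : EM p (fun c : ι → ZMod p => (fav F₀ h p c + ρ) ^ 2) ≤ EM p (fun c : ι → ZMod p => 2 * fav F₀ h p c ^ 2 + 2 * ρ ^ 2) := by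
      apply EM_mono
      intro c
      nlinarith [sq_nonneg (fav F₀ h p c - ρ)]
    refine h3.trans ?_
    rw [EM_add, EM_mul, EM_const]
    linarith
  · intro p hpF hge
    have hp0 : (0 : ℝ) < p := by exact_mod_cast hpF.out.pos
    have h1 := hdat.mean p hge
    have h2 : EM p (fun c : ι → ZMod p => fav F₀ h p (fun i => (s i : ZMod p) + c i) + ρ) = EM p (fun c => fav F₀ h p c) - (-ρ) := by
      rw [EM_translate p (fun i => (s i : ZMod p)) (fun c => fav F₀ h p c + ρ), EM_add, EM_const]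
      ring
    rw [h2]
    refine h1.trans ?_
    have h3 : (p : ℝ) ^ ((1 : ℝ) / 2 - 1) = 1 / Real.sqrt p := by
      rw [Real.rpow_sub hp0, Real.rpow_one, ← Real.sqrt_eq_rpow]
      have h4 : Real.sqrt p * Real.sqrt p = p := Real.mul_self_sqrt hp0.le
      have h5 : Real.sqrt p ≠ 0 := by positivity
      rw [div_eq_div_iff hp0.ne' h5, h4, one_mul]
    rw [h3, mul_one_div]
    apply div_le_div_of_nonneg_right _ (by positivity)
    nlinarith [sq_nonneg ρ]
  · intro p c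
    exact BZ_cases P p _
  · intro p hpF
    rw [EM_translate p (fun i => (s i : ZMod p)) (fun c => BZ P p c)]
    exact EM_BZ P c0 hc0 p
  · intro n hn
    refine hE n fun T hT2 hyT hTr R hR hdec => ?_
    have hTp : (0 : ℝ) < T := by exact_mod_cast (by omega : 0 < T)
    have hcast : ∀ p : ℕ, (fun i => (s i : ZMod p) + ((n i : ℕ) : ZMod p)) = fun i => (((s i + n i : ℤ)) : ZMod p) := by
      intro p
      funext i
      push_cast
      rfl
    have h1 := hn T hT2 hyT hTr R (fun p hp _ _ => by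
      show BZ P p (fun i => (s i : ZMod p) + ((n i : ℕ) : ZMod p)) = 1
      rw [hcast]
      exact BZ_one_of_dvd P _ p (hR p hp)) (Classical.decPred _)
    obtain ⟨X, hX⟩ : ∃ X : ℕ → ℝ, X = fun p => (average F₀ h (fun l => s l + n l) p + ρ) * Real.log p := ⟨_, rfl⟩
    have h2 : ∑ p ∈ (range T).filter (fun p : ℕ => p.Prime ∧ p ∉ R), X p =
        ∑ p ∈ (range T).filter (fun p : ℕ => p.Prime ∧ 3 ≤ p ∧ p ∉ R), X p + ∑ p ∈ (range T).filter (fun p : ℕ => p = 2 ∧ p ∉ R), X p := by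
      rw [← sum_union]
      · apply sum_congr _ (fun _ _ => rfl)
        ext p
        simp only [mem_filter, mem_union]
        constructor
        · rintro ⟨h3, h4, h5⟩
          rcases h4.two_le.lt_or_eq with h6 | h6
          · left
            exact ⟨h3, h4, h6, h5⟩
          · right
            exact ⟨h3, h6.symm, h5⟩
        · rintro (⟨h3, h4, h5, h6⟩ | ⟨h3, h4, h5⟩)
          · exact ⟨h3, h4, h6⟩
          · refine ⟨h3, ?_, h5⟩
            rw [h4]
            exact Nat.prime_two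
      · rw [disjoint_left]
        intro p hp hp'
        rw [mem_filter] at hp hp'
        omega
    have h3 : ∑ p ∈ (range T).filter (fun p : ℕ => p.Prime ∧ 3 ≤ p ∧ p ∉ R), X p =
        ∑ p ∈ (range T).filter (fun p : ℕ => p.Prime ∧ 3 ≤ p ∧ p ∉ R),
          (fav F₀ h p (fun i => (s i : ZMod p) + ((n i : ℕ) : ZMod p)) + ρ) * Real.log p := by
      refine sum_congr rfl fun p hp => ?_
      rw [mem_filter] at hp
      haveI : Fact p.Prime := ⟨hp.2.1⟩
      rw [hX]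
      show (average F₀ h (fun l => s l + n l) p + ρ) * Real.log p = _
      rw [average_eq (by omega), hcast]
    have h4 : |∑ p ∈ (range T).filter (fun p : ℕ => p = 2 ∧ p ∉ R), X p| ≤ 2 + |ρ| := by
      have h5 : (range T).filter (fun p : ℕ => p = 2 ∧ p ∉ R) ⊆ {2} := by
        intro p hp
        rw [mem_filter] at hp
        rw [mem_singleton]
        exact hp.2.1
      have h6 : |X 2| ≤ 2 + |ρ| := by
        rw [hX]
        show |(average F₀ h (fun l => s l + n l) 2 + ρ) * Real.log ((2 : ℕ) : ℝ)| ≤ 2 + |ρ|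
        have h7 := average_two F₀ h (fun l => s l + n l)
        have h8 : |average F₀ h (fun l => s l + n l) 2 + ρ| ≤ 2 + |ρ| := (abs_add_le _ _).trans (by linarith)
        have h9 : |Real.log ((2 : ℕ) : ℝ)| ≤ 1 := by
          push_cast
          rw [abs_of_pos (Real.log_pos (by norm_num))]
          have := Real.log_two_lt_d9
          linarith
        rw [abs_mul]
        calc _ ≤ (2 + |ρ|) * 1 := mul_le_mul h8 h9 (abs_nonneg _) (by positivity)
          _ = _ := mul_one _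
      refine (abs_sum_le_sum_abs _ _).trans ((sum_le_sum_of_subset_of_nonneg h5 (fun _ _ _ => abs_nonneg _)).trans ?_)
      rw [sum_singleton]
      exact h6
    have h5 : ∑ p ∈ (range T).filter (fun p : ℕ => p.Prime ∧ p ∉ R), (average F₀ h (fun l => s l + n l) p + ρ) * Real.log p =
        ∑ p ∈ (range T).filter (fun p : ℕ => p.Prime ∧ p ∉ R), X p := by rw [hX]
    have h6 : |∑ p ∈ (range T).filter (fun p : ℕ => p.Prime ∧ p ∉ R), X p| ≤ (T : ℝ) ^ (1 / 2 + δ / 2) + (2 + |ρ|) := by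
      rw [h2, h3]
      refine (abs_add_le _ _).trans (add_le_add ?_ h4)
      refine le_trans (le_of_eq ?_) h1
      congr 1
      apply sum_congr _ (fun _ _ => rfl)
      ext p
      simp only [mem_filter]
    rw [h5]
    refine h6.trans ?_
    have h7 := hy₂ T (by omega)
    have h8 : (1 : ℝ) ≤ (T : ℝ) ^ (1 / 2 + δ / 2) := Real.one_le_rpow (by exact_mod_cast (by omega : 1 ≤ T)) (by positivity)
    have h9 : (T : ℝ) ^ (1 / 2 + δ) = (T : ℝ) ^ (1 / 2 + δ / 2) * (T : ℝ) ^ (δ / 2) := by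
      rw [← Real.rpow_add hTp]
      congr 1
      ring
    rw [h9]
    have h10 := abs_nonneg ρ
    nlinarith

end Pool.Agent.V11210.NF
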