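import Pool.Agent.V11210.NF.CoreW
import Pool.Agent.V11210.NF.Ex
import Pool.Agent.V11210.NF.Dir

/-!
# Dirichlet series of Nagao's averages for all quadratic twists of almost all members of families of fibrations
-/

set_option autoImplicit false

namespace Pool.Agent.V11210.NF

open Finset Filter
open Pool.Agent.Y57.FD (digit change)
open Pool.Agent.Y722.HS (EM EM_mono EM_const)
open Pool.Agent.Y722.LS (EM_add EM_mul)
open Pool.Agent.Y722.PC (BZ EM_BZ)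
open Pool.Agent.Y722.ST

/-- The number of the affine points of `d y² = F(x, t)` modulo `p`. -/
noncomputable def pointsT {m : ℕ} (F : MvPolynomial (Fin (m + 1)) ℤ) (d : ℤ) (p : ℕ) : ℕ :=
  Nat.card {P : (Fin (m + 1) → ZMod p) × ZMod p // (d : ZMod p) * P.2 ^ 2 = MvPolynomial.aeval P.1 F}

/-- The average of the traces. -/
noncomputable def averageT {m : ℕ} (F : MvPolynomial (Fin (m + 1)) ℤ) (d : ℤ) (p : ℕ) : ℝ :=
  p - pointsT F d p / (p : ℝ) ^ m

lemma card_sqrtT {p : ℕ} [hp : Fact p.Prime] (hp2 : p ≠ 2) (d v : ZMod p) (hd : d ≠ 0) :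
    (Nat.card {y : ZMod p // d * y ^ 2 = v} : ℝ) = qc p d * qc p v + 1 := by
  have h1 : Nat.card {y : ZMod p // d * y ^ 2 = v} = Nat.card {y : ZMod p // y ^ 2 = d * v} := by
    refine Nat.card_congr ⟨fun y => ⟨d * y.1, by rw [mul_pow, sq d, mul_assoc, y.2]⟩, fun y => ⟨d⁻¹ * y.1, ?_⟩, ?_, ?_⟩
    · rw [mul_pow, y.2, sq, ← mul_assoc, ← mul_assoc, ← mul_assoc]
      rw [mul_inv_cancel₀ hd, one_mul, inv_mul_cancel₀ hd, one_mul]
    · intro y
      ext
      show d⁻¹ * (d * y.1) = y.1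
      rw [← mul_assoc, inv_mul_cancel₀ hd, one_mul]
    · intro y
      ext
      show d * (d⁻¹ * y.1) = y.1
      rw [← mul_assoc, mul_inv_cancel₀ hd, one_mul]
  rw [h1, card_sqrt hp2]
  unfold qc
  rw [map_mul]
  push_cast
  ring

lemma averageT_eq {m : ℕ} {ι : Type} [Fintype ι] {p : ℕ} [hp : Fact p.Prime] (hp2 : p ≠ 2) (F₀ : MvPolynomial (Fin (m + 1)) ℤ)
    (h : ι → MvPolynomial (Fin (m + 1)) ℤ) (c : ι → ℤ) (d : ℤ) (hd : (d : ZMod p) ≠ 0) :
    averageT (F₀ + ∑ i, MvPolynomial.C (c i) * h i) d p = qc p (d : ZMod p) * fav F₀ h p (fun i => (c i : ZMod p)) := by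
  classical
  have hp0 : (0 : ℝ) < p := by exact_mod_cast hp.out.pos
  have h1 : pointsT (F₀ + ∑ i, MvPolynomial.C (c i) * h i) d p = ∑ P : Fin (m + 1) → ZMod p,
      Nat.card {y : ZMod p // (d : ZMod p) * y ^ 2 = vl F₀ h p (fun i => (c i : ZMod p)) P} := by
    unfold pointsT
    rw [← Nat.card_sigma]
    refine Nat.card_congr ⟨fun P => ⟨P.1.1, ⟨P.1.2, by rw [← aeval_vl]; exact P.2⟩⟩,
      fun P => ⟨(P.1, P.2.1), by rw [aeval_vl]; exact P.2.2⟩, fun _ => rfl, fun _ => rfl⟩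
  have h2 : (pointsT (F₀ + ∑ i, MvPolynomial.C (c i) * h i) d p : ℝ) = (p : ℝ) ^ (m + 1) +
      qc p (d : ZMod p) * ∑ P : Fin (m + 1) → ZMod p, qc p (vl F₀ h p (fun i => (c i : ZMod p)) P) := by
    rw [h1]
    push_cast
    rw [sum_congr rfl (fun P _ => card_sqrtT hp2 _ _ hd), sum_add_distrib, sum_const, nsmul_eq_mul, mul_one, card_univ, Fintype.card_fun,
      ZMod.card, Fintype.card_fin, ← mul_sum]
    push_cast
    ring
  unfold averageT
  rw [h2, fav_eq]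
  field_simp
  ring

/-- The Legendre symbol as a weight. -/
noncomputable def wt (d : ℤ) (p : ℕ) : ℝ := if p.Prime ∧ 3 ≤ p then (jacobiSym d p : ℝ) else 0

lemma wt_abs (d : ℤ) (p : ℕ) : |wt d p| ≤ 1 := by
  unfold wt
  split_ifs with h
  · rcases jacobiSym.trichotomy d p with h1 | h1 | h1 <;> rw [h1] <;> simp
  · simp

lemma jacobi_qc {p : ℕ} [hp : Fact p.Prime] (d : ℤ) : (jacobiSym d p : ℝ) = qc p (d : ZMod p) := by
  rw [← jacobiSym.legendreSym.to_jacobiSym]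
  rfl

theorem familyW {m : ℕ} (hm : 1 ≤ m) {ι : Type} [Fintype ι] [DecidableEq ι] [Nonempty ι] (F₀ : MvPolynomial (Fin (m + 1)) ℤ)
    (h : ι → MvPolynomial (Fin (m + 1)) ℤ) (D : ℕ) (hD : Odd D) (hF : MonicIn D F₀) (hh : ∀ i, LowIn D (h i)) (p₀ : ℕ) (ρ C₀ : ℝ)
    (hs : ∀ p : ℕ, p.Prime → p₀ ≤ p → Sep2 h p)
    (hbs : ∀ p : ℕ, p.Prime → p₀ ≤ p → |bsum F₀ h p - ρ * (p : ℝ) ^ m| ≤ C₀ * ((p : ℝ) ^ m / Real.sqrt p))
    (P : MvPolynomial ι ℤ) (hP : P ≠ 0) (b : ℕ) (hb : 2 ≤ b) (δ : ℝ) (hδ : 0 < δ) (hδ1 : δ ≤ 1 / 2) (A B : ℕ) :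
    ∃ c : ℝ, 0 < c ∧ ∃ y₀ : ℕ,
    ∀ (K r : ι → ℕ) (y : ℕ), (∀ l, 2 * r l ≤ K l) → y₀ ≤ y →
    ∀ N : ι → ℕ, (∀ l, N l < b ^ K l) → ∀ f : ι → ℕ → ℕ, (∀ l j, f l j < b ∧ f l j ≠ digit b j (N l)) → ∀ s : ι → ℤ,
    ∀ E : (ι → ℕ) → Prop, (∀ n : ι → ℕ, (∀ T₁ T₂ : ℕ, y ≤ T₁ → T₁ ≤ T₂ → (∀ l, (T₂ : ℝ) ≤ Real.exp (c * r l)) →
      ∀ d : ℤ, |d| ≤ (T₁ : ℤ) ^ B → ∀ R : Set ℕ,
      (∀ p ∈ R, (p : ℤ) ∣ MvPolynomial.eval (fun l => s l + n l) P) →
      ∀ (_ : DecidablePred fun p : ℕ => p.Prime ∧ p ∉ R ∧ ¬ (p : ℤ) ∣ 2 * d), ∀ z : ℂ, 1 / 2 + 2 * δ ≤ z.re →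
      ‖∑ p ∈ (Ico T₁ T₂).filter (fun p : ℕ => p.Prime ∧ p ∉ R ∧ ¬ (p : ℤ) ∣ 2 * d),
        (((averageT (F₀ + ∑ i, MvPolynomial.C (s i + n i) * h i) d p + ρ * jacobiSym d p) * Real.log p : ℝ) : ℂ) * (p : ℂ) ^ (-z)‖ ≤
        (2 + 4 * ‖z‖ / δ) * (T₁ : ℝ) ^ (-δ)) → E n) →
    (exceptions b K r N f E : ℝ) ≤ 1 / (y : ℝ) ^ A * ∏ l, ((K l).choose (r l) : ℝ) := by
  classical
  obtain ⟨c0, hc0⟩ : ∃ c0 : ι → ℤ, MvPolynomial.eval c0 P ≠ 0 := by
    by_contra hcon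
    push Not at hcon
    exact hP (MvPolynomial.funext fun c => by rw [hcon c, map_zero])
  have hdat := dat_fav (p0 := p₀) (r := ρ) hm (abs_nonneg C₀) hs fun p hp hge =>
    (hbs p hp hge).trans (mul_le_mul_of_nonneg_right (le_abs_self _) (by positivity))
  obtain ⟨K₁, hK₁⟩ : ∃ K₁ : ℝ, K₁ = 2 + |C₀| + 2 * (ρ ^ 2 + |C₀| ^ 2) := ⟨_, rfl⟩
  rw [← hK₁] at hdat
  have hK1 := hdat.K0
  have hD1 : (1 : ℝ) ≤ D := by exact_mod_cast hD.pos
  obtain ⟨c, hc, y₁, hcore⟩ := coreW ι b hb (1 / 2) (by norm_num) δ hδ A (B + 2) (D + |ρ|) (2 * K₁ + 2 * ρ ^ 2)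
    (P.totalDegree + |(MvPolynomial.eval c0 P : ℝ)|) (by have := abs_nonneg ρ; linarith) (by positivity) (by positivity) (p₀ + 3)
  refine ⟨c, hc, y₁ + 3, fun K r y hK hy N hN f hf s E hE => ?_⟩
  refine hcore K r y hK (by omega) N hN f hf (fun p c => fav F₀ h p (fun i => (s i : ZMod p) + c i) + ρ)
    (fun p c => BZ P p (fun i => (s i : ZMod p) + c i)) ?_ ?_ ?_ ?_ ?_
    (fun x => (Finset.Icc (-(x : ℤ) ^ B) ((x : ℤ) ^ B)).image wt) ?_ ?_ E ?_
  · intro p hp hp3 c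
    haveI : Fact p.Prime := ⟨hp⟩
    have h1 := fav_bound (p := p) hD hF hh (by omega) (fun i => (s i : ZMod p) + c i)
    have hsq : (1 : ℝ) ≤ Real.sqrt p := by
      rw [Real.one_le_sqrt]
      exact_mod_cast hp.one_lt.le
    rw [← Real.sqrt_eq_rpow]
    refine (abs_add_le _ _).trans ?_
    have h2 : |ρ| ≤ |ρ| * Real.sqrt p := le_mul_of_one_le_right (abs_nonneg _) hsq
    have h3 : ((D : ℝ) - 1) * Real.sqrt p ≤ D * Real.sqrt p := mul_le_mul_of_nonneg_right (by linarith) (by positivity)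
    rw [add_mul]
    linarith
  · intro p hpF hge
    rw [show (2 : ℝ) * (1 / 2) - 1 = 0 by norm_num, Real.rpow_zero, mul_one]
    have h1 := hdat.sq p hge
    have h2 : EM p (fun c : ι → ZMod p => (fav F₀ h p (fun i => (s i : ZMod p) + c i) + ρ) ^ 2) =
        EM p (fun c : ι → ZMod p => (fav F₀ h p c + ρ) ^ 2) :=
      EM_translate p (fun i => (s i : ZMod p)) (fun c => (fav F₀ h p c + ρ) ^ 2)
    rw [h2]
    have h3 : EM p (fun c : ι → ZMod p => (fav F₀ h p c + ρ) ^ 2) ≤ EM p (fun c : ι → ZMod p => 2 * fav F₀ h p c ^ 2 + 2 * ρ ^ 2) := by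
      apply EM_mono
      intro c
      nlinarith [sq_nonneg (fav F₀ h p c - ρ)]
    refine h3.trans ?_
    rw [EM_add, EM_mul, EM_const]
    linarith
  · intro p hpF hge
    have hp0 : (0 : ℝ) < p := by exact_mod_cast hpF.out.pos
    have h1 := hdat.mean p hge
    have h2 : EM p (fun c : ι → ZMod p => fav F₀ h p (fun i => (s i : ZMod p) + c i) + ρ) = EM p (fun c => fav F₀ h p c) - (-ρ) := by
      rw [EM_translate p (fun i => (s i : ZMod p)) (fun c => fav F₀ h p c + ρ), EM_add, EM_const]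
      ring
    rw [h2]
    refine h1.trans ?_
    have h3 : (p : ℝ) ^ ((1 : ℝ) / 2 - 1) = 1 / Real.sqrt p := by
      rw [Real.rpow_sub hp0, Real.rpow_one, ← Real.sqrt_eq_rpow]
      have h4 : Real.sqrt p * Real.sqrt p = p := Real.mul_self_sqrt hp0.le
      have h5 : Real.sqrt p ≠ 0 := by positivity
      rw [div_eq_div_iff hp0.ne' h5, h4, one_mul]
    rw [h3, mul_one_div]
    apply div_le_div_of_nonneg_right _ (by positivity)
    nlinarith [sq_nonneg ρ]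
  · intro p c
    exact BZ_cases P p _
  · intro p hpF
    rw [EM_translate p (fun i => (s i : ZMod p)) (fun c => BZ P p c)]
    exact EM_BZ P c0 hc0 p
  · intro x hx
    refine card_image_le.trans ?_
    rw [Int.card_Icc]
    have h1 : 1 ≤ x ^ B := Nat.one_le_pow _ _ (by omega)
    have h2 : ((x : ℤ) ^ B + 1 - -(x : ℤ) ^ B).toNat = 2 * x ^ B + 1 := by
      have : ((x : ℤ) ^ B + 1 - -(x : ℤ) ^ B) = ((2 * x ^ B + 1 : ℕ) : ℤ) := by push_cast; ring
      rw [this, Int.toNat_natCast]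
    rw [h2, pow_add]
    have h3 : 4 ≤ x ^ 2 := by nlinarith
    have h4 : x ^ B * 4 ≤ x ^ B * x ^ 2 := Nat.mul_le_mul_left _ h3
    omega
  · intro x w hw p
    rw [mem_image] at hw
    obtain ⟨d, _, rfl⟩ := hw
    exact wt_abs d p
  · intro n hn
    refine hE n fun T₁ T₂ hyT h12 hTr d hd R hR hdec z hz => ?_
    have hcast : ∀ p : ℕ, (fun i => (s i : ZMod p) + ((n i : ℕ) : ZMod p)) = fun i => (((s i + n i : ℤ)) : ZMod p) := by
      intro p
      funext i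
      push_cast
      rfl
    obtain ⟨a, ha⟩ : ∃ a : ℕ → ℝ, a = fun p => if p.Prime ∧ 3 ≤ p ∧ p ∉ R then
      wt d p * (fav F₀ h p (fun i => (s i : ZMod p) + ((n i : ℕ) : ZMod p)) + ρ) * Real.log p else 0 := ⟨_, rfl⟩
    have hS : ∀ T : ℕ, T₁ ≤ T → T ≤ T₂ → |∑ p ∈ range T, a p| ≤ (T : ℝ) ^ (1 / 2 + δ) := by
      intro T h1 h2
      have h3 := hn T (by omega) (by omega) (fun l => le_trans (by exact_mod_cast h2) (hTr l)) (wt d) (by
        rw [mem_image]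
        refine ⟨d, ?_, rfl⟩
        rw [mem_Icc]
        have h4 : (T₁ : ℤ) ^ B ≤ (T : ℤ) ^ B := pow_le_pow_left₀ (by positivity) (by exact_mod_cast h1) _
        have h5 := abs_le.1 (hd.trans h4)
        exact h5) R (fun p hp _ _ => by
        show BZ P p (fun i => (s i : ZMod p) + ((n i : ℕ) : ZMod p)) = 1
        rw [hcast]
        exact BZ_one_of_dvd P _ p (hR p hp)) (Classical.decPred _)
      refine le_trans (le_of_eq ?_) h3
      rw [ha, ← sum_filter]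
      congr 1
      apply sum_congr _ (fun _ _ => rfl)
      ext p
      simp only [mem_filter]
    have hmain := dirichlet_bound a (1 / 2 + δ) δ (by positivity) (by linarith) hδ (by linarith) T₁ T₂ (by omega) h12 hS z
      (by linarith)
    refine le_trans (le_of_eq ?_) hmain
    congr 1
    rw [sum_filter]
    refine sum_congr rfl fun p hp => ?_
    rw [mem_Ico] at hp
    rw [ha]
    dsimp only
    by_cases h1 : p.Prime ∧ p ∉ R ∧ ¬ (p : ℤ) ∣ 2 * d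
    · haveI : Fact p.Prime := ⟨h1.1⟩
      have hp3 : 3 ≤ p := by omega
      rw [if_pos h1, if_pos ⟨h1.1, hp3, h1.2.1⟩]
      have hd0 : (d : ZMod p) ≠ 0 := by
        intro h2
        rw [ZMod.intCast_zmod_eq_zero_iff_dvd] at h2
        exact h1.2.2 (Dvd.dvd.mul_left h2 2)
      congr 2
      rw [averageT_eq (by omega) F₀ h (fun i => s i + n i) d hd0]
      unfold wt
      rw [if_pos ⟨h1.1, hp3⟩, jacobi_qc, hcast]
      ring
    · rw [if_neg h1]
      by_cases h2 : p.Prime ∧ 3 ≤ p ∧ p ∉ R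
      · rw [if_pos h2]
        haveI : Fact p.Prime := ⟨h2.1⟩
        have h3 : (p : ℤ) ∣ d := by
          have h4 : (p : ℤ) ∣ 2 * d := by
            by_contra h5
            exact h1 ⟨h2.1, h2.2.2, h5⟩
          rcases (Nat.prime_iff_prime_int.1 h2.1).dvd_or_dvd h4 with h5 | h5
          · exfalso
            have h6 : p ∣ 2 := by exact_mod_cast h5
            have := Nat.le_of_dvd (by norm_num) h6
            omega
          · exact h5
        have h4 : wt d p = 0 := by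
          unfold wt
          rw [if_pos ⟨h2.1, h2.2.1⟩, jacobi_qc]
          have h5 : (d : ZMod p) = 0 := (ZMod.intCast_zmod_eq_zero_iff_dvd _ _).2 h3
          rw [h5]
          unfold qc
          simp
        rw [h4]
        simp
      · rw [if_neg h2]
        simp

end Pool.Agent.V11210.NF
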