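import Pool.Agent.V11210.NF.Prod2
import Pool.Agent.V11210.NF.CoreJ

/-!
# The Frobenius averages on the second cohomology of the fibres of products of curves over a common base
-/

set_option autoImplicit false

namespace Pool.Agent.V11210.NF.P2

open Finset Filter
open Pool.Agent.Y57.FD (digit change)
open Pool.Agent.Y722.HS (EM EM_mono EM_const)
open Pool.Agent.Y722.LS (EM_add EM_mul)
open Pool.Agent.Y722.PC (BZ EM_BZ)
open Pool.Agent.Y722.ST
open Pool.Agent.V11210.NF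

variable {m k q a₀ e : ℕ}

/-- The trace of the fibre of `d y² = F(x, t)` over the point `t`. -/
noncomputable def trace (F : MvPolynomial (Fin (m + 1 + 1)) ℤ) (d : ℤ) (p : ℕ) (t : Fin (m + 1) → ZMod p) : ℝ :=
  p - (Nat.card {P : ZMod p × ZMod p // (d : ZMod p) * P.2 ^ 2 = MvPolynomial.aeval (Fin.cons P.1 t : Fin (m + 1 + 1) → ZMod p) F} : ℝ)

/-- The polynomial number `i`. -/
noncomputable def poly (F : Fin k → MvPolynomial (Fin (m + 1 + 1)) ℤ) (c : Ix m k a₀ e → ℤ) (i : Fin k) : MvPolynomial (Fin (m + 1 + 1)) ℤ :=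
  F i + ∑ μ, MvPolynomial.C (c (i, μ)) * mn μ

lemma trace_eq {p : ℕ} [hp : Fact p.Prime] (hp2 : p ≠ 2) (F : Fin k → MvPolynomial (Fin (m + 1 + 1)) ℤ) (c : Ix m k a₀ e → ℤ)
    (i : Fin k) (d : ℤ) (hd : (d : ZMod p) ≠ 0) (t : Fin (m + 1) → ZMod p) :
    trace (poly F c i) d p t = qc p (d : ZMod p) * trc F (fun μ => (c μ : ZMod p)) i t := by
  classical
  have h1 : Nat.card {P : ZMod p × ZMod p // (d : ZMod p) * P.2 ^ 2 = MvPolynomial.aeval (Fin.cons P.1 t : Fin (m + 1 + 1) → ZMod p) (poly F c i)} =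
      ∑ x : ZMod p, Nat.card {y : ZMod p // (d : ZMod p) * y ^ 2 = vl (F i) mn p (fun μ => (c (i, μ) : ZMod p)) (Fin.cons x t)} := by
    rw [← Nat.card_sigma]
    unfold poly
    refine Nat.card_congr ⟨fun P => ⟨P.1.1, ⟨P.1.2, by rw [← aeval_vl]; exact P.2⟩⟩,
      fun P => ⟨(P.1, P.2.1), by rw [aeval_vl]; exact P.2.2⟩, fun _ => rfl, fun _ => rfl⟩
  unfold trace
  rw [h1]
  push_cast
  rw [sum_congr rfl (fun x _ => card_sqrtT hp2 _ _ hd), sum_add_distrib, sum_const, nsmul_eq_mul, mul_one, card_univ, ZMod.card,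
    ← mul_sum]
  unfold trc ch
  ring

/-- The pairs `i < j`. -/
def prs (q : ℕ) : Finset (Fin q × Fin q) := univ.filter (fun u => u.1 < u.2)

/-- The Frobenius average `𝔅_p`. -/
noncomputable def frob (F : Fin q → MvPolynomial (Fin (m + 1 + 1)) ℤ) (d : Fin q → ℤ) (p : ℕ) [NeZero p] : ℝ :=
  q * p + (∑ t : Fin (m + 1) → ZMod p, ∑ u ∈ prs q, trace (F u.1) (d u.1) p t * trace (F u.2) (d u.2) p t) / (p : ℝ) ^ (m + 1)

noncomputable def expected (σ : Fin q → Fin k) (d : Fin q → ℤ) (p : ℕ) : ℝ :=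
  q + ∑ u ∈ (prs q).filter (fun u => σ u.1 = σ u.2), (jacobiSym (d u.1 * d u.2) p : ℝ)

lemma frob_eq {p : ℕ} [hp : Fact p.Prime] (hp2 : p ≠ 2) (F : Fin k → MvPolynomial (Fin (m + 1 + 1)) ℤ) (c : Ix m k a₀ e → ℤ)
    (σ : Fin q → Fin k) (d : Fin q → ℤ) (hd : ∀ i, (d i : ZMod p) ≠ 0) :
    frob (fun i => poly F c (σ i)) d p - p * expected σ d p = p * ∑ u ∈ prs q, qc p ((d u.1 * d u.2 : ℤ) : ZMod p) *
      (GG F (σ u.1) (σ u.2) (fun μ => (c μ : ZMod p)) - (if σ u.1 = σ u.2 then 1 else 0)) := by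
  classical
  have hp0 : (0 : ℝ) < p := by exact_mod_cast hp.out.pos
  have hmul : ∀ u : Fin q × Fin q, qc p ((d u.1 * d u.2 : ℤ) : ZMod p) = qc p (d u.1 : ZMod p) * qc p (d u.2 : ZMod p) := by
    intro u
    unfold qc
    push_cast
    rw [map_mul]
    push_cast
    rfl
  unfold frob expected
  have h1 : (∑ t : Fin (m + 1) → ZMod p, ∑ u ∈ prs q, trace (poly F c (σ u.1)) (d u.1) p t * trace (poly F c (σ u.2)) (d u.2) p t) / (p : ℝ) ^ (m + 1) =
      p * ∑ u ∈ prs q, qc p ((d u.1 * d u.2 : ℤ) : ZMod p) * GG F (σ u.1) (σ u.2) (fun μ => (c μ : ZMod p)) := by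
    rw [sum_comm, sum_div, mul_sum]
    refine sum_congr rfl fun u _ => ?_
    have h2 : ∑ t : Fin (m + 1) → ZMod p, trace (poly F c (σ u.1)) (d u.1) p t * trace (poly F c (σ u.2)) (d u.2) p t =
        (qc p (d u.1 : ZMod p) * qc p (d u.2 : ZMod p)) * ∑ t : Fin (m + 1) → ZMod p, trc F (fun μ => (c μ : ZMod p)) (σ u.1) t * trc F (fun μ => (c μ : ZMod p)) (σ u.2) t := by
      rw [mul_sum]
      refine sum_congr rfl fun t _ => ?_
      rw [trace_eq hp2 F c (σ u.1) (d u.1) (hd _), trace_eq hp2 F c (σ u.2) (d u.2) (hd _)]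
      ring
    rw [h2, hmul]
    unfold GG
    have e1 : (p : ℝ) ^ (m + 2) = (p : ℝ) ^ (m + 1) * p := pow_succ _ _
    rw [e1]
    field_simp
  rw [h1]
  have h3 : ∑ u ∈ (prs q).filter (fun u => σ u.1 = σ u.2), (jacobiSym (d u.1 * d u.2) p : ℝ) =
      ∑ u ∈ prs q, qc p ((d u.1 * d u.2 : ℤ) : ZMod p) * (if σ u.1 = σ u.2 then 1 else 0) := by
    rw [sum_filter]
    refine sum_congr rfl fun u _ => ?_
    split_ifs with h4
    · rw [mul_one, jacobi_qc]
    · rw [mul_zero]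
  rw [h3]
  simp only [mul_sub, sum_sub_distrib]
  ring

theorem h2 [NeZero k] (ha : 2 ≤ a₀) (he : 1 ≤ e) (F : Fin k → MvPolynomial (Fin (m + 1 + 1)) ℤ) (D : Fin k → ℕ) (hD : ∀ i, Odd (D i))
    (hF : ∀ i, MonicIn (D i) (F i)) (haD : ∀ i, a₀ ≤ D i) (σ : Fin q → Fin k) (θ : ℝ) (hθ : θ = 1 / 2 ∨ (θ = 0 ∧ Function.Injective σ))
    (P : MvPolynomial (Ix m k a₀ e) ℤ) (hP : P ≠ 0) (b : ℕ) (hb : 2 ≤ b) (δ : ℝ) (hδ : 0 < δ) (hδ1 : δ ≤ 1 / 2) (A B : ℕ) :
    ∃ c : ℝ, 0 < c ∧ ∃ y₀ : ℕ,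
    ∀ (K r : Ix m k a₀ e → ℕ) (y : ℕ), (∀ l, 2 * r l ≤ K l) → y₀ ≤ y →
    ∀ N : Ix m k a₀ e → ℕ, (∀ l, N l < b ^ K l) → ∀ f : Ix m k a₀ e → ℕ → ℕ, (∀ l j, f l j < b ∧ f l j ≠ digit b j (N l)) →
    ∀ s : Ix m k a₀ e → ℤ, ∀ E : (Ix m k a₀ e → ℕ) → Prop,
    (∀ n : Ix m k a₀ e → ℕ, (∀ T₁ T₂ : ℕ, y ≤ T₁ → T₁ ≤ T₂ → (∀ l, (T₂ : ℝ) ≤ Real.exp (c * r l)) →
      ∀ d : Fin q → ℤ, (∀ i, |d i| ≤ (T₁ : ℤ) ^ B) → ∀ R : Set ℕ,
      (∀ p ∈ R, (p : ℤ) ∣ MvPolynomial.eval (fun l => s l + n l) P) →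
      ∀ (_ : DecidablePred fun p : ℕ => p.Prime ∧ p ∉ R ∧ ∀ i, ¬ (p : ℤ) ∣ 2 * d i), ∀ z : ℂ, 1 + θ + 2 * δ ≤ z.re →
      ∀ X : ℕ → ℝ, (∀ p : ℕ, ∀ [Fact p.Prime], 3 ≤ p → (∀ i, (d i : ZMod p) ≠ 0) →
        X p = frob (fun i => poly F (fun l => s l + n l) (σ i)) d p - p * expected σ d p) →
      ‖∑ p ∈ (Ico T₁ T₂).filter (fun p : ℕ => p.Prime ∧ p ∉ R ∧ ∀ i, ¬ (p : ℤ) ∣ 2 * d i),
        ((X p * Real.log p : ℝ) : ℂ) * (p : ℂ) ^ (-z)‖ ≤ (q : ℝ) ^ 2 * ((2 + 4 * ‖z - 1‖ / δ) * (T₁ : ℝ) ^ (-δ))) → E n) →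
    (exceptions b K r N f E : ℝ) ≤ 1 / (y : ℝ) ^ A * ∏ l, ((K l).choose (r l) : ℝ) := by
  classical
  haveI : Nonempty (Ix m k a₀ e) := ⟨(0, (⟨0, by omega⟩, fun _ => 0))⟩
  obtain ⟨c0, hc0⟩ : ∃ c0 : Ix m k a₀ e → ℤ, MvPolynomial.eval c0 P ≠ 0 := by
    by_contra hcon
    push Not at hcon
    exact hP (MvPolynomial.funext fun c => by rw [hcon c, map_zero])
  obtain ⟨Dm, hDm⟩ : ∃ Dm : ℝ, Dm = ((∑ i, D i : ℕ) : ℝ) ^ 2 := ⟨_, rfl⟩
  have hDm0 : 0 ≤ Dm := by rw [hDm]; positivity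
  obtain ⟨B', hB'⟩ : ∃ B' : ℕ, B' = B * (2 + 2 * q) := ⟨_, rfl⟩
  obtain ⟨ϑ, hϑ⟩ : ∃ ϑ : Fin k × Fin k → ℝ, ϑ = fun u => if u.1 = u.2 then 1 / 2 else 0 := ⟨_, rfl⟩
  obtain ⟨c, hc, y₁, hcore⟩ := coreJ (Ix m k a₀ e) (Fin k × Fin k) b hb ϑ (by
    intro u
    rw [hϑ]
    dsimp only
    split_ifs <;> norm_num) δ hδ A (B' + 2) (Dm + 1) ((Dm + 1) ^ 2 + 1)
    (P.totalDegree + |(MvPolynomial.eval c0 P : ℝ)|) (by linarith) (by positivity) (by positivity) 3
  refine ⟨c, hc, y₁ + 3, fun K r y hK hy N hN f hf s E hE => ?_⟩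
  obtain ⟨W, hW⟩ : ∃ W : Fin k × Fin k → ∀ p : ℕ, (Ix m k a₀ e → ZMod p) → ℝ, W = fun u p c => if hp : p.Prime then
    (haveI : Fact p.Prime := ⟨hp⟩; GG F u.1 u.2 (fun μ => (s μ : ZMod p) + c μ)) - (if u.1 = u.2 then 1 else 0) else 0 := ⟨_, rfl⟩
  have hWp : ∀ (u : Fin k × Fin k) (p : ℕ) [Fact p.Prime] (c : Ix m k a₀ e → ZMod p),
      W u p c = GG F u.1 u.2 (fun μ => (s μ : ZMod p) + c μ) - (if u.1 = u.2 then 1 else 0) := by
    intro u p hpF c
    rw [hW]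
    dsimp only
    rw [dif_pos hpF.out]
  have hWb : ∀ (u : Fin k × Fin k) (p : ℕ) [Fact p.Prime] (c : Ix m k a₀ e → ZMod p), 3 ≤ p → |W u p c| ≤ Dm + 1 := by
    intro u p hpF c hp3
    rw [hWp]
    have h1 := GG_abs F hD hF haD (by omega : p ≠ 2) u.1 u.2 (fun μ => (s μ : ZMod p) + c μ)
    rw [← hDm] at h1
    have h2 : |(if u.1 = u.2 then (1 : ℝ) else 0)| ≤ 1 := by split_ifs <;> simp
    exact (abs_sub _ _).trans (add_le_add h1 h2)
  refine hcore K r y hK (by omega) N hN f hf W (fun p c => BZ P p (fun i => (s i : ZMod p) + c i)) ?_ ?_ ?_ ?_ ?_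
    (fun x => (Finset.Icc (-(x : ℤ) ^ B') ((x : ℤ) ^ B')).image wt) ?_ ?_ E ?_
  · intro u p hp hp3 c
    haveI : Fact p.Prime := ⟨hp⟩
    refine (hWb u p c hp3).trans ?_
    apply le_mul_of_one_le_right (by linarith)
    apply Real.one_le_rpow (by exact_mod_cast hp.one_lt.le)
    rw [hϑ]
    dsimp only
    split_ifs <;> norm_num
  · intro u p hpF hge
    have hp0 : (0 : ℝ) < p := by exact_mod_cast hpF.out.pos
    by_cases hu : u.1 = u.2
    · have e1 : ϑ u = 1 / 2 := by rw [hϑ]; simp [hu]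
      rw [e1, show (2 : ℝ) * (1 / 2) - 1 = 0 by norm_num, Real.rpow_zero, mul_one]
      refine (EM_mono p _ (fun _ => (Dm + 1) ^ 2) fun c => ?_).trans ?_
      · rw [← sq_abs]
        exact pow_le_pow_left₀ (abs_nonneg _) (hWb u p c hge) 2
      · rw [EM_const]
        linarith
    · have e1 : ϑ u = 0 := by rw [hϑ]; simp [hu]
      rw [e1, mul_zero, zero_sub, Real.rpow_neg_one]
      have h1 : (fun c : Ix m k a₀ e → ZMod p => W u p c ^ 2) = fun c => GG F u.1 u.2 (fun μ => (s μ : ZMod p) + c μ) ^ 2 := by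
        funext c
        rw [hWp, if_neg hu, sub_zero]
      rw [h1, EM_translate p (fun μ => (s μ : ZMod p)) (fun c => GG F u.1 u.2 c ^ 2)]
      refine (EM_GG_sq F (by omega : p ≠ 2) ha he u.1 u.2 hu).trans ?_
      rw [one_div]
      apply le_mul_of_one_le_left (by positivity)
      nlinarith [sq_nonneg (Dm + 1)]
  · intro u p hpF hge
    have hp0 : (0 : ℝ) < p := by exact_mod_cast hpF.out.pos
    have hp1 : (1 : ℝ) ≤ p := by exact_mod_cast hpF.out.one_lt.le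
    have h0 : EM p (W u p) = EM p (fun c : Ix m k a₀ e → ZMod p => GG F u.1 u.2 c) - (if u.1 = u.2 then 1 else 0) := by
      have h1 : W u p = fun c => GG F u.1 u.2 (fun μ => (s μ : ZMod p) + c μ) + (-(if u.1 = u.2 then (1 : ℝ) else 0)) := by
        funext c
        rw [hWp]
        ring
      rw [h1, EM_add, EM_const, EM_translate p (fun μ => (s μ : ZMod p)) (fun c => GG F u.1 u.2 c)]
      ring
    rw [h0]
    by_cases hu : u.1 = u.2
    · have e1 : ϑ u = 1 / 2 := by rw [hϑ]; simp [hu]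
      rw [e1, if_pos hu, ← hu, EM_GG_eq F (by omega : p ≠ 2) ha he u.1]
      have h1 : |(1 : ℝ) - 1 / p - 1| = 1 / p := by
        rw [show (1 : ℝ) - 1 / p - 1 = -(1 / p) by ring, abs_neg, abs_of_pos (by positivity)]
      rw [h1]
      have h2 : (p : ℝ) ^ (-1 : ℝ) ≤ (p : ℝ) ^ ((1 : ℝ) / 2 - 1) := Real.rpow_le_rpow_of_exponent_le hp1 (by norm_num)
      rw [Real.rpow_neg_one] at h2
      rw [one_div]
      refine h2.trans (le_mul_of_one_le_left (by positivity) ?_)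
      nlinarith [sq_nonneg (Dm + 1)]
    · rw [if_neg hu, sub_zero, EM_GG_ne F (by omega : p ≠ 2) ha u.1 u.2 hu, abs_zero]
      positivity
  · intro p c
    exact BZ_cases P p _
  · intro p hpF
    rw [EM_translate p (fun i => (s i : ZMod p)) (fun c => BZ P p c)]
    exact EM_BZ P c0 hc0 p
  · intro x hx
    refine card_image_le.trans ?_
    rw [Int.card_Icc]
    have h1 : 1 ≤ x ^ B' := Nat.one_le_pow _ _ (by omega)
    have h2 : ((x : ℤ) ^ B' + 1 - -(x : ℤ) ^ B').toNat = 2 * x ^ B' + 1 := by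
      have : ((x : ℤ) ^ B' + 1 - -(x : ℤ) ^ B') = ((2 * x ^ B' + 1 : ℕ) : ℤ) := by push_cast; ring
      rw [this, Int.toNat_natCast]
    rw [h2, pow_add]
    have h3 : 4 ≤ x ^ 2 := by nlinarith
    have h4 : x ^ B' * 4 ≤ x ^ B' * x ^ 2 := Nat.mul_le_mul_left _ h3
    omega
  · intro x w hw p
    rw [mem_image] at hw
    obtain ⟨d, _, rfl⟩ := hw
    exact wt_abs d p
  · intro n hn
    refine hE n fun T₁ T₂ hyT h12 hTr d hd R hR hdec z hz X hX => ?_
    have hT1 : (1 : ℤ) ≤ T₁ := by exact_mod_cast (by omega : 1 ≤ T₁)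
    have hcast : ∀ p : ℕ, (fun i => (s i : ZMod p) + ((n i : ℕ) : ZMod p)) = fun i => (((s i + n i : ℤ)) : ZMod p) := by
      intro p
      funext i
      push_cast
      rfl
    obtain ⟨Δ, hΔ⟩ : ∃ Δ : ℤ, Δ = ∏ i, d i := ⟨_, rfl⟩
    have hΔb : |Δ| ≤ (T₁ : ℤ) ^ (B * q) := by
      rw [hΔ, abs_prod]
      calc ∏ i, |d i| ≤ ∏ _i : Fin q, (T₁ : ℤ) ^ B := prod_le_prod (fun i _ => abs_nonneg _) (fun i _ => hd i)
        _ = (T₁ : ℤ) ^ (B * q) := by rw [prod_const, card_univ, Fintype.card_fin, ← pow_mul]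
    obtain ⟨dd, hdd⟩ : ∃ dd : Fin q × Fin q → ℤ, dd = fun u => d u.1 * d u.2 * Δ ^ 2 := ⟨_, rfl⟩
    have hddb : ∀ u, |dd u| ≤ (T₁ : ℤ) ^ B' := by
      intro u
      rw [hdd, hB']
      dsimp only
      rw [abs_mul, abs_mul, abs_pow]
      calc |d u.1| * |d u.2| * |Δ| ^ 2 ≤ (T₁ : ℤ) ^ B * (T₁ : ℤ) ^ B * ((T₁ : ℤ) ^ (B * q)) ^ 2 := by
            apply mul_le_mul (mul_le_mul (hd _) (hd _) (abs_nonneg _) (by positivity)) (pow_le_pow_left₀ (abs_nonneg _) hΔb 2)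
              (by positivity) (by positivity)
        _ = (T₁ : ℤ) ^ (B * (2 + 2 * q)) := by
            rw [← pow_mul, ← pow_add, ← pow_add]
            congr 1
            ring
    obtain ⟨a, ha'⟩ : ∃ a : Fin q × Fin q → ℕ → ℝ, a = fun u p => if p.Prime ∧ 3 ≤ p ∧ p ∉ R then
      wt (dd u) p * W (σ u.1, σ u.2) p (fun i => ((n i : ℕ) : ZMod p)) * Real.log p else 0 := ⟨_, rfl⟩
    have hϑθ : ∀ u ∈ prs q, ϑ (σ u.1, σ u.2) ≤ θ := by
      intro u hu
      rw [hϑ]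
      dsimp only
      unfold prs at hu
      rw [mem_filter] at hu
      rcases hθ with h1 | ⟨h1, h2⟩
      · rw [h1]
        split_ifs <;> norm_num
      · rw [h1, if_neg]
        intro h3
        exact absurd (h2 h3) (ne_of_lt hu.2)
    have hpair : ∀ u ∈ prs q, ‖∑ p ∈ Ico T₁ T₂, (a u p : ℂ) * (p : ℂ) ^ (-(z - 1))‖ ≤ (2 + 4 * ‖z - 1‖ / δ) * (T₁ : ℝ) ^ (-δ) := by
      intro u hu
      have hϑ1 : ϑ (σ u.1, σ u.2) ≤ 1 / 2 := by rw [hϑ]; dsimp only; split_ifs <;> norm_num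
      have hϑ0 : 0 ≤ ϑ (σ u.1, σ u.2) := by rw [hϑ]; dsimp only; split_ifs <;> norm_num
      refine dirichlet_bound (a u) (ϑ (σ u.1, σ u.2) + δ) δ (by linarith) (by linarith) hδ (by linarith) T₁ T₂ (by omega) h12 ?_
        (z - 1) ?_
      · intro T h1 h2
        have h3 := hn T (by omega) (by omega) (fun l => le_trans (by exact_mod_cast h2) (hTr l)) (σ u.1, σ u.2) (wt (dd u)) (by
          rw [mem_image]
          refine ⟨dd u, ?_, rfl⟩
          rw [mem_Icc]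
          have h4 : (T₁ : ℤ) ^ B' ≤ (T : ℤ) ^ B' := pow_le_pow_left₀ (by positivity) (by exact_mod_cast h1) _
          have h5 := abs_le.1 ((hddb u).trans h4)
          exact h5) R (fun p hp _ _ => by
          show BZ P p (fun i => (s i : ZMod p) + ((n i : ℕ) : ZMod p)) = 1
          rw [hcast]
          exact BZ_one_of_dvd P _ p (hR p hp)) (Classical.decPred _)
        refine le_trans (le_of_eq ?_) h3
        rw [ha', ← sum_filter]
        congr 1
        apply sum_congr _ (fun _ _ => rfl)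
        ext p
        simp only [mem_filter]
      · have h1 := hϑθ u hu
        rw [Complex.sub_re, Complex.one_re]
        linarith
    have hsum : ∑ p ∈ (Ico T₁ T₂).filter (fun p : ℕ => p.Prime ∧ p ∉ R ∧ ∀ i, ¬ (p : ℤ) ∣ 2 * d i),
        ((X p * Real.log p : ℝ) : ℂ) * (p : ℂ) ^ (-z) = ∑ u ∈ prs q, ∑ p ∈ Ico T₁ T₂, (a u p : ℂ) * (p : ℂ) ^ (-(z - 1)) := by
      rw [sum_comm, sum_filter]
      refine sum_congr rfl fun p hp => ?_
      rw [mem_Ico] at hp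
      rw [ha']
      dsimp only
      by_cases h1 : p.Prime ∧ p ∉ R ∧ ∀ i, ¬ (p : ℤ) ∣ 2 * d i
      · haveI : Fact p.Prime := ⟨h1.1⟩
        have hp3 : 3 ≤ p := by omega
        have hp2 : p ≠ 2 := by omega
        have hpc : (p : ℂ) ≠ 0 := by exact_mod_cast h1.1.ne_zero
        have hd0 : ∀ i, (d i : ZMod p) ≠ 0 := by
          intro i h2
          rw [ZMod.intCast_zmod_eq_zero_iff_dvd] at h2
          exact h1.2.2 i (Dvd.dvd.mul_left h2 2)
        rw [if_pos h1]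
        have hX1 := hX p hp3 hd0
        rw [frob_eq hp2 F (fun l => s l + n l) σ d hd0] at hX1
        rw [hX1]
        have hpz : (p : ℂ) * (p : ℂ) ^ (-z) = (p : ℂ) ^ (-(z - 1)) := by
          rw [neg_sub, sub_eq_add_neg, Complex.cpow_add _ _ hpc, Complex.cpow_one]
        have hΔ0 : (Δ : ZMod p) ≠ 0 := by
          rw [hΔ]
          push_cast
          exact prod_ne_zero_iff.2 fun i _ => hd0 i
        have hterm : ∀ u ∈ prs q, (if p.Prime ∧ 3 ≤ p ∧ p ∉ R then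
            wt (dd u) p * W (σ u.1, σ u.2) p (fun i => ((n i : ℕ) : ZMod p)) * Real.log p else 0) =
            (qc p ((d u.1 * d u.2 : ℤ) : ZMod p) * (GG F (σ u.1) (σ u.2) (fun μ => ((s μ + n μ : ℤ) : ZMod p)) -
              (if σ u.1 = σ u.2 then 1 else 0))) * Real.log p := by
          intro u _
          rw [if_pos ⟨h1.1, hp3, h1.2.1⟩, hWp, hcast]
          have h2 : wt (dd u) p = qc p ((d u.1 * d u.2 : ℤ) : ZMod p) := by
            unfold wt
            rw [if_pos ⟨h1.1, hp3⟩, jacobi_qc, hdd]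
            unfold qc
            push_cast
            rw [map_mul, map_pow, quadraticChar_sq_one hΔ0, mul_one]
          rw [h2]
        have hR2 : ∑ u ∈ prs q, (((if p.Prime ∧ 3 ≤ p ∧ p ∉ R then
            wt (dd u) p * W (σ u.1, σ u.2) p (fun i => ((n i : ℕ) : ZMod p)) * Real.log p else 0 : ℝ)) : ℂ) * (p : ℂ) ^ (-(z - 1)) =
            (∑ u ∈ prs q, ((((qc p ((d u.1 * d u.2 : ℤ) : ZMod p) * (GG F (σ u.1) (σ u.2) (fun μ => ((s μ + n μ : ℤ) : ZMod p)) -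
              (if σ u.1 = σ u.2 then 1 else 0))) * Real.log p : ℝ) : ℂ))) * (p : ℂ) ^ (-(z - 1)) := by
          rw [sum_mul]
          exact sum_congr rfl fun u hu => by rw [hterm u hu]
        have hlast : ((∑ u ∈ prs q, ((((qc p ((d u.1 * d u.2 : ℤ) : ZMod p) * (GG F (σ u.1) (σ u.2) (fun μ => ((s μ + n μ : ℤ) : ZMod p)) -
              (if σ u.1 = σ u.2 then 1 else 0))) * Real.log p : ℝ) : ℂ)))) =
            (((∑ u ∈ prs q, qc p ((d u.1 * d u.2 : ℤ) : ZMod p) * (GG F (σ u.1) (σ u.2) (fun μ => ((s μ + n μ : ℤ) : ZMod p)) -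
              (if σ u.1 = σ u.2 then 1 else 0))) * Real.log p : ℝ) : ℂ) := by
          rw [sum_mul, Complex.ofReal_sum]
        rw [hR2, hlast, ← hpz]
        push_cast
        ring
      · rw [if_neg h1]
        symm
        apply sum_eq_zero
        intro u _
        by_cases h2 : p.Prime ∧ 3 ≤ p ∧ p ∉ R
        · rw [if_pos h2]
          haveI : Fact p.Prime := ⟨h2.1⟩
          have h3 : ∃ i, (p : ℤ) ∣ d i := by
            have h4 : ∃ i, (p : ℤ) ∣ 2 * d i := by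
              by_contra h5
              push Not at h5
              exact h1 ⟨h2.1, h2.2.2, h5⟩
            obtain ⟨i, hi⟩ := h4
            rcases (Nat.prime_iff_prime_int.1 h2.1).dvd_or_dvd hi with h5 | h5
            · exfalso
              have h6 : p ∣ 2 := by exact_mod_cast h5
              have := Nat.le_of_dvd (by norm_num) h6
              omega
            · exact ⟨i, h5⟩
          obtain ⟨i, hi⟩ := h3
          have h4 : wt (dd u) p = 0 := by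
            unfold wt
            rw [if_pos ⟨h2.1, h2.2.1⟩, jacobi_qc]
            have h5 : (dd u : ZMod p) = 0 := by
              rw [ZMod.intCast_zmod_eq_zero_iff_dvd, hdd, hΔ]
              dsimp only
              exact Dvd.dvd.mul_left (dvd_pow (hi.trans (dvd_prod_of_mem d (mem_univ i))) (by norm_num)) _
            rw [h5]
            unfold qc
            simp
          rw [h4]
          simp
        · rw [if_neg h2]
          simp
    rw [hsum]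
    refine (norm_sum_le _ _).trans ((sum_le_sum hpair).trans ?_)
    rw [sum_const, nsmul_eq_mul]
    apply mul_le_mul_of_nonneg_right _ (by positivity)
    have h1 : (prs q).card ≤ q * q := by
      unfold prs
      refine (card_filter_le _ _).trans ?_
      rw [card_univ, Fintype.card_prod, Fintype.card_fin]
    have h2 : ((prs q).card : ℝ) ≤ ((q * q : ℕ) : ℝ) := by exact_mod_cast h1
    refine h2.trans (le_of_eq ?_)
    push_cast
    ring

end Pool.Agent.V11210.NF.P2
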