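import Pool.Agent.V11210.NF.FamW

/-!
# Elliptic surfaces `d y² = x³ + A(t) x + B(t)` over the projective line, `deg A ≤ 4 n`, `deg B ≤ 6 n`
-/

set_option autoImplicit false

namespace Pool.Agent.V11210.NF.K3

open Finset Filter
open Pool.Agent.Y57.FD (digit change)
open Pool.Agent.Y722.HS (EM EM_mono EM_const)
open Pool.Agent.Y722.LS (EM_add EM_mul)
open Pool.Agent.Y722.PC (BZ EM_BZ)
open Pool.Agent.Y722.ST
open Pool.Agent.V11210.NF

variable {n : ℕ}

/-- The index set of the coefficients. -/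
abbrev Co (n : ℕ) : Type := Fin (4 * n + 1) ⊕ Fin (6 * n + 1)

noncomputable def F₀ : MvPolynomial (Fin (1 + 1)) ℤ := MvPolynomial.X 0 ^ 3

noncomputable def hh : Co n → MvPolynomial (Fin (1 + 1)) ℤ
  | Sum.inl i => MvPolynomial.X 0 * MvPolynomial.X 1 ^ (i : ℕ)
  | Sum.inr i => MvPolynomial.X 1 ^ (i : ℕ)

lemma fse_one : MvPolynomial.finSuccEquiv ℤ 1 (MvPolynomial.X 1) = Polynomial.C (MvPolynomial.X 0) := by
  have h := MvPolynomial.finSuccEquiv_X_succ (R := ℤ) (n := 1) (j := 0)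
  exact h

lemma monic_F₀ : MonicIn 3 F₀ := by
  unfold MonicIn F₀
  rw [map_pow, MvPolynomial.finSuccEquiv_X_zero]
  exact ⟨Polynomial.monic_X_pow 3, Polynomial.natDegree_X_pow 3⟩

lemma low_hh (i : Co n) : LowIn 3 (hh i) := by
  unfold LowIn
  rcases i with i | i
  · show (MvPolynomial.finSuccEquiv ℤ 1 (MvPolynomial.X 0 * MvPolynomial.X 1 ^ (i : ℕ))).degree < ((3 : ℕ) : WithBot ℕ)
    rw [map_mul, map_pow, MvPolynomial.finSuccEquiv_X_zero, fse_one, ← Polynomial.C_pow]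
    refine lt_of_le_of_lt (Polynomial.degree_mul_le _ _) ?_
    have h1 : (Polynomial.X : Polynomial (MvPolynomial (Fin 1) ℤ)).degree + (Polynomial.C (MvPolynomial.X (0 : Fin 1) ^ (i : ℕ) : MvPolynomial (Fin 1) ℤ)).degree ≤
        1 + 0 := add_le_add Polynomial.degree_X_le Polynomial.degree_C_le
    refine lt_of_le_of_lt h1 ?_
    norm_num
  · show (MvPolynomial.finSuccEquiv ℤ 1 (MvPolynomial.X 1 ^ (i : ℕ))).degree < ((3 : ℕ) : WithBot ℕ)
    rw [map_pow, fse_one, ← Polynomial.C_pow]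
    refine lt_of_le_of_lt Polynomial.degree_C_le ?_
    norm_num

lemma aeval_inl {p : ℕ} (P : Fin (1 + 1) → ZMod p) (i : Fin (4 * n + 1)) :
    MvPolynomial.aeval P (hh (Sum.inl i : Co n)) = P 0 * P 1 ^ (i : ℕ) := by
  show MvPolynomial.aeval P (MvPolynomial.X 0 * MvPolynomial.X 1 ^ (i : ℕ)) = _
  simp

lemma aeval_inr {p : ℕ} (P : Fin (1 + 1) → ZMod p) (i : Fin (6 * n + 1)) :
    MvPolynomial.aeval P (hh (Sum.inr i : Co n)) = P 1 ^ (i : ℕ) := by
  show MvPolynomial.aeval P (MvPolynomial.X 1 ^ (i : ℕ)) = _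
  simp

lemma sep_hh (hn : 1 ≤ n) (p : ℕ) [Fact p.Prime] : Sep2 (hh : Co n → _) p := by
  intro P Q hPQ _
  have key : ∀ (k : Co n) (v : ZMod p), (∀ R : Fin (1 + 1) → ZMod p, ∑ i : Co n, ((Pi.single k (1 : ZMod p) : Co n → ZMod p) i -
      v * (Pi.single (Sum.inr 0) (1 : ZMod p) : Co n → ZMod p) i) * MvPolynomial.aeval R (hh i) = MvPolynomial.aeval R (hh k) - v) := by
    intro k v R
    simp only [sub_mul, sum_sub_distrib, mul_assoc, ← mul_sum]
    rw [sum_eq_single k (fun b _ hb => by rw [Pi.single_eq_of_ne hb, zero_mul]) (fun h => absurd (mem_univ _) h),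
      sum_eq_single (Sum.inr 0) (fun b _ hb => by rw [Pi.single_eq_of_ne hb, zero_mul]) (fun h => absurd (mem_univ _) h),
      Pi.single_eq_same, Pi.single_eq_same, one_mul, one_mul, aeval_inr]
    simp
  by_cases h0 : P 0 = Q 0
  · have h1 : P 1 ≠ Q 1 := by
      intro h1
      apply hPQ
      funext i
      fin_cases i
      · exact h0
      · exact h1
    obtain ⟨one, hone⟩ : ∃ one : Fin (6 * n + 1), (one : ℕ) = 1 := ⟨⟨1, by omega⟩, rfl⟩
    refine ⟨fun i => (Pi.single (Sum.inr one) (1 : ZMod p) : Co n → ZMod p) i -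
      Q 1 * (Pi.single (Sum.inr 0) (1 : ZMod p) : Co n → ZMod p) i, ?_, ?_⟩
    · rw [key, aeval_inr, hone, pow_one]
      exact sub_ne_zero.2 h1
    · rw [key, aeval_inr, hone, pow_one, sub_self]
  · refine ⟨fun i => (Pi.single (Sum.inl 0) (1 : ZMod p) : Co n → ZMod p) i -
      Q 0 * (Pi.single (Sum.inr 0) (1 : ZMod p) : Co n → ZMod p) i, ?_, ?_⟩
    · rw [key, aeval_inl]
      simpa using sub_ne_zero.2 h0
    · rw [key, aeval_inl]
      simp

lemma base_hh (p : ℕ) [Fact p.Prime] : base (hh : Co n → _) p = ∅ := by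
  classical
  rw [base, filter_eq_empty_iff]
  intro P _ h
  have := h (Sum.inr 0)
  rw [aeval_inr] at this
  simp at this

/-- `x³ + A x + B` with the coefficients of the powers `t^(4n)`, `t^(6n)`. -/
noncomputable def infSum {p : ℕ} [Fact p.Prime] (c : Co n → ZMod p) : ℝ :=
  ∑ x : ZMod p, qc p (x ^ 3 + c (Sum.inl (Fin.last _)) * x + c (Sum.inr (Fin.last _)))

lemma infSum_bound {p : ℕ} [hp : Fact p.Prime] (hp2 : p ≠ 2) (c : Co n → ZMod p) : |infSum c| ≤ 2 * Real.sqrt p := by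
  classical
  obtain ⟨a, ha⟩ : ∃ a, a = c (Sum.inl (Fin.last _)) := ⟨_, rfl⟩
  obtain ⟨b, hb⟩ : ∃ b, b = c (Sum.inr (Fin.last _)) := ⟨_, rfl⟩
  obtain ⟨g, hg⟩ : ∃ g : Polynomial (ZMod p), g = Polynomial.X ^ 3 + (Polynomial.C a * Polynomial.X + Polynomial.C b) := ⟨_, rfl⟩
  have hdeg : (Polynomial.C a * Polynomial.X + Polynomial.C b : Polynomial (ZMod p)).degree < ((3 : ℕ) : WithBot ℕ) := by
    refine lt_of_le_of_lt Polynomial.degree_linear_le ?_
    norm_num
  have hm : g.Monic := by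
    rw [hg]
    exact Polynomial.monic_X_pow_add hdeg
  have hn : g.natDegree = 3 := by
    rw [hg, Polynomial.natDegree_add_eq_left_of_degree_lt (by rw [Polynomial.degree_X_pow]; exact hdeg), Polynomial.natDegree_X_pow]
  have h1 := Pool.Agent.H341R2.Sharp.weil_sharp_monic (F := ZMod p) (by rw [ZMod.ringChar_zmod_n]; exact hp2) hm (by omega) (by
    intro u v hc
    have hu0 : u ≠ 0 := by
      rintro rfl
      rw [Polynomial.C_0, zero_mul] at hc
      exact hm.ne_zero hc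
    rw [hc, Polynomial.natDegree_C_mul hu0, Polynomial.natDegree_pow] at hn
    omega)
  rw [hn, ZMod.card] at h1
  have h2 : ∀ x : ZMod p, g.eval x = x ^ 3 + a * x + b := by
    intro x
    rw [hg]
    simp
    ring
  simp only [h2] at h1
  unfold infSum
  rw [← ha, ← hb]
  refine le_trans h1 (le_of_eq ?_)
  norm_num

/-- The number of the points modulo `p` of the surface. -/
noncomputable def surfacePoints (c : Co n → ℤ) (d : ℤ) (p : ℕ) : ℕ :=
  Nat.card {P : (Fin (1 + 1) → ZMod p) × ZMod p // (d : ZMod p) * P.2 ^ 2 =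
    P.1 0 ^ 3 + (∑ i : Fin (4 * n + 1), (c (Sum.inl i) : ZMod p) * P.1 1 ^ (i : ℕ)) * P.1 0 +
      ∑ i : Fin (6 * n + 1), (c (Sum.inr i) : ZMod p) * P.1 1 ^ (i : ℕ)} +
  Nat.card {P : ZMod p × ZMod p // (d : ZMod p) * P.2 ^ 2 =
    P.1 ^ 3 + (c (Sum.inl (Fin.last _)) : ZMod p) * P.1 + (c (Sum.inr (Fin.last _)) : ZMod p)} + p + 1

lemma surface_eq {p : ℕ} [hp : Fact p.Prime] (hp2 : p ≠ 2) (c : Co n → ℤ) (d : ℤ) (hd : (d : ZMod p) ≠ 0) :
    (surfacePoints c d p : ℝ) - 1 - p ^ 2 - 2 * p =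
      p * (qc p (d : ZMod p) * -(fav F₀ hh p (fun i => (c i : ZMod p)) - infSum (fun i => (c i : ZMod p)) / p)) := by
  classical
  have hp0 : (0 : ℝ) < p := by exact_mod_cast hp.out.pos
  have e1 : Nat.card {P : (Fin (1 + 1) → ZMod p) × ZMod p // (d : ZMod p) * P.2 ^ 2 =
      P.1 0 ^ 3 + (∑ i : Fin (4 * n + 1), (c (Sum.inl i) : ZMod p) * P.1 1 ^ (i : ℕ)) * P.1 0 +
      ∑ i : Fin (6 * n + 1), (c (Sum.inr i) : ZMod p) * P.1 1 ^ (i : ℕ)} =
      pointsT (F₀ + ∑ i, MvPolynomial.C (c i) * hh i) d p := by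
    unfold pointsT
    have h1 : ∀ P : Fin (1 + 1) → ZMod p, MvPolynomial.aeval P (F₀ + ∑ i, MvPolynomial.C (c i) * hh i) =
        P 0 ^ 3 + (∑ i : Fin (4 * n + 1), (c (Sum.inl i) : ZMod p) * P 1 ^ (i : ℕ)) * P 0 +
        ∑ i : Fin (6 * n + 1), (c (Sum.inr i) : ZMod p) * P 1 ^ (i : ℕ) := by
      intro P
      rw [aeval_vl]
      unfold vl
      rw [Fintype.sum_sum_type]
      simp only [aeval_inl, aeval_inr]
      unfold F₀
      rw [map_pow, MvPolynomial.aeval_X, sum_mul, add_assoc]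
      congr 2
      exact sum_congr rfl fun i _ => by ring
    simp only [h1]
  have e2 : (pointsT (F₀ + ∑ i, MvPolynomial.C (c i) * hh i) d p : ℝ) = p * (p - qc p (d : ZMod p) * fav F₀ hh p (fun i => (c i : ZMod p))) := by
    have h1 := averageT_eq hp2 F₀ hh c d hd
    unfold averageT at h1
    rw [← h1, pow_one]
    field_simp
    ring
  have e3 : (Nat.card {P : ZMod p × ZMod p // (d : ZMod p) * P.2 ^ 2 =
      P.1 ^ 3 + (c (Sum.inl (Fin.last _)) : ZMod p) * P.1 + (c (Sum.inr (Fin.last _)) : ZMod p)} : ℝ) =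
      p + qc p (d : ZMod p) * infSum (fun i => (c i : ZMod p)) := by
    have h1 : Nat.card {P : ZMod p × ZMod p // (d : ZMod p) * P.2 ^ 2 =
        P.1 ^ 3 + (c (Sum.inl (Fin.last _)) : ZMod p) * P.1 + (c (Sum.inr (Fin.last _)) : ZMod p)} =
        ∑ x : ZMod p, Nat.card {y : ZMod p // (d : ZMod p) * y ^ 2 = x ^ 3 + (c (Sum.inl (Fin.last _)) : ZMod p) * x + (c (Sum.inr (Fin.last _)) : ZMod p)} := by
      rw [← Nat.card_sigma]
      exact Nat.card_congr ⟨fun P => ⟨P.1.1, ⟨P.1.2, P.2⟩⟩, fun P => ⟨(P.1, P.2.1), P.2.2⟩, fun _ => rfl, fun _ => rfl⟩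
    rw [h1]
    push_cast
    rw [sum_congr rfl (fun x _ => card_sqrtT hp2 _ _ hd), sum_add_distrib, sum_const, nsmul_eq_mul, mul_one, card_univ, ZMod.card, ← mul_sum]
    unfold infSum
    ring
  unfold surfacePoints
  push_cast
  rw [e1, e2, e3]
  field_simp
  ring

theorem k3 (hn : 1 ≤ n) (P : MvPolynomial (Co n) ℤ) (hP : P ≠ 0) (b : ℕ) (hb : 2 ≤ b) (δ : ℝ) (hδ : 0 < δ) (hδ1 : δ ≤ 1 / 2) (A B : ℕ) :
    ∃ c : ℝ, 0 < c ∧ ∃ y₀ : ℕ,
    ∀ (K r : Co n → ℕ) (y : ℕ), (∀ l, 2 * r l ≤ K l) → y₀ ≤ y →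
    ∀ N : Co n → ℕ, (∀ l, N l < b ^ K l) → ∀ f : Co n → ℕ → ℕ, (∀ l j, f l j < b ∧ f l j ≠ digit b j (N l)) → ∀ s : Co n → ℤ,
    ∀ E : (Co n → ℕ) → Prop, (∀ u : Co n → ℕ, (∀ T₁ T₂ : ℕ, y ≤ T₁ → T₁ ≤ T₂ → (∀ l, (T₂ : ℝ) ≤ Real.exp (c * r l)) →
      ∀ d : ℤ, |d| ≤ (T₁ : ℤ) ^ B → ∀ R : Set ℕ,
      (∀ p ∈ R, (p : ℤ) ∣ MvPolynomial.eval (fun l => s l + u l) P) →
      ∀ (_ : DecidablePred fun p : ℕ => p.Prime ∧ p ∉ R ∧ ¬ (p : ℤ) ∣ 2 * d), ∀ z : ℂ, 3 / 2 + 2 * δ ≤ z.re →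
      ‖∑ p ∈ (Ico T₁ T₂).filter (fun p : ℕ => p.Prime ∧ p ∉ R ∧ ¬ (p : ℤ) ∣ 2 * d),
        ((((surfacePoints (fun l => s l + u l) d p : ℝ) - 1 - p ^ 2 - 2 * p) * Real.log p : ℝ) : ℂ) * (p : ℂ) ^ (-z)‖ ≤
        (2 + 4 * ‖z - 1‖ / δ) * (T₁ : ℝ) ^ (-δ)) → E u) →
    (exceptions b K r N f E : ℝ) ≤ 1 / (y : ℝ) ^ A * ∏ l, ((K l).choose (r l) : ℝ) := by
  classical
  haveI : Nonempty (Co n) := ⟨Sum.inr 0⟩
  obtain ⟨c0, hc0⟩ : ∃ c0 : Co n → ℤ, MvPolynomial.eval c0 P ≠ 0 := by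
    by_contra hcon
    push Not at hcon
    exact hP (MvPolynomial.funext fun c => by rw [hcon c, map_zero])
  have hdat := dat_fav (p0 := 0) (r := 0) (C0 := 0) (F₀ := F₀) (h := (hh : Co n → _)) (m := 1) le_rfl le_rfl
    (fun p hp _ => by haveI : Fact p.Prime := ⟨hp⟩; exact sep_hh hn p) (fun p hp _ => by
      haveI : Fact p.Prime := ⟨hp⟩
      rw [bsum_eq, base_hh]
      simp)
  obtain ⟨K₁, hK₁⟩ : ∃ K₁ : ℝ, K₁ = 2 + 0 + 2 * ((0 : ℝ) ^ 2 + 0 ^ 2) := ⟨_, rfl⟩
  rw [← hK₁] at hdat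
  have hK2 : K₁ = 2 := by rw [hK₁]; norm_num
  obtain ⟨c, hc, y₁, hcore⟩ := coreW (Co n) b hb (1 / 2) (by norm_num) δ hδ A (B + 2) 4 12
    (P.totalDegree + |(MvPolynomial.eval c0 P : ℝ)|) (by norm_num) (by norm_num) (by positivity) 3
  refine ⟨c, hc, y₁ + 3, fun K r y hK hy N hN f hf s E hE => ?_⟩
  obtain ⟨Y, hY⟩ : ∃ Y : ∀ p : ℕ, (Co n → ZMod p) → ℝ, Y = fun p c => if hp : p.Prime then
    (haveI : Fact p.Prime := ⟨hp⟩; -(fav F₀ hh p c - infSum c / p)) else 0 := ⟨_, rfl⟩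
  have hYp : ∀ (p : ℕ) [Fact p.Prime] (c : Co n → ZMod p), Y p c = -(fav F₀ hh p c - infSum c / p) := by
    intro p hpF c
    rw [hY]
    dsimp only
    rw [dif_pos hpF.out]
  have hinf : ∀ (p : ℕ) [Fact p.Prime] (c : Co n → ZMod p), 3 ≤ p → |infSum c / p| ≤ 2 / Real.sqrt p := by
    intro p hpF c hp3
    have hp0 : (0 : ℝ) < p := by exact_mod_cast hpF.out.pos
    have hs0 : 0 < Real.sqrt p := Real.sqrt_pos.2 hp0
    rw [abs_div, abs_of_pos hp0, div_le_div_iff₀ hp0 hs0]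
    have h1 := infSum_bound (by omega : p ≠ 2) c
    calc |infSum c| * Real.sqrt p ≤ (2 * Real.sqrt p) * Real.sqrt p := mul_le_mul_of_nonneg_right h1 hs0.le
      _ = 2 * p := by rw [mul_assoc, Real.mul_self_sqrt hp0.le]
  have hsq1 : ∀ (p : ℕ), p.Prime → 1 ≤ Real.sqrt p := by
    intro p hp
    rw [Real.one_le_sqrt]
    exact_mod_cast hp.one_lt.le
  refine hcore K r y hK (by omega) N hN f hf (fun p c => Y p (fun i => (s i : ZMod p) + c i))
    (fun p c => BZ P p (fun i => (s i : ZMod p) + c i)) ?_ ?_ ?_ ?_ ?_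
    (fun x => (Finset.Icc (-(x : ℤ) ^ B) ((x : ℤ) ^ B)).image wt) ?_ ?_ E ?_
  · intro p hp hp3 c
    haveI : Fact p.Prime := ⟨hp⟩
    rw [hYp, ← Real.sqrt_eq_rpow, abs_neg]
    have h1 := fav_bound (p := p) (D := 3) (by decide) monic_F₀ (fun i => low_hh i) (by omega) (fun i => (s i : ZMod p) + c i)
    have h2 := hinf p (fun i => (s i : ZMod p) + c i) hp3
    have h3 : 2 / Real.sqrt p ≤ 2 * Real.sqrt p := by
      have := hsq1 p hp
      rw [div_le_iff₀ (by linarith)]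
      nlinarith
    refine (abs_sub _ _).trans ?_
    push_cast at h1
    linarith
  · intro p hpF hge
    rw [show (2 : ℝ) * (1 / 2) - 1 = 0 by norm_num, Real.rpow_zero, mul_one]
    have h1 := hdat.sq p (by omega)
    have h2 : EM p (fun c : Co n → ZMod p => Y p (fun i => (s i : ZMod p) + c i) ^ 2) = EM p (fun c : Co n → ZMod p => Y p c ^ 2) :=
      EM_translate p (fun i => (s i : ZMod p)) (fun c => Y p c ^ 2)
    rw [h2]
    have h3 : EM p (fun c : Co n → ZMod p => Y p c ^ 2) ≤ EM p (fun c : Co n → ZMod p => 2 * fav F₀ hh p c ^ 2 + 8) := by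
      apply EM_mono
      intro c
      rw [hYp]
      have h4 := hinf p c hge
      have h5 : 2 / Real.sqrt p ≤ 2 := div_le_self (by norm_num) (hsq1 p hpF.out)
      have h6 : (infSum c / p) ^ 2 ≤ 4 := by
        rw [← sq_abs]
        have h7 := abs_nonneg (infSum c / (p : ℝ))
        nlinarith
      nlinarith [sq_nonneg (fav F₀ hh p c + infSum c / p)]
    refine h3.trans ?_
    rw [EM_add, EM_mul, EM_const]
    linarith
  · intro p hpF hge
    have hp0 : (0 : ℝ) < p := by exact_mod_cast hpF.out.pos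
    have h1 := hdat.mean p (by omega)
    rw [sub_neg_eq_add, add_zero] at h1
    have h2 : EM p (fun c : Co n → ZMod p => Y p (fun i => (s i : ZMod p) + c i)) = EM p (fun c => Y p c) :=
      EM_translate p (fun i => (s i : ZMod p)) (fun c => Y p c)
    rw [h2]
    have h3 : (fun c : Co n → ZMod p => Y p c) = fun c => (-1) * fav F₀ hh p c + infSum c / p := by
      funext c
      rw [hYp]
      ring
    have h4 : |EM p (fun c : Co n → ZMod p => infSum c / p)| ≤ 2 / Real.sqrt p := by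
      have hpow : (0 : ℝ) < (p : ℝ) ^ Fintype.card (Co n) := by positivity
      unfold Pool.Agent.Y722.HS.EM
      rw [abs_div, abs_of_pos hpow, div_le_iff₀ hpow]
      refine (abs_sum_le_sum_abs _ _).trans ((sum_le_sum fun c _ => hinf p c hge).trans ?_)
      rw [sum_const, nsmul_eq_mul, card_univ, Fintype.card_fun, ZMod.card]
      push_cast
      exact le_of_eq (mul_comm _ _)
    rw [h3, EM_add, EM_mul]
    have h5 : (p : ℝ) ^ ((1 : ℝ) / 2 - 1) = 1 / Real.sqrt p := by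
      rw [Real.rpow_sub hp0, Real.rpow_one, ← Real.sqrt_eq_rpow]
      have h4 : Real.sqrt p * Real.sqrt p = p := Real.mul_self_sqrt hp0.le
      have h5 : Real.sqrt p ≠ 0 := by positivity
      rw [div_eq_div_iff hp0.ne' h5, h4, one_mul]
    rw [h5, mul_one_div]
    have h6 : |(-1) * EM p (fun c : Co n → ZMod p => fav F₀ hh p c) + EM p (fun c : Co n → ZMod p => infSum c / p)| ≤
        K₁ / Real.sqrt p + 2 / Real.sqrt p := by
      refine (abs_add_le _ _).trans (add_le_add ?_ h4)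
      rw [abs_mul, abs_neg, abs_one, one_mul]
      exact h1
    refine h6.trans ?_
    rw [← add_div]
    apply div_le_div_of_nonneg_right _ (by positivity)
    rw [hK2]
    norm_num
  · intro p c
    exact BZ_cases P p _
  · intro p hpF
    rw [EM_translate p (fun i => (s i : ZMod p)) (fun c => BZ P p c)]
    exact EM_BZ P c0 hc0 p
  · intro x hx
    refine card_image_le.trans ?_
    rw [Int.card_Icc]
    have h1 : 1 ≤ x ^ B := Nat.one_le_pow _ _ (by omega)
    have h2 : ((x : ℤ) ^ B + 1 - -(x : ℤ) ^ B).toNat = 2 * x ^ B + 1 := by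
      have : ((x : ℤ) ^ B + 1 - -(x : ℤ) ^ B) = ((2 * x ^ B + 1 : ℕ) : ℤ) := by push_cast; ring
      rw [this, Int.toNat_natCast]
    rw [h2, pow_add]
    have h3 : 4 ≤ x ^ 2 := by nlinarith
    have h4 : x ^ B * 4 ≤ x ^ B * x ^ 2 := Nat.mul_le_mul_left _ h3
    omega
  · intro x w hw p
    rw [mem_image] at hw
    obtain ⟨d, _, rfl⟩ := hw
    exact wt_abs d p
  · intro u hu
    refine hE u fun T₁ T₂ hyT h12 hTr d hd R hR hdec z hz => ?_
    have hcast : ∀ p : ℕ, (fun i => (s i : ZMod p) + ((u i : ℕ) : ZMod p)) = fun i => (((s i + u i : ℤ)) : ZMod p) := by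
      intro p
      funext i
      push_cast
      rfl
    obtain ⟨a, ha⟩ : ∃ a : ℕ → ℝ, a = fun p => if p.Prime ∧ 3 ≤ p ∧ p ∉ R then
      wt d p * Y p (fun i => (s i : ZMod p) + ((u i : ℕ) : ZMod p)) * Real.log p else 0 := ⟨_, rfl⟩
    have hS : ∀ T : ℕ, T₁ ≤ T → T ≤ T₂ → |∑ p ∈ range T, a p| ≤ (T : ℝ) ^ (1 / 2 + δ) := by
      intro T h1 h2
      have h3 := hu T (by omega) (by omega) (fun l => le_trans (by exact_mod_cast h2) (hTr l)) (wt d) (by
        rw [mem_image]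
        refine ⟨d, ?_, rfl⟩
        rw [mem_Icc]
        have h4 : (T₁ : ℤ) ^ B ≤ (T : ℤ) ^ B := pow_le_pow_left₀ (by positivity) (by exact_mod_cast h1) _
        have h5 := abs_le.1 (hd.trans h4)
        exact h5) R (fun p hp _ _ => by
        show BZ P p (fun i => (s i : ZMod p) + ((u i : ℕ) : ZMod p)) = 1
        rw [hcast]
        exact BZ_one_of_dvd P _ p (hR p hp)) (Classical.decPred _)
      refine le_trans (le_of_eq ?_) h3
      rw [ha, ← sum_filter]
      congr 1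
      apply sum_congr _ (fun _ _ => rfl)
      ext p
      simp only [mem_filter]
    have hmain := dirichlet_bound a (1 / 2 + δ) δ (by positivity) (by linarith) hδ (by linarith) T₁ T₂ (by omega) h12 hS (z - 1)
      (by rw [Complex.sub_re, Complex.one_re]; linarith)
    refine le_trans (le_of_eq ?_) hmain
    congr 1
    rw [sum_filter]
    refine sum_congr rfl fun p hp => ?_
    rw [mem_Ico] at hp
    rw [ha]
    dsimp only
    by_cases h1 : p.Prime ∧ p ∉ R ∧ ¬ (p : ℤ) ∣ 2 * d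
    · haveI : Fact p.Prime := ⟨h1.1⟩
      have hp3 : 3 ≤ p := by omega
      have hpc : (p : ℂ) ≠ 0 := by exact_mod_cast h1.1.ne_zero
      rw [if_pos h1, if_pos ⟨h1.1, hp3, h1.2.1⟩]
      have hd0 : (d : ZMod p) ≠ 0 := by
        intro h2
        rw [ZMod.intCast_zmod_eq_zero_iff_dvd] at h2
        exact h1.2.2 (Dvd.dvd.mul_left h2 2)
      have hpz : (p : ℂ) * (p : ℂ) ^ (-z) = (p : ℂ) ^ (-(z - 1)) := by
        rw [neg_sub, sub_eq_add_neg, Complex.cpow_add _ _ hpc, Complex.cpow_one]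
      have hwt : wt d p = qc p (d : ZMod p) := by
        unfold wt
        rw [if_pos ⟨h1.1, hp3⟩, jacobi_qc]
      rw [surface_eq (by omega : p ≠ 2) (fun l => s l + u l) d hd0, hYp, hcast, hwt, ← hpz]
      push_cast
      ring
    · rw [if_neg h1]
      by_cases h2 : p.Prime ∧ 3 ≤ p ∧ p ∉ R
      · rw [if_pos h2]
        haveI : Fact p.Prime := ⟨h2.1⟩
        have h3 : (p : ℤ) ∣ d := by
          have h4 : (p : ℤ) ∣ 2 * d := by
            by_contra h5
            exact h1 ⟨h2.1, h2.2.2, h5⟩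
          rcases (Nat.prime_iff_prime_int.1 h2.1).dvd_or_dvd h4 with h5 | h5
          · exfalso
            have h6 : p ∣ 2 := by exact_mod_cast h5
            have := Nat.le_of_dvd (by norm_num) h6
            omega
          · exact h5
        have h4 : wt d p = 0 := by
          unfold wt
          rw [if_pos ⟨h2.1, h2.2.1⟩, jacobi_qc]
          have h5 : (d : ZMod p) = 0 := (ZMod.intCast_zmod_eq_zero_iff_dvd _ _).2 h3
          rw [h5]
          unfold qc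
          simp
        rw [h4]
        simp
      · rw [if_neg h2]
        simp

end Pool.Agent.V11210.NF.K3
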