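import Pool.Agent.V11210.NF.K3

/-!
# Elliptic surfaces over the projective line: arbitrary finite families of weights
-/

set_option autoImplicit false

namespace Pool.Agent.V11210.NF.K3

open Finset Filter
open Pool.Agent.Y57.FD (digit change)
open Pool.Agent.Y722.HS (EM EM_mono EM_const)
open Pool.Agent.Y722.LS (EM_add EM_mul)
open Pool.Agent.Y722.PC (BZ EM_BZ)
open Pool.Agent.Y722.ST
open Pool.Agent.V11210.NF

variable {n : ℕ}

/-- The normalized trace minus two. -/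
noncomputable def YY (p : ℕ) (c : Co n → ZMod p) : ℝ :=
  if hp : p.Prime then (haveI : Fact p.Prime := ⟨hp⟩; -(fav F₀ hh p c - infSum c / p)) else 0

lemma YY_eq {p : ℕ} [hp : Fact p.Prime] (c : Co n → ZMod p) : YY p c = -(fav F₀ hh p c - infSum c / p) := by
  unfold YY
  rw [dif_pos hp.out]

theorem k3W (hn : 1 ≤ n) (P : MvPolynomial (Co n) ℤ) (hP : P ≠ 0) (b : ℕ) (hb : 2 ≤ b) (δ : ℝ) (hδ : 0 < δ) (A A₂ : ℕ) :
    ∃ c : ℝ, 0 < c ∧ ∃ y₀ : ℕ,
    ∀ (K r : Co n → ℕ) (y : ℕ), (∀ l, 2 * r l ≤ K l) → y₀ ≤ y →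
    ∀ N : Co n → ℕ, (∀ l, N l < b ^ K l) → ∀ f : Co n → ℕ → ℕ, (∀ l j, f l j < b ∧ f l j ≠ digit b j (N l)) → ∀ s : Co n → ℤ,
    ∀ Λ : ℕ → Finset (ℕ → ℝ), (∀ x, 2 ≤ x → (Λ x).card ≤ x ^ A₂) → (∀ x, ∀ w ∈ Λ x, ∀ p, |w p| ≤ 1) →
    ∀ E : (Co n → ℕ) → Prop, (∀ u : Co n → ℕ, (∀ T : ℕ, y ≤ T → (∀ l, (T : ℝ) ≤ Real.exp (c * r l)) → ∀ w ∈ Λ T, ∀ R : Set ℕ,
      (∀ p ∈ R, (p : ℤ) ∣ MvPolynomial.eval (fun l => s l + u l) P) →
      ∀ (_ : DecidablePred fun p : ℕ => p.Prime ∧ 3 ≤ p ∧ p ∉ R),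
      |∑ p ∈ (range T).filter (fun p : ℕ => p.Prime ∧ 3 ≤ p ∧ p ∉ R),
        w p * YY p (fun l => ((s l + u l : ℤ) : ZMod p)) * Real.log p| ≤ (T : ℝ) ^ (1 / 2 + δ)) → E u) →
    (exceptions b K r N f E : ℝ) ≤ 1 / (y : ℝ) ^ A * ∏ l, ((K l).choose (r l) : ℝ) := by
  classical
  haveI : Nonempty (Co n) := ⟨Sum.inr 0⟩
  obtain ⟨c0, hc0⟩ : ∃ c0 : Co n → ℤ, MvPolynomial.eval c0 P ≠ 0 := by
    by_contra hcon
    push Not at hcon
    exact hP (MvPolynomial.funext fun c => by rw [hcon c, map_zero])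
  have hdat := dat_fav (p0 := 0) (r := 0) (C0 := 0) (F₀ := F₀) (h := (hh : Co n → _)) (m := 1) le_rfl le_rfl
    (fun p hp _ => by haveI : Fact p.Prime := ⟨hp⟩; exact sep_hh hn p) (fun p hp _ => by
      haveI : Fact p.Prime := ⟨hp⟩
      rw [bsum_eq, base_hh]
      simp)
  obtain ⟨K₁, hK₁⟩ : ∃ K₁ : ℝ, K₁ = 2 + 0 + 2 * ((0 : ℝ) ^ 2 + 0 ^ 2) := ⟨_, rfl⟩
  rw [← hK₁] at hdat
  have hK2 : K₁ = 2 := by rw [hK₁]; norm_num
  obtain ⟨c, hc, y₁, hcore⟩ := coreW (Co n) b hb (1 / 2) (by norm_num) δ hδ A A₂ 4 12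
    (P.totalDegree + |(MvPolynomial.eval c0 P : ℝ)|) (by norm_num) (by norm_num) (by positivity) 3
  refine ⟨c, hc, y₁ + 3, fun K r y hK hy N hN f hf s Λ hΛ hΛ1 E hE => ?_⟩
  have hYp : ∀ (p : ℕ) [Fact p.Prime] (c : Co n → ZMod p), YY p c = -(fav F₀ hh p c - infSum c / p) := fun p _ c => YY_eq c
  have hinf : ∀ (p : ℕ) [Fact p.Prime] (c : Co n → ZMod p), 3 ≤ p → |infSum c / p| ≤ 2 / Real.sqrt p := by
    intro p hpF c hp3
    have hp0 : (0 : ℝ) < p := by exact_mod_cast hpF.out.pos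
    have hs0 : 0 < Real.sqrt p := Real.sqrt_pos.2 hp0
    rw [abs_div, abs_of_pos hp0, div_le_div_iff₀ hp0 hs0]
    have h1 := infSum_bound (by omega : p ≠ 2) c
    calc |infSum c| * Real.sqrt p ≤ (2 * Real.sqrt p) * Real.sqrt p := mul_le_mul_of_nonneg_right h1 hs0.le
      _ = 2 * p := by rw [mul_assoc, Real.mul_self_sqrt hp0.le]
  have hsq1 : ∀ (p : ℕ), p.Prime → 1 ≤ Real.sqrt p := by
    intro p hp
    rw [Real.one_le_sqrt]
    exact_mod_cast hp.one_lt.le
  refine hcore K r y hK (by omega) N hN f hf (fun p c => YY p (fun i => (s i : ZMod p) + c i))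
    (fun p c => BZ P p (fun i => (s i : ZMod p) + c i)) ?_ ?_ ?_ ?_ ?_
    Λ hΛ hΛ1 E ?_
  · intro p hp hp3 c
    haveI : Fact p.Prime := ⟨hp⟩
    rw [hYp, ← Real.sqrt_eq_rpow, abs_neg]
    have h1 := fav_bound (p := p) (D := 3) (by decide) monic_F₀ (fun i => low_hh i) (by omega) (fun i => (s i : ZMod p) + c i)
    have h2 := hinf p (fun i => (s i : ZMod p) + c i) hp3
    have h3 : 2 / Real.sqrt p ≤ 2 * Real.sqrt p := by
      have := hsq1 p hp
      rw [div_le_iff₀ (by linarith)]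
      nlinarith
    refine (abs_sub _ _).trans ?_
    push_cast at h1
    linarith
  · intro p hpF hge
    rw [show (2 : ℝ) * (1 / 2) - 1 = 0 by norm_num, Real.rpow_zero, mul_one]
    have h1 := hdat.sq p (by omega)
    have h2 : EM p (fun c : Co n → ZMod p => YY p (fun i => (s i : ZMod p) + c i) ^ 2) = EM p (fun c : Co n → ZMod p => YY p c ^ 2) :=
      EM_translate p (fun i => (s i : ZMod p)) (fun c => YY p c ^ 2)
    rw [h2]
    have h3 : EM p (fun c : Co n → ZMod p => YY p c ^ 2) ≤ EM p (fun c : Co n → ZMod p => 2 * fav F₀ hh p c ^ 2 + 8) := by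
      apply EM_mono
      intro c
      rw [hYp]
      have h4 := hinf p c hge
      have h5 : 2 / Real.sqrt p ≤ 2 := div_le_self (by norm_num) (hsq1 p hpF.out)
      have h6 : (infSum c / p) ^ 2 ≤ 4 := by
        rw [← sq_abs]
        have h7 := abs_nonneg (infSum c / (p : ℝ))
        nlinarith
      nlinarith [sq_nonneg (fav F₀ hh p c + infSum c / p)]
    refine h3.trans ?_
    rw [EM_add, EM_mul, EM_const]
    linarith
  · intro p hpF hge
    have hp0 : (0 : ℝ) < p := by exact_mod_cast hpF.out.pos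
    have h1 := hdat.mean p (by omega)
    rw [sub_neg_eq_add, add_zero] at h1
    have h2 : EM p (fun c : Co n → ZMod p => YY p (fun i => (s i : ZMod p) + c i)) = EM p (fun c => YY p c) :=
      EM_translate p (fun i => (s i : ZMod p)) (fun c => YY p c)
    rw [h2]
    have h3 : (fun c : Co n → ZMod p => YY p c) = fun c => (-1) * fav F₀ hh p c + infSum c / p := by
      funext c
      rw [hYp]
      ring
    have h4 : |EM p (fun c : Co n → ZMod p => infSum c / p)| ≤ 2 / Real.sqrt p := by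
      have hpow : (0 : ℝ) < (p : ℝ) ^ Fintype.card (Co n) := by positivity
      unfold Pool.Agent.Y722.HS.EM
      rw [abs_div, abs_of_pos hpow, div_le_iff₀ hpow]
      refine (abs_sum_le_sum_abs _ _).trans ((sum_le_sum fun c _ => hinf p c hge).trans ?_)
      rw [sum_const, nsmul_eq_mul, card_univ, Fintype.card_fun, ZMod.card]
      push_cast
      exact le_of_eq (mul_comm _ _)
    rw [h3, EM_add, EM_mul]
    have h5 : (p : ℝ) ^ ((1 : ℝ) / 2 - 1) = 1 / Real.sqrt p := by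
      rw [Real.rpow_sub hp0, Real.rpow_one, ← Real.sqrt_eq_rpow]
      have h4 : Real.sqrt p * Real.sqrt p = p := Real.mul_self_sqrt hp0.le
      have h5 : Real.sqrt p ≠ 0 := by positivity
      rw [div_eq_div_iff hp0.ne' h5, h4, one_mul]
    rw [h5, mul_one_div]
    have h6 : |(-1) * EM p (fun c : Co n → ZMod p => fav F₀ hh p c) + EM p (fun c : Co n → ZMod p => infSum c / p)| ≤
        K₁ / Real.sqrt p + 2 / Real.sqrt p := by
      refine (abs_add_le _ _).trans (add_le_add ?_ h4)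
      rw [abs_mul, abs_neg, abs_one, one_mul]
      exact h1
    refine h6.trans ?_
    rw [← add_div]
    apply div_le_div_of_nonneg_right _ (by positivity)
    rw [hK2]
    norm_num
  · intro p c
    exact BZ_cases P p _
  · intro p hpF
    rw [EM_translate p (fun i => (s i : ZMod p)) (fun c => BZ P p c)]
    exact EM_BZ P c0 hc0 p
  · intro u hu
    refine hE u fun T hyT hTr w hw R hR hdec => ?_
    have hcast : ∀ p : ℕ, (fun i => (s i : ZMod p) + ((u i : ℕ) : ZMod p)) = fun i => (((s i + u i : ℤ)) : ZMod p) := by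
      intro p
      funext i
      push_cast
      rfl
    have h3 := hu T (by omega) hyT hTr w hw R (fun p hp _ _ => by
        show BZ P p (fun i => (s i : ZMod p) + ((u i : ℕ) : ZMod p)) = 1
        rw [hcast]
        exact BZ_one_of_dvd P _ p (hR p hp)) hdec
    simp only [hcast] at h3
    exact h3

end Pool.Agent.V11210.NF.K3
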