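import Pool.Agent.Y57.FD.HypM
import Pool.Agent.Y57.FD.Base
import Pool.Agent.Y722.ST.Main

/-!
# Functions of the reduction of a vector of numbers obtained by few changes of digits, for any finite set of indices
-/

set_option autoImplicit false

namespace Pool.Agent.V11210.NF

open Finset
open Pool.Agent.Y57.FD (digit change)
open Pool.Agent.TH894.NE (mean box)
open Pool.Agent.Y722.HS (EM)
open Pool.Agent.Y722.ST (avg avg_eq)

open Classical in
/-- The number of the choices of `r l` of `K l` positions for all `l` for which the vector of the numbers obtained by changing the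
digits of the `N l` at the chosen positions (according to `f l`) does not have the property `E`. -/
noncomputable def exceptions {ι : Type} [Fintype ι] [DecidableEq ι] (b : ℕ) (K r N : ι → ℕ) (f : ι → ℕ → ℕ)
    (E : (ι → ℕ) → Prop) : ℕ :=
  ((Fintype.piFinset (fun l => powersetCard (r l) (range (K l)))).filter
    (fun S => ¬ E (fun l => change b (K l) (N l) (f l) (S l)))).card

lemma exceptions_transfer {ι : Type} [Fintype ι] [DecidableEq ι] {d : ℕ} (e : Fin d ≃ ι) (b : ℕ) (K r N : ι → ℕ) (f : ι → ℕ → ℕ)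
    (E : (ι → ℕ) → Prop) : exceptions b K r N f E =
      Pool.Agent.Y57.FD.exceptions b (fun i => K (e i)) (fun i => r (e i)) (fun i => N (e i)) (fun i => f (e i))
        (fun m => E (fun l => m (e.symm l))) := by
  classical
  unfold exceptions Pool.Agent.Y57.FD.exceptions
  refine card_nbij' (fun S i => S (e i)) (fun T l => T (e.symm l)) ?_ ?_ ?_ ?_
  · intro S hS
    rw [mem_coe, mem_filter, Fintype.mem_piFinset] at hS
    rw [mem_coe, mem_filter, Fintype.mem_piFinset]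
    refine ⟨fun i => hS.1 (e i), fun h => hS.2 ?_⟩
    simpa using h
  · intro T hT
    rw [mem_coe, mem_filter, Fintype.mem_piFinset] at hT
    rw [mem_coe, mem_filter, Fintype.mem_piFinset]
    refine ⟨fun l => by simpa using hT.1 (e.symm l), fun h => hT.2 ?_⟩
    simpa using h
  · intro S _
    funext l
    simp
  · intro T _
    funext i
    simp

lemma mean_eq_EM {ι : Type} [Fintype ι] [DecidableEq ι] {d : ℕ} (e : Fin d ≃ ι) (p : ℕ) [hp : Fact p.Prime] (Y : (ι → ZMod p) → ℝ) :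
    mean d p (fun n => Y (fun l => (n (e.symm l) : ZMod p))) = EM p Y := by
  unfold mean EM
  have h1 := Pool.Agent.Y57.FD.HM.sum_box p (D := d) (fun u => Y (fun l => u (e.symm l)))
  rw [h1, one_div, inv_mul_eq_div]
  have h2 : ∑ u : Fin d → ZMod p, Y (fun l => u (e.symm l)) = ∑ c : ι → ZMod p, Y c :=
    Fintype.sum_equiv (Equiv.arrowCongr e (Equiv.refl _)) _ _ (fun u => rfl)
  have h3 : Fintype.card ι = d := by rw [← Fintype.card_congr e, Fintype.card_fin]
  rw [h2, h3]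

/-- The value of `Y p` at the reduction of `m`. -/
noncomputable def at_ {ι : Type} (Y : ∀ p : ℕ, (ι → ZMod p) → ℝ) (p : ℕ) (m : ι → ℕ) : ℝ := Y p (fun l => (m l : ZMod p))

theorem lawI (ι : Type) [Fintype ι] [DecidableEq ι] [Nonempty ι] (b : ℕ) (hb : 2 ≤ b) (δ : ℝ) (hδ : 0 < δ) (A A₂ : ℕ) :
    ∃ c : ℝ, 0 < c ∧ ∃ y₀ : ℕ,
    ∀ (K r : ι → ℕ) (y : ℕ), (∀ l, 2 * r l ≤ K l) → y₀ ≤ y →
    ∀ N : ι → ℕ, (∀ l, N l < b ^ K l) → ∀ f : ι → ℕ → ℕ, (∀ l j, f l j < b ∧ f l j ≠ digit b j (N l)) →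
    ∀ (κ : Type) (Λ : ℕ → Finset κ), (∀ x, 2 ≤ x → (Λ x).card ≤ x ^ A₂) →
    ∀ P : ℕ → κ → Finset ℕ, (∀ x l, ∀ p ∈ P x l, p.Prime ∧ p ≤ x) →
    ∀ Y : κ → ∀ p : ℕ, (ι → ZMod p) → ℝ, (∀ k p c, |Y k p c| ≤ 1) →
    ∀ E : (ι → ℕ) → Prop,
    (∀ m : ι → ℕ, (∀ x : ℕ, 2 ≤ x → y ≤ x → (∀ l, (x : ℝ) ≤ Real.exp (c * r l)) → ∀ k ∈ Λ x,
      |∑ p ∈ P x k, at_ (Y k) p m - ∑ p ∈ P x k, avg (Y k) p| ≤
        Real.sqrt (max 1 (∑ p ∈ P x k, avg (fun p c => Y k p c ^ 2) p)) * (x : ℝ) ^ δ) → E m) →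
    (exceptions b K r N f E : ℝ) ≤ 1 / (y : ℝ) ^ A * ∏ l, ((K l).choose (r l) : ℝ) := by
  classical
  obtain ⟨d, e⟩ : ∃ d : ℕ, Nonempty (Fin d ≃ ι) := ⟨Fintype.card ι, ⟨(Fintype.equivFin ι).symm⟩⟩
  obtain ⟨e⟩ := e
  have hd : 1 ≤ d := by
    have h3 : Fintype.card ι = d := by rw [← Fintype.card_congr e, Fintype.card_fin]
    rw [← h3]
    exact Fintype.card_pos
  obtain ⟨c, hc, y₀, h⟩ := Pool.Agent.Y57.FD.lawF b d hb hd δ hδ A A₂
  refine ⟨c, hc, y₀, fun K r y hK hy N hN f hf κ Λ hΛ P hP Y hY E hE => ?_⟩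
  rw [exceptions_transfer e]
  have hprod : ∏ l, ((K l).choose (r l) : ℝ) = ∏ i, ((K (e i)).choose (r (e i)) : ℝ) :=
    (Fintype.prod_equiv e _ _ (fun i => rfl)).symm
  rw [hprod]
  refine h (fun i => K (e i)) (fun i => r (e i)) y (fun i => hK _) hy (fun i => N (e i)) (fun i => hN _) (fun i => f (e i))
    (fun i j => hf _ _) κ Λ hΛ P hP (fun k p n => Y k p (fun l => (n (e.symm l) : ZMod p))) ?_ ?_ _ ?_
  · intro k p hp n
    congr 1
    funext l
    rw [ZMod.natCast_mod]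
  · intro k p n
    exact hY _ _ _
  · intro m hm
    refine hE _ fun x hx2 hyx hxr k hk => ?_
    have h1 := hm x hx2 hyx (fun i => hxr (e i)) k hk
    have h2 : ∑ p ∈ P x k, mean d p (fun n => Y k p (fun l => (n (e.symm l) : ZMod p))) = ∑ p ∈ P x k, avg (Y k) p := by
      refine sum_congr rfl fun p hp => ?_
      haveI : Fact p.Prime := ⟨(hP x k p hp).1⟩
      rw [avg_eq, mean_eq_EM e p (Y k p)]
    have h3 : ∑ p ∈ P x k, mean d p (fun n => Y k p (fun l => (n (e.symm l) : ZMod p)) ^ 2) =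
        ∑ p ∈ P x k, avg (fun p c => Y k p c ^ 2) p := by
      refine sum_congr rfl fun p hp => ?_
      haveI : Fact p.Prime := ⟨(hP x k p hp).1⟩
      rw [avg_eq, mean_eq_EM e p (fun c => Y k p c ^ 2)]
    rw [h2, h3] at h1
    exact h1

end Pool.Agent.V11210.NF
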