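import Pool.Agent.V11210.NF.K3W

/-!
# Elliptic surfaces over the projective line over all number fields of bounded degree and height
-/

set_option autoImplicit false

namespace Pool.Agent.V11210.NF.K3

open Finset Filter
open Pool.Agent.Y57.FD (digit change)
open Pool.Agent.Y722.ST
open Pool.Agent.V11210.NF

variable {n : ℕ}

/-- The value of `∑ v_i θ^i`. -/
def val {D : ℕ} (v : Fin D → ℤ) (θ : ℤ) : ℤ := ∑ i, v i * θ ^ (i : ℕ)

/-- The roots of `x^D + ∑ u_i x^i` modulo `p` at which `∑ v_i x^i` does not vanish. -/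
def rts {D : ℕ} (u v : Fin D → ℤ) (p : ℕ) : Finset ℕ :=
  (range p).filter (fun θ : ℕ => (p : ℤ) ∣ (θ : ℤ) ^ D + val u θ ∧ ¬ (p : ℤ) ∣ val v θ)

lemma card_rts {D : ℕ} (u v : Fin D → ℤ) {p : ℕ} [hp : Fact p.Prime] : (rts u v p).card ≤ D := by
  classical
  obtain ⟨g, hg⟩ : ∃ g : Polynomial (ZMod p), g = Polynomial.X ^ D + ∑ i : Fin D, Polynomial.C (u i : ZMod p) * Polynomial.X ^ (i : ℕ) :=
    ⟨_, rfl⟩
  have hdeg : (∑ i : Fin D, Polynomial.C (u i : ZMod p) * Polynomial.X ^ (i : ℕ)).degree < (D : WithBot ℕ) := by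
    refine (Polynomial.degree_sum_le _ _).trans_lt ((Finset.sup_lt_iff (WithBot.bot_lt_coe D)).2 fun i _ => ?_)
    refine (Polynomial.degree_C_mul_X_pow_le _ _).trans_lt ?_
    first
      | exact WithBot.coe_lt_coe.2 i.2
      | exact Nat.cast_lt.2 i.2
  have hm : g.Monic := by
    rw [hg]
    exact Polynomial.monic_X_pow_add hdeg
  have hn : g.natDegree = D := by
    rw [hg, Polynomial.natDegree_add_eq_left_of_degree_lt (by rw [Polynomial.degree_X_pow]; exact hdeg), Polynomial.natDegree_X_pow]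
  have h1 : (rts u v p).card ≤ g.roots.toFinset.card := by
    refine Finset.card_le_card_of_injOn (fun θ : ℕ => (θ : ZMod p)) ?_ ?_
    · intro θ hθ
      rw [Finset.mem_coe, rts, mem_filter] at hθ
      rw [Finset.mem_coe, Multiset.mem_toFinset, Polynomial.mem_roots hm.ne_zero, Polynomial.IsRoot.def, hg]
      have h2 := (ZMod.intCast_zmod_eq_zero_iff_dvd _ _).2 hθ.2.1
      rw [Polynomial.eval_add, Polynomial.eval_pow, Polynomial.eval_X, Polynomial.eval_finsetSum]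
      rw [← h2]
      unfold val
      push_cast
      congr 1
      refine sum_congr rfl fun i _ => ?_
      rw [Polynomial.eval_mul, Polynomial.eval_C, Polynomial.eval_pow, Polynomial.eval_X]
    · intro θ hθ θ' hθ' h
      rw [Finset.mem_coe, rts, mem_filter, mem_range] at hθ hθ'
      have h2 := (ZMod.natCast_eq_natCast_iff' θ θ' p).1 h
      rwa [Nat.mod_eq_of_lt hθ.1, Nat.mod_eq_of_lt hθ'.1] at h2
  refine h1.trans ((Multiset.toFinset_card_le _).trans ((Polynomial.card_roots' g).trans hn.le))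

/-- The weight of a prime. -/
noncomputable def wNF {D : ℕ} (u v : Fin D → ℤ) (p : ℕ) : ℝ :=
  if p.Prime ∧ 3 ≤ p then (∑ θ ∈ rts u v p, (jacobiSym (val v θ) p : ℝ)) / D else 0

lemma wNF_abs {D : ℕ} (u v : Fin D → ℤ) (p : ℕ) : |wNF u v p| ≤ 1 := by
  unfold wNF
  split_ifs with h
  · haveI : Fact p.Prime := ⟨h.1⟩
    rw [abs_div, Nat.abs_cast]
    apply div_le_one_of_le₀ _ (Nat.cast_nonneg _)
    refine (abs_sum_le_sum_abs _ _).trans ?_
    have h1 : ∀ θ ∈ rts u v p, |(jacobiSym (val v θ) p : ℝ)| ≤ 1 := by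
      intro θ _
      rcases jacobiSym.trichotomy (val v θ) p with h1 | h1 | h1 <;> rw [h1] <;> simp
    refine (sum_le_sum h1).trans ?_
    rw [sum_const, nsmul_eq_mul, mul_one]
    exact_mod_cast card_rts u v
  · simp

/-- The sum over the primes `𝔭` of degree one. -/
noncomputable def tate {D : ℕ} (c : Co n → ℤ) (u v : Fin D → ℤ) (p : ℕ) : ℝ :=
  ∑ θ ∈ rts u v p, (((surfacePoints c (val v θ) p : ℝ) - 1 - (p : ℝ) ^ 2) / p - 2) * Real.log p

lemma tate_eq {D : ℕ} (hD : 1 ≤ D) (c : Co n → ℤ) (u v : Fin D → ℤ) {p : ℕ} (hp : p.Prime) (hp3 : 3 ≤ p) :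
    tate c u v p = D * (wNF u v p * YY p (fun l => (c l : ZMod p)) * Real.log p) := by
  haveI : Fact p.Prime := ⟨hp⟩
  have hp0 : (0 : ℝ) < p := by exact_mod_cast hp.pos
  have hD0 : (D : ℝ) ≠ 0 := by positivity
  unfold tate wNF
  rw [if_pos ⟨hp, hp3⟩, ← mul_assoc, ← mul_assoc, mul_div_cancel₀ _ hD0, sum_mul, sum_mul]
  refine sum_congr rfl fun θ hθ => ?_
  rw [rts, mem_filter] at hθ
  have hd : ((val v θ : ℤ) : ZMod p) ≠ 0 := fun h => hθ.2.2 ((ZMod.intCast_zmod_eq_zero_iff_dvd _ _).1 h)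
  have h1 := surface_eq (by omega : p ≠ 2) c (val v θ) hd
  rw [jacobi_qc, YY_eq]
  have h2 : ((surfacePoints c (val v θ) p : ℝ) - 1 - (p : ℝ) ^ 2) / p - 2 = ((surfacePoints c (val v θ) p : ℝ) - 1 - (p : ℝ) ^ 2 - 2 * p) / p := by
    field_simp
  rw [h2, h1, mul_div_cancel_left₀ _ hp0.ne']

theorem k3NF (hn : 1 ≤ n) (P : MvPolynomial (Co n) ℤ) (hP : P ≠ 0) (b : ℕ) (hb : 2 ≤ b) (δ : ℝ) (hδ : 0 < δ) (D : ℕ) (hD : 1 ≤ D)
    (A B : ℕ) :
    ∃ c : ℝ, 0 < c ∧ ∃ y₀ : ℕ,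
    ∀ (K r : Co n → ℕ) (y : ℕ), (∀ l, 2 * r l ≤ K l) → y₀ ≤ y →
    ∀ N : Co n → ℕ, (∀ l, N l < b ^ K l) → ∀ f : Co n → ℕ → ℕ, (∀ l j, f l j < b ∧ f l j ≠ digit b j (N l)) → ∀ s : Co n → ℤ,
    ∀ E : (Co n → ℕ) → Prop, (∀ m : Co n → ℕ, (∀ T : ℕ, y ≤ T → (∀ l, (T : ℝ) ≤ Real.exp (c * r l)) →
      ∀ u v : Fin D → ℤ, (∀ i, |u i| ≤ (T : ℤ) ^ B) → (∀ i, |v i| ≤ (T : ℤ) ^ B) → ∀ R : Set ℕ,
      (∀ p ∈ R, (p : ℤ) ∣ MvPolynomial.eval (fun l => s l + m l) P) →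
      ∀ (_ : DecidablePred fun p : ℕ => p.Prime ∧ 3 ≤ p ∧ p ∉ R),
      |∑ p ∈ (range T).filter (fun p : ℕ => p.Prime ∧ 3 ≤ p ∧ p ∉ R), tate (fun l => s l + m l) u v p| ≤
        D * (T : ℝ) ^ (1 / 2 + δ)) → E m) →
    (exceptions b K r N f E : ℝ) ≤ 1 / (y : ℝ) ^ A * ∏ l, ((K l).choose (r l) : ℝ) := by
  classical
  obtain ⟨c, hc, y₀, h⟩ := k3W hn P hP b hb δ hδ A ((B + 2) * D + (B + 2) * D)
  refine ⟨c, hc, y₀, fun K r y hK hy N hN f hf s E hE => ?_⟩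
  refine h K r y hK hy N hN f hf s
    (fun x => ((Fintype.piFinset (fun _ : Fin D => Finset.Icc (-(x : ℤ) ^ B) ((x : ℤ) ^ B))) ×ˢ
      (Fintype.piFinset (fun _ : Fin D => Finset.Icc (-(x : ℤ) ^ B) ((x : ℤ) ^ B)))).image (fun w => wNF w.1 w.2)) ?_ ?_ E ?_
  · intro x hx
    refine card_image_le.trans ?_
    rw [card_product, Fintype.card_piFinset, prod_const, card_univ, Fintype.card_fin, Int.card_Icc, pow_add]
    have h1 : 1 ≤ x ^ B := Nat.one_le_pow _ _ (by omega)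
    have h2 : ((x : ℤ) ^ B + 1 - -(x : ℤ) ^ B).toNat = 2 * x ^ B + 1 := by
      have : ((x : ℤ) ^ B + 1 - -(x : ℤ) ^ B) = ((2 * x ^ B + 1 : ℕ) : ℤ) := by push_cast; ring
      rw [this, Int.toNat_natCast]
    have h5 : 2 * x ^ B + 1 ≤ x ^ (B + 2) := by
      rw [pow_add]
      have h3 : 4 ≤ x ^ 2 := by nlinarith
      have h4 : x ^ B * 4 ≤ x ^ B * x ^ 2 := Nat.mul_le_mul_left _ h3
      omega
    rw [h2]
    have h6 : (2 * x ^ B + 1) ^ D ≤ x ^ ((B + 2) * D) := by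
      rw [pow_mul]
      exact Nat.pow_le_pow_left h5 _
    exact Nat.mul_le_mul h6 h6
  · intro x w hw p
    rw [mem_image] at hw
    obtain ⟨d, _, rfl⟩ := hw
    exact wNF_abs d.1 d.2 p
  · intro m hm
    refine hE m fun T hyT hTr u v hu hv R hR hdec => ?_
    have h1 := hm T hyT hTr (wNF u v) (by
      rw [mem_image]
      refine ⟨(u, v), ?_, rfl⟩
      rw [mem_product, Fintype.mem_piFinset, Fintype.mem_piFinset]
      exact ⟨fun i => mem_Icc.2 (abs_le.1 (hu i)), fun i => mem_Icc.2 (abs_le.1 (hv i))⟩) R hR hdec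
    have h2 : ∑ p ∈ (range T).filter (fun p : ℕ => p.Prime ∧ 3 ≤ p ∧ p ∉ R), tate (fun l => s l + m l) u v p =
        D * ∑ p ∈ (range T).filter (fun p : ℕ => p.Prime ∧ 3 ≤ p ∧ p ∉ R),
          wNF u v p * YY p (fun l => ((s l + m l : ℤ) : ZMod p)) * Real.log p := by
      rw [mul_sum]
      refine sum_congr rfl fun p hp => ?_
      rw [mem_filter] at hp
      exact tate_eq hD _ u v hp.2.1 hp.2.2.1
    rw [h2, abs_mul, Nat.abs_cast]
    exact mul_le_mul_of_nonneg_left h1 (Nat.cast_nonneg _)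

end Pool.Agent.V11210.NF.K3
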