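import Pool.Agent.V11210.NF.Ex
import Pool.Agent.V11210.NF.FamW

/-!
# Products of curves over a common base: the local moments
-/

set_option autoImplicit false

namespace Pool.Agent.V11210.NF.P2

open Finset Filter
open Pool.Agent.Y722.HS (EM EM_mono EM_const)
open Pool.Agent.Y722.LS (EM_add EM_mul)
open Pool.Agent.Y722.ST
open Pool.Agent.V11210.NF

variable {m k a₀ e : ℕ}

/-- The index set of the coefficients: curve, power of `x`, powers of the `t_j`. -/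
abbrev Ix (m k a₀ e : ℕ) : Type := Fin k × (Fin a₀ × (Fin (m + 1) → Fin (e + 1)))

/-- The monomial `x^a t^α`. -/
noncomputable def mn (i : Fin a₀ × (Fin (m + 1) → Fin (e + 1))) : MvPolynomial (Fin (m + 1 + 1)) ℤ :=
  MvPolynomial.X 0 ^ (i.1 : ℕ) * ∏ j, MvPolynomial.X (Fin.succ j) ^ (i.2 j : ℕ)

lemma sep_mn (ha : 2 ≤ a₀) (he : 1 ≤ e) (p : ℕ) [Fact p.Prime] :
    Sep2 (mn : Fin a₀ × (Fin (m + 1) → Fin (e + 1)) → MvPolynomial (Fin (m + 1 + 1)) ℤ) p := by
  have h := sep_dir (m := m) (r := 0) (D := a₀) (e := e) (by omega) he (fun j => Fin.elim0 j) p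
  have h1 : (dir a₀ e (fun j => Fin.elim0 j) : Mo m 0 a₀ e → MvPolynomial (Fin (m + 1 + 1)) ℤ) = (mn : Fin a₀ × (Fin (m + 1) → Fin (e + 1)) → _) := by
    funext i
    simp [dir, sect, mono, mn]
  rw [h1] at h
  exact h

lemma low_mn {D : ℕ} (haD : a₀ ≤ D) (i : Fin a₀ × (Fin (m + 1) → Fin (e + 1))) : LowIn D (mn i) := by
  have h := low_dir (m := m) (r := 0) (D := a₀) (e := e) (fun j => Fin.elim0 j) i
  have h1 : dir a₀ e (fun j => Fin.elim0 j) i = mn i := by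
    simp [dir, sect, mono, mn]
  rw [h1] at h
  unfold LowIn at h ⊢
  exact lt_of_lt_of_le h (by exact_mod_cast haD)

lemma exists_dir (ha : 2 ≤ a₀) (p : ℕ) [Fact p.Prime] : ∃ c₀ : Fin a₀ × (Fin (m + 1) → Fin (e + 1)) → ZMod p,
    ∀ P : Fin (m + 1 + 1) → ZMod p, ∑ i, c₀ i * MvPolynomial.aeval P (mn i) = 1 := by
  refine ⟨Pi.single (⟨0, by omega⟩, fun _ => 0) 1, fun P => ?_⟩
  rw [Finset.sum_eq_single (⟨0, by omega⟩, fun _ => 0)]
  · simp [mn]
  · intro i _ hi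
    rw [Pi.single_eq_of_ne hi, zero_mul]
  · intro h
    exact absurd (mem_univ _) h

section
variable (F : Fin k → MvPolynomial (Fin (m + 1 + 1)) ℤ) {p : ℕ} [hp : Fact p.Prime]

/-- The value of the character at a point. -/
noncomputable def ch (F : Fin k → MvPolynomial (Fin (m + 1 + 1)) ℤ) {p : ℕ} [Fact p.Prime] (c : Ix m k a₀ e → ZMod p) (i : Fin k)
    (P : Fin (m + 1 + 1) → ZMod p) : ℝ := qc p (vl (F i) mn p (fun μ => c (i, μ)) P)

/-- The trace of the fibre. -/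
noncomputable def trc (F : Fin k → MvPolynomial (Fin (m + 1 + 1)) ℤ) {p : ℕ} [Fact p.Prime] (c : Ix m k a₀ e → ZMod p) (i : Fin k)
    (t : Fin (m + 1) → ZMod p) : ℝ := -∑ x : ZMod p, ch F c i (Fin.cons x t)

/-- the direction in one component -/
def comp (i : Fin k) (c₀ : Fin a₀ × (Fin (m + 1) → Fin (e + 1)) → ZMod p) : Ix m k a₀ e → ZMod p :=
  fun μ => if μ.1 = i then c₀ μ.2 else 0

lemma vl_comp_same (i : Fin k) (c₀ : Fin a₀ × (Fin (m + 1) → Fin (e + 1)) → ZMod p) (c : Ix m k a₀ e → ZMod p) (s : ZMod p)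
    (P : Fin (m + 1 + 1) → ZMod p) :
    vl (F i) mn p (fun μ => c (i, μ) + s * comp i c₀ (i, μ)) P = vl (F i) mn p (fun μ => c (i, μ)) P + s * ∑ μ, c₀ μ * MvPolynomial.aeval P (mn μ) := by
  have h1 : (fun μ => c (i, μ) + s * comp i c₀ (i, μ)) = fun μ => c (i, μ) + s * c₀ μ := by
    funext μ
    simp [comp]
  rw [h1]
  exact vl_add _ _ _ _

lemma vl_comp_other (i j : Fin k) (hij : j ≠ i) (c₀ : Fin a₀ × (Fin (m + 1) → Fin (e + 1)) → ZMod p) (c : Ix m k a₀ e → ZMod p) (s : ZMod p)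
    (P : Fin (m + 1 + 1) → ZMod p) :
    vl (F j) mn p (fun μ => c (j, μ) + s * comp i c₀ (j, μ)) P = vl (F j) mn p (fun μ => c (j, μ)) P := by
  have h1 : (fun μ => c (j, μ) + s * comp i c₀ (j, μ)) = fun μ => c (j, μ) := by
    funext μ
    simp [comp, hij]
  rw [h1]

lemma ch_same (i : Fin k) (c₀ : Fin a₀ × (Fin (m + 1) → Fin (e + 1)) → ZMod p) (c : Ix m k a₀ e → ZMod p) (s : ZMod p)
    (P : Fin (m + 1 + 1) → ZMod p) : ch F (fun μ => c μ + s * comp i c₀ μ) i P =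
      qc p (vl (F i) mn p (fun μ => c (i, μ)) P + s * ∑ μ, c₀ μ * MvPolynomial.aeval P (mn μ)) := by
  unfold ch
  congr 1
  exact vl_comp_same F i c₀ c s P

lemma ch_other (i j : Fin k) (hij : j ≠ i) (c₀ : Fin a₀ × (Fin (m + 1) → Fin (e + 1)) → ZMod p) (c : Ix m k a₀ e → ZMod p) (s : ZMod p)
    (P : Fin (m + 1 + 1) → ZMod p) : ch F (fun μ => c μ + s * comp i c₀ μ) j P = ch F c j P := by
  unfold ch
  congr 1
  exact vl_comp_other F i j hij c₀ c s P

lemma ch_abs (c : Ix m k a₀ e → ZMod p) (i : Fin k) (P : Fin (m + 1 + 1) → ZMod p) : |ch F c i P| ≤ 1 := qc_abs _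

/-- two points on the same curve -/
lemma two_points (hp2 : p ≠ 2) (ha : 2 ≤ a₀) (he : 1 ≤ e) (i : Fin k) (P P' : Fin (m + 1 + 1) → ZMod p) (hPP : P ≠ P')
    (g : (Ix m k a₀ e → ZMod p) → ℝ) (hg : ∀ c₀ c s, g (fun μ => c μ + s * comp i c₀ μ) = g c) :
    EM p (fun c : Ix m k a₀ e → ZMod p => ch F c i P * ch F c i P' * g c) = 0 := by
  obtain ⟨c₀, h1, h2⟩ := sep_mn (m := m) (a₀ := a₀) (e := e) ha he p P P' hPP (by
    refine ⟨(⟨0, by omega⟩, fun _ => 0), ?_⟩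
    simp [mn])
  refine EM_shift _ (comp i c₀) fun c => ?_
  simp only [ch_same, hg, h2, mul_zero, add_zero]
  rw [← sum_mul, ← sum_mul, sum_qc_affine hp2 _ _ h1, zero_mul, zero_mul]

lemma one_point (hp2 : p ≠ 2) (ha : 2 ≤ a₀) (i : Fin k) (P : Fin (m + 1 + 1) → ZMod p)
    (g : (Ix m k a₀ e → ZMod p) → ℝ) (hg : ∀ c₀ c s, g (fun μ => c μ + s * comp i c₀ μ) = g c) :
    EM p (fun c : Ix m k a₀ e → ZMod p => ch F c i P * g c) = 0 := by
  obtain ⟨c₀, h1⟩ := exists_dir (m := m) (a₀ := a₀) (e := e) ha p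
  refine EM_shift _ (comp i c₀) fun c => ?_
  simp only [ch_same, hg, h1]
  rw [← sum_mul, sum_qc_affine hp2 _ _ one_ne_zero, zero_mul]

lemma sum_qc_sq (v : ZMod p) : ∑ s : ZMod p, qc p (v + s * 1) ^ 2 = p - 1 := by
  classical
  have h1 : ∑ s : ZMod p, qc p (v + s * 1) ^ 2 = ∑ s : ZMod p, qc p s ^ 2 :=
    Fintype.sum_equiv (Equiv.addLeft v) _ _ fun s => by simp
  have h2 : ∀ s : ZMod p, qc p s ^ 2 = 1 - (if s = 0 then 1 else 0) := by
    intro s
    unfold qc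
    split_ifs with h
    · simp [h]
    · rcases quadraticChar_dichotomy h with h3 | h3 <;> rw [h3] <;> simp
  rw [h1, sum_congr rfl (fun s _ => h2 s), sum_sub_distrib, sum_ite_eq' univ (0 : ZMod p), if_pos (mem_univ _), sum_const, card_univ,
    ZMod.card, nsmul_eq_mul, mul_one]

lemma same_point (ha : 2 ≤ a₀) (i : Fin k) (P : Fin (m + 1 + 1) → ZMod p) :
    EM p (fun c : Ix m k a₀ e → ZMod p => ch F c i P * ch F c i P) = 1 - 1 / p := by
  have hp0 : (0 : ℝ) < p := by exact_mod_cast hp.out.pos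
  obtain ⟨c₀, h1⟩ := exists_dir (m := m) (a₀ := a₀) (e := e) ha p
  have h2 : EM p (fun c : Ix m k a₀ e → ZMod p => ch F c i P * ch F c i P + (-(1 - 1 / (p : ℝ)))) = 0 := by
    refine EM_shift _ (comp i c₀) fun c => ?_
    simp only [ch_same, h1]
    rw [sum_add_distrib]
    have h3 : ∑ s : ZMod p, qc p (vl (F i) mn p (fun μ => c (i, μ)) P + s * 1) * qc p (vl (F i) mn p (fun μ => c (i, μ)) P + s * 1) = p - 1 := by
      rw [← sum_qc_sq (vl (F i) mn p (fun μ => c (i, μ)) P)]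
      exact sum_congr rfl fun s _ => (sq _).symm
    rw [h3, sum_const, card_univ, ZMod.card, nsmul_eq_mul]
    field_simp
    ring
  rw [EM_add, EM_const] at h2
  linarith

/-- the average of the product of the traces of two curves -/
noncomputable def GG (F : Fin k → MvPolynomial (Fin (m + 1 + 1)) ℤ) {p : ℕ} [Fact p.Prime] (i j : Fin k) (c : Ix m k a₀ e → ZMod p) : ℝ :=
  (∑ t : Fin (m + 1) → ZMod p, trc F c i t * trc F c j t) / (p : ℝ) ^ (m + 2)

lemma GG_expand (i j : Fin k) (c : Ix m k a₀ e → ZMod p) : GG F i j c =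
    (1 / (p : ℝ) ^ (m + 2)) * ∑ t : Fin (m + 1) → ZMod p, ∑ x : ZMod p, ∑ x' : ZMod p, ch F c i (Fin.cons x t) * ch F c j (Fin.cons x' t) := by
  unfold GG trc
  rw [one_div, inv_mul_eq_div]
  congr 1
  refine sum_congr rfl fun t _ => ?_
  rw [neg_mul_neg, sum_mul_sum]

lemma comp_indep (i j : Fin k) (hij : j ≠ i) (P : Fin (m + 1 + 1) → ZMod p) (c₀ : Fin a₀ × (Fin (m + 1) → Fin (e + 1)) → ZMod p)
    (c : Ix m k a₀ e → ZMod p) (s : ZMod p) : ch F (fun μ => c μ + s * comp i c₀ μ) j P = ch F c j P := ch_other F i j hij c₀ c s P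

theorem EM_GG_ne (hp2 : p ≠ 2) (ha : 2 ≤ a₀) (i j : Fin k) (hij : i ≠ j) :
    EM p (fun c : Ix m k a₀ e → ZMod p => GG F i j c) = 0 := by
  simp only [GG_expand]
  rw [EM_mul, EM_sum]
  rw [sum_eq_zero, mul_zero]
  intro t _
  rw [EM_sum]
  refine sum_eq_zero fun x _ => ?_
  rw [EM_sum]
  refine sum_eq_zero fun x' _ => ?_
  exact one_point F hp2 ha i (Fin.cons x t) (fun c => ch F c j (Fin.cons x' t)) (fun c₀ c s => ch_other F i j hij.symm c₀ c s _)

theorem EM_GG_eq (hp2 : p ≠ 2) (ha : 2 ≤ a₀) (he : 1 ≤ e) (i : Fin k) :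
    EM p (fun c : Ix m k a₀ e → ZMod p => GG F i i c) = 1 - 1 / p := by
  have hp0 : (0 : ℝ) < p := by exact_mod_cast hp.out.pos
  simp only [GG_expand]
  rw [EM_mul, EM_sum]
  have h1 : ∀ t : Fin (m + 1) → ZMod p, EM p (fun c : Ix m k a₀ e → ZMod p => ∑ x : ZMod p, ∑ x' : ZMod p,
      ch F c i (Fin.cons x t) * ch F c i (Fin.cons x' t)) = p * (1 - 1 / p) := by
    intro t
    rw [EM_sum]
    have h2 : ∀ x : ZMod p, EM p (fun c : Ix m k a₀ e → ZMod p => ∑ x' : ZMod p, ch F c i (Fin.cons x t) * ch F c i (Fin.cons x' t)) =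
        1 - 1 / p := by
      intro x
      rw [EM_sum, sum_eq_single x]
      · exact same_point F ha i _
      · intro x' _ hx
        have hne : (Fin.cons x t : Fin (m + 1 + 1) → ZMod p) ≠ Fin.cons x' t := by
          intro h
          have := congrFun h 0
          simp only [Fin.cons_zero] at this
          exact hx this.symm
        have h3 := two_points F hp2 ha he i _ _ hne (fun _ => 1) (fun _ _ _ => rfl)
        simpa using h3
      · intro h
        exact absurd (mem_univ _) h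
    rw [sum_congr rfl (fun x _ => h2 x), sum_const, card_univ, ZMod.card, nsmul_eq_mul]
  rw [sum_congr rfl (fun t _ => h1 t), sum_const, card_univ, Fintype.card_fun, ZMod.card, Fintype.card_fin, nsmul_eq_mul]
  push_cast
  have e1 : (p : ℝ) ^ (m + 2) = (p : ℝ) ^ (m + 1) * p := pow_succ _ _
  have e2 : (p : ℝ) ^ (m + 1) * p ≠ 0 := by positivity
  rw [e1, ← mul_assoc, ← mul_assoc, one_div, mul_assoc (_)⁻¹, inv_mul_cancel₀ e2, one_mul, one_div]

theorem EM_GG_sq (hp2 : p ≠ 2) (ha : 2 ≤ a₀) (he : 1 ≤ e) (i j : Fin k) (hij : i ≠ j) :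
    EM p (fun c : Ix m k a₀ e → ZMod p => GG F i j c ^ 2) ≤ 1 / p := by
  have hp0 : (0 : ℝ) < p := by exact_mod_cast hp.out.pos
  have hp1 : (1 : ℝ) ≤ p := by exact_mod_cast hp.out.one_lt.le
  obtain ⟨U, hU⟩ : ∃ U : Finset ((Fin (m + 1) → ZMod p) × ZMod p × ZMod p), U = univ := ⟨_, rfl⟩
  have h1 : ∀ c : Ix m k a₀ e → ZMod p, GG F i j c ^ 2 = (1 / (p : ℝ) ^ (m + 2)) ^ 2 * ∑ u ∈ U, ∑ v ∈ U,
      (ch F c i (Fin.cons u.2.1 u.1) * ch F c j (Fin.cons u.2.2 u.1)) * (ch F c i (Fin.cons v.2.1 v.1) * ch F c j (Fin.cons v.2.2 v.1)) := by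
    intro c
    rw [GG_expand, mul_pow]
    congr 1
    have h2 : ∑ t : Fin (m + 1) → ZMod p, ∑ x : ZMod p, ∑ x' : ZMod p, ch F c i (Fin.cons x t) * ch F c j (Fin.cons x' t) =
        ∑ u ∈ U, ch F c i (Fin.cons u.2.1 u.1) * ch F c j (Fin.cons u.2.2 u.1) := by
      rw [hU, Fintype.sum_prod_type]
      refine sum_congr rfl fun t _ => ?_
      rw [Fintype.sum_prod_type]
    rw [h2, sq, sum_mul_sum]
  simp only [h1]
  rw [EM_mul, EM_sum]
  have h2 : ∀ u ∈ U, EM p (fun c : Ix m k a₀ e → ZMod p => ∑ v ∈ U, (ch F c i (Fin.cons u.2.1 u.1) * ch F c j (Fin.cons u.2.2 u.1)) *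
      (ch F c i (Fin.cons v.2.1 v.1) * ch F c j (Fin.cons v.2.2 v.1))) ≤ 1 := by
    intro u _
    rw [EM_sum, sum_eq_single u]
    · refine (EM_mono p _ (fun _ => 1) fun c => ?_).trans (le_of_eq (EM_const p 1))
      have a1 := ch_abs F c i (Fin.cons u.2.1 u.1)
      have a2 := ch_abs F c j (Fin.cons u.2.2 u.1)
      have a3 : |ch F c i (Fin.cons u.2.1 u.1) * ch F c j (Fin.cons u.2.2 u.1)| ≤ 1 := by
        rw [abs_mul]
        exact mul_le_one₀ a1 (abs_nonneg _) a2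
      have a4 := abs_le.1 a3
      nlinarith
    · intro v _ hvu
      by_cases hx : (Fin.cons u.2.1 u.1 : Fin (m + 1 + 1) → ZMod p) = Fin.cons v.2.1 v.1
      · have hne : (Fin.cons u.2.2 u.1 : Fin (m + 1 + 1) → ZMod p) ≠ Fin.cons v.2.2 v.1 := by
          intro hy
          apply hvu
          obtain ⟨e1, e2⟩ := Fin.cons_inj.1 hx
          obtain ⟨e3, _⟩ := Fin.cons_inj.1 hy
          exact Prod.ext e2.symm (Prod.ext e1.symm e3.symm)
        have h3 := two_points F hp2 ha he j _ _ hne (fun c : Ix m k a₀ e → ZMod p => ch F c i (Fin.cons u.2.1 u.1) * ch F c i (Fin.cons v.2.1 v.1))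
          (fun c₀ c s => by
            show ch F (fun μ => c μ + s * comp j c₀ μ) i _ * ch F (fun μ => c μ + s * comp j c₀ μ) i _ = _
            rw [ch_other F j i hij, ch_other F j i hij])
        rw [← h3]
        congr 1
        funext c
        ring
      · have h3 := two_points F hp2 ha he i _ _ hx (fun c : Ix m k a₀ e → ZMod p => ch F c j (Fin.cons u.2.2 u.1) * ch F c j (Fin.cons v.2.2 v.1))
          (fun c₀ c s => by
            show ch F (fun μ => c μ + s * comp i c₀ μ) j _ * ch F (fun μ => c μ + s * comp i c₀ μ) j _ = _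
            rw [ch_other F i j hij.symm, ch_other F i j hij.symm])
        rw [← h3]
        congr 1
        funext c
        ring
    · intro h
      rw [hU] at h
      exact absurd (mem_univ _) h
  have h3 : (1 / (p : ℝ) ^ (m + 2)) ^ 2 * ∑ u ∈ U, EM p (fun c : Ix m k a₀ e → ZMod p => ∑ v ∈ U,
      (ch F c i (Fin.cons u.2.1 u.1) * ch F c j (Fin.cons u.2.2 u.1)) * (ch F c i (Fin.cons v.2.1 v.1) * ch F c j (Fin.cons v.2.2 v.1))) ≤
      (1 / (p : ℝ) ^ (m + 2)) ^ 2 * (p : ℝ) ^ (m + 3) := by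
    apply mul_le_mul_of_nonneg_left _ (by positivity)
    refine (sum_le_sum h2).trans ?_
    rw [sum_const, nsmul_eq_mul, mul_one, hU, card_univ, Fintype.card_prod, Fintype.card_prod, Fintype.card_fun, ZMod.card, Fintype.card_fin]
    push_cast
    exact le_of_eq (by ring)
  refine h3.trans ?_
  rw [one_div, ← inv_pow]
  have h4 : (((p : ℝ)⁻¹ ^ (m + 2)) ^ 2) * (p : ℝ) ^ (m + 3) = (p : ℝ)⁻¹ ^ (m + 1) := by
    rw [← pow_mul, inv_pow, inv_pow]
    field_simp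
    ring
  rw [h4, one_div, pow_succ]
  have h5 : (p : ℝ)⁻¹ ^ m ≤ 1 := pow_le_one₀ (by positivity) (inv_le_one_of_one_le₀ hp1)
  have h6 : 0 < (p : ℝ)⁻¹ := by positivity
  nlinarith

theorem trc_abs {D : Fin k → ℕ} (hD : ∀ i, Odd (D i)) (hF : ∀ i, MonicIn (D i) (F i)) (haD : ∀ i, a₀ ≤ D i) (hp2 : p ≠ 2)
    (c : Ix m k a₀ e → ZMod p) (i : Fin k) (t : Fin (m + 1) → ZMod p) : |trc F c i t| ≤ (∑ i, D i : ℕ) * Real.sqrt p := by
  unfold trc
  rw [abs_neg]
  have h1 := fiber_bound (hD i) (hF i) (fun μ => low_mn (haD i) μ) hp2 (fun μ => c (i, μ)) t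
  refine h1.trans (mul_le_mul_of_nonneg_right ?_ (by positivity))
  have h2 : D i ≤ ∑ i, D i := single_le_sum (f := D) (fun _ _ => Nat.zero_le _) (mem_univ i)
  have h3 : (D i : ℝ) ≤ ((∑ i, D i : ℕ) : ℝ) := by exact_mod_cast h2
  linarith

theorem GG_abs {D : Fin k → ℕ} (hD : ∀ i, Odd (D i)) (hF : ∀ i, MonicIn (D i) (F i)) (haD : ∀ i, a₀ ≤ D i) (hp2 : p ≠ 2)
    (i j : Fin k) (c : Ix m k a₀ e → ZMod p) : |GG F i j c| ≤ ((∑ i, D i : ℕ) : ℝ) ^ 2 := by
  have hp0 : (0 : ℝ) < p := by exact_mod_cast hp.out.pos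
  unfold GG
  rw [abs_div, abs_of_pos (by positivity : (0 : ℝ) < (p : ℝ) ^ (m + 2)), div_le_iff₀ (by positivity)]
  have h1 : ∀ t : Fin (m + 1) → ZMod p, |trc F c i t * trc F c j t| ≤ ((∑ i, D i : ℕ) : ℝ) ^ 2 * p := by
    intro t
    rw [abs_mul]
    have a1 := trc_abs F hD hF haD hp2 c i t
    have a2 := trc_abs F hD hF haD hp2 c j t
    calc |trc F c i t| * |trc F c j t| ≤ ((∑ i, D i : ℕ) * Real.sqrt p) * ((∑ i, D i : ℕ) * Real.sqrt p) :=
          mul_le_mul a1 a2 (abs_nonneg _) (by positivity)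
      _ = ((∑ i, D i : ℕ) : ℝ) ^ 2 * (Real.sqrt p * Real.sqrt p) := by ring
      _ = ((∑ i, D i : ℕ) : ℝ) ^ 2 * p := by rw [Real.mul_self_sqrt hp0.le]
  refine (abs_sum_le_sum_abs _ _).trans ((sum_le_sum fun t _ => h1 t).trans ?_)
  rw [sum_const, nsmul_eq_mul, card_univ, Fintype.card_fun, ZMod.card, Fintype.card_fin]
  push_cast
  exact le_of_eq (by ring)

end

end Pool.Agent.V11210.NF.P2
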